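import Mathlib

/-!
# Commuting symmetric `3 × 3` matrices and the operator `𝒮` (module G2e of MP_f09395_gt)

`no_pair`: there is no orthonormal pair of commuting traceless symmetric matrices `q, q'` such that
`𝒮 q` commutes with `q` and `q'` and `𝒮 q'` commutes with `q`. The linear algebra fact used is
`zero_of_comm`: three commuting traceless symmetric `3 × 3` matrices are linearly dependent, proved
from the polarised Cayley-Hamilton identity.
-/

namespace Pool.Agent.Helper93.Fin

namespace G2

/-- first matrix -/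
def C1 : Matrix (Fin 3) (Fin 3) ℝ := !![1, 0, 0; 0, -1, 0; 0, 0, 0]
/-- second matrix -/
def C2 : Matrix (Fin 3) (Fin 3) ℝ := !![1, 0, 1; 0, 1, 2; 1, 2, -2]
/-- `𝒮 X = ⟨C1, X⟩ C1 + ⟨C2, X⟩ C2` -/
def opS (X : Matrix (Fin 3) (Fin 3) ℝ) : Matrix (Fin 3) (Fin 3) ℝ :=
  (C1 * X).trace • C1 + (C2 * X).trace • C2

namespace G2e

open Matrix

/-- real `3 × 3` matrices -/
abbrev M3 := Matrix (Fin 3) (Fin 3) ℝ

theorem ch (A B C : M3) (hA : A.trace = 0) (hB : B.trace = 0) (hC : C.trace = 0) :
    A*B*C + A*C*B + B*A*C + B*C*A + C*A*B + C*B*A =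
      (A*B).trace • C + (B*C).trace • A + (C*A).trace • B
        + ((A*B*C).trace + (A*C*B).trace) • (1 : M3) := by
  have hA' : A 2 2 = - A 0 0 - A 1 1 := by
    rw [Matrix.trace_fin_three] at hA; linarith
  have hB' : B 2 2 = - B 0 0 - B 1 1 := by
    rw [Matrix.trace_fin_three] at hB; linarith
  have hC' : C 2 2 = - C 0 0 - C 1 1 := by
    rw [Matrix.trace_fin_three] at hC; linarith
  ext i j
  fin_cases i <;> fin_cases j <;>
  simp [Matrix.mul_apply, Fin.sum_univ_three, Matrix.trace_fin_three, hA', hB', hC'] <;> ring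

theorem ch_comm (A B C : M3) (hA : A.trace = 0) (hB : B.trace = 0) (hC : C.trace = 0)
    (hAB : B * A = A * B) (hAC : C * A = A * C) (hBC : C * B = B * C) :
    (6 : ℝ) • (A * B * C) =
      (A*B).trace • C + (B*C).trace • A + (C*A).trace • B + (2 * (A*B*C).trace) • (1 : M3) := by
  have h := ch A B C hA hB hC
  have e1 : A * C * B = A * B * C := by rw [mul_assoc, hBC, ← mul_assoc]
  have e2 : B * A * C = A * B * C := by rw [hAB]
  have e3 : B * C * A = A * B * C := by rw [mul_assoc, hAC, ← mul_assoc, hAB]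
  have e4 : C * A * B = A * B * C := by rw [hAC, mul_assoc, hBC, ← mul_assoc]
  have e5 : C * B * A = A * B * C := by rw [hBC, mul_assoc, hAC, ← mul_assoc, hAB]
  rw [e1, e2, e3, e4, e5] at h
  have h6 : (6 : ℝ) • (A * B * C) = A * B * C + A * B * C + A * B * C + A * B * C + A * B * C
      + A * B * C := by
    module
  rw [h6, h, two_mul]

theorem eq_zero_of_trace_sq {Z : M3} (hs : Z.IsSymm) (h : (Z * Z).trace = 0) : Z = 0 := by
  have h1 : (Zᵀ * Z).trace = 0 := by rw [hs]; exact h
  have h2 : (Zᴴ * Z).trace = 0 := by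
    rw [Matrix.conjTranspose_eq_transpose_of_trivial]; exact h1
  exact Matrix.trace_conjTranspose_mul_self_eq_zero_iff.1 h2

theorem zero_of_comm {q q' Z : M3} (hZ : Z.IsSymm) (tq : q.trace = 0) (tq' : q'.trace = 0)
    (tZ : Z.trace = 0) (c1 : q' * q = q * q') (c2 : Z * q = q * Z) (c3 : Z * q' = q' * Z)
    (n1 : (q * q).trace = 1) (n2 : (q' * q').trace = 1) (n3 : (q * q').trace = 0)
    (n4 : (q * Z).trace = 0) (n5 : (q' * Z).trace = 0) : Z = 0 := by
  set z := (Z * Z).trace with hz
  set τ := (q * q' * Z).trace with hτ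
  set t := (q * q * q').trace with ht
  have n3' : (q' * q).trace = 0 := by rw [c1]; exact n3
  have n4' : (Z * q).trace = 0 := by rw [c2]; exact n4
  have n5' : (Z * q').trace = 0 := by rw [c3]; exact n5
  have I1 := ch_comm q q' Z tq tq' tZ c1 c2 c3
  rw [n3, n5, n4', zero_smul, zero_smul, zero_smul, zero_add, zero_add, zero_add] at I1
  have I2 := ch_comm q q q' tq tq tq' rfl c1 c1
  rw [n1, n3, n3', zero_smul, one_smul, add_zero, add_zero] at I2
  have I3 := ch_comm Z Z q' tZ tZ tq' rfl c3.symm c3.symm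
  rw [n5', n5, zero_smul, add_zero, add_zero] at I3
  have I4 := ch_comm q' q' Z tq' tq' tZ rfl c3 c3
  rw [n2, n5, n5', zero_smul, one_smul, add_zero, add_zero] at I4
  -- `q' Z = 2 τ q - 2 t Z`
  have J : q' * Z = (2 * τ) • q - (2 * t) • Z := by
    have e1 : (6 : ℝ) • (q * q * q') * Z = q * ((6 : ℝ) • (q * q' * Z)) := by
      rw [smul_mul_assoc, mul_smul_comm]
      congr 1
      noncomm_ring
    rw [I1, I2] at e1
    rw [add_mul, smul_mul_assoc, one_mul, mul_smul_comm, mul_one] at e1
    rw [← e1]; abel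
  have J1 : (q' * Z * Z).trace = -(2 * t) * z := by
    rw [J, sub_mul, smul_mul_assoc, smul_mul_assoc, trace_sub, trace_smul, trace_smul, n4]
    simp [hz]
  have J2 : (2 * τ) • Z = z • (q' * q) + (2 * (Z * Z * q').trace) • q := by
    have e1 : (6 : ℝ) • (Z * Z * q') * q = Z * ((6 : ℝ) • (q * q' * Z)) := by
      rw [smul_mul_assoc, mul_smul_comm]
      congr 1
      calc Z * Z * q' * q = Z * (Z * (q' * q)) := by noncomm_ring
        _ = Z * (Z * q * q') := by rw [c1, mul_assoc]
        _ = Z * (q * (Z * q')) := by rw [c2, mul_assoc]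
        _ = Z * (q * q' * Z) := by rw [c3, mul_assoc]
    rw [I1, I3] at e1
    rw [add_mul, smul_mul_assoc, smul_mul_assoc, one_mul, mul_smul_comm, mul_one] at e1
    exact e1.symm
  have J3 : 0 = z * t + 2 * (Z * Z * q').trace := by
    have e1 := congrArg (fun M : M3 => (M * q).trace) J2
    simp only [add_mul, smul_mul_assoc, trace_add, trace_smul, n4', n1, smul_eq_mul] at e1
    have e2 : (q' * q * q).trace = t := by
      rw [ht]
      rw [c1, mul_assoc, c1, ← mul_assoc]
    rw [e2] at e1
    linarith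
  have J4 : (Z * Z * q').trace = (q' * Z * Z).trace := by
    rw [mul_assoc, c3, ← mul_assoc, c3]
  have J5 : z * t = 0 := by
    rw [J4, J1] at J3; linarith
  by_contra hne
  have hz0 : z ≠ 0 := fun h => hne (eq_zero_of_trace_sq hZ h)
  have ht0 : t = 0 := by
    rcases mul_eq_zero.1 J5 with h | h
    · exact absurd h hz0
    · exact h
  rw [ht0, mul_zero, zero_smul, sub_zero] at J
  have hτ0 : τ = 0 := by
    have e1 : τ = 2 * τ := by
      calc τ = (q * (q' * Z)).trace := by rw [hτ, mul_assoc]
        _ = 2 * τ := by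
          rw [J, mul_smul_comm, trace_smul, n1, smul_eq_mul, mul_one]
    linarith
  rw [hτ0, mul_zero, zero_smul] at J
  have e2 : q' * q' * Z = 0 := by rw [mul_assoc, J, mul_zero]
  rw [e2, smul_zero, trace_zero, mul_zero, zero_smul, add_zero] at I4
  exact hne I4.symm


theorem sym_form {q : M3} (hq : q.IsSymm) (tq : q.trace = 0) :
    ∃ a b c d e : ℝ, q = !![a, b, c; b, d, e; c, e, -a-d] := by
  refine ⟨q 0 0, q 0 1, q 0 2, q 1 1, q 1 2, ?_⟩
  have h2 : q 2 2 = - q 0 0 - q 1 1 := by
    rw [Matrix.trace_fin_three] at tq; linarith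
  ext i j
  fin_cases i <;> fin_cases j <;> simp [h2, hq.apply 0 1, hq.apply 0 2, hq.apply 1 2]

theorem trC1 (a b c d e : ℝ) : (C1 * !![a, b, c; b, d, e; c, e, -a-d]).trace = a - d := by
  simp [C1, Matrix.trace_fin_three]; ring

theorem trC2 (a b c d e : ℝ) :
    (C2 * !![a, b, c; b, d, e; c, e, -a-d]).trace = 3 * a + 3 * d + 2 * c + 4 * e := by
  simp [C2, Matrix.trace_fin_three]; ring

theorem commC1 {a b c d e : ℝ} (h : !![a, b, c; b, d, e; c, e, -a-d] * C1 =
    C1 * !![a, b, c; b, d, e; c, e, -a-d]) : b = 0 ∧ c = 0 ∧ e = 0 := by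
  have h1 := congrFun (congrFun h 0) 1
  have h2 := congrFun (congrFun h 0) 2
  have h3 := congrFun (congrFun h 1) 2
  simp [C1, Matrix.mul_apply, Fin.sum_univ_three] at h1 h2 h3
  refine ⟨by linarith, by linarith, by linarith⟩

theorem commC2 {a b c d e : ℝ} (h : !![a, b, c; b, d, e; c, e, -a-d] * C2 =
    C2 * !![a, b, c; b, d, e; c, e, -a-d]) :
    2 * c = e ∧ 2 * a + d + 2 * b - 3 * c = 0 ∧ 2 * a + 4 * d + b - 3 * e = 0 := by
  have h1 := congrFun (congrFun h 0) 1
  have h2 := congrFun (congrFun h 0) 2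
  have h3 := congrFun (congrFun h 1) 2
  simp [C2, Matrix.mul_apply, Fin.sum_univ_three] at h1 h2 h3
  refine ⟨by linarith, by linarith, by linarith⟩

theorem L0 {q : M3} (hq : q.IsSymm) (tq : q.trace = 0) (h1 : q * C1 = C1 * q)
    (h2 : q * C2 = C2 * q) : q = 0 := by
  obtain ⟨a, b, c, d, e, rfl⟩ := sym_form hq tq
  obtain ⟨hb, hc, he⟩ := commC1 h1
  obtain ⟨h3, h4, h5⟩ := commC2 h2
  have ha : a = 0 := by linarith
  have hd : d = 0 := by linarith
  subst hb hc he ha hd
  ext i j; fin_cases i <;> fin_cases j <;> simp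

theorem L1 {q : M3} (hq : q.IsSymm) (tq : q.trace = 0) (h1 : q * C1 = C1 * q)
    (h2 : (C2 * q).trace = 0) : ∃ r : ℝ, q = r • C1 := by
  obtain ⟨a, b, c, d, e, rfl⟩ := sym_form hq tq
  obtain ⟨hb, hc, he⟩ := commC1 h1
  rw [trC2] at h2
  have hd : d = -a := by linarith
  subst hb hc he hd
  refine ⟨a, ?_⟩
  ext i j; fin_cases i <;> fin_cases j <;> simp [C1]

theorem L2 {q : M3} (hq : q.IsSymm) (tq : q.trace = 0) (h1 : q * C2 = C2 * q)
    (h2 : (C1 * q).trace = 0) : ∃ r : ℝ, q = r • C2 := by
  obtain ⟨a, b, c, d, e, rfl⟩ := sym_form hq tq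
  obtain ⟨h3, h4, h5⟩ := commC2 h1
  rw [trC1] at h2
  have hd : d = a := by linarith
  have hc : c = a := by linarith
  have he : e = 2 * a := by linarith
  have hb : b = 0 := by linarith
  subst hd hb he
  subst hc
  refine ⟨c, ?_⟩
  ext i j; fin_cases i <;> fin_cases j <;> simp [C2] <;> ring

theorem prop3 {a b e a' b' e' : ℝ} (h1 : a * b' = a' * b) (h2 : a * e' = a' * e)
    (h3 : b * e' = b' * e) (hne : ¬ (a = 0 ∧ b = 0 ∧ e = 0)) :
    ∃ ρ : ℝ, a' = ρ * a ∧ b' = ρ * b ∧ e' = ρ * e := by
  have hN : 0 < a ^ 2 + b ^ 2 + e ^ 2 := by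
    by_contra h
    push Not at h
    apply hne
    refine ⟨?_, ?_, ?_⟩ <;> nlinarith [sq_nonneg a, sq_nonneg b, sq_nonneg e]
  refine ⟨(a * a' + b * b' + e * e') / (a ^ 2 + b ^ 2 + e ^ 2), ?_, ?_, ?_⟩
  · field_simp; linear_combination -b * h1 - e * h2
  · field_simp; linear_combination a * h1 - e * h3
  · field_simp; linear_combination a * h2 + b * h3

theorem Lcross {q q' : M3} (hq : q.IsSymm) (tq : q.trace = 0) (hq' : q'.IsSymm)
    (tq' : q'.trace = 0) (h : q * q' = q' * q) (h1 : (C1 * q).trace = 0)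
    (h2 : (C2 * q).trace = 0) (h1' : (C1 * q').trace = 0) (h2' : (C2 * q').trace = 0)
    (hne : q ≠ 0) : ∃ ρ : ℝ, q' = ρ • q := by
  obtain ⟨a, b, c, d, e, rfl⟩ := sym_form hq tq
  obtain ⟨a', b', c', d', e', rfl⟩ := sym_form hq' tq'
  rw [trC1] at h1 h1'
  rw [trC2] at h2 h2'
  have hd : d = a := by linarith
  have hd' : d' = a' := by linarith
  have hc : c = -3 * a - 2 * e := by linarith
  have hc' : c' = -3 * a' - 2 * e' := by linarith
  subst hd hd' hc hc'
  have g1 := congrFun (congrFun h 0) 1
  have g2 := congrFun (congrFun h 0) 2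
  have g3 := congrFun (congrFun h 1) 2
  simp [Matrix.mul_apply, Fin.sum_univ_three] at g1 g2 g3
  obtain ⟨ρ, hρ1, hρ2, hρ3⟩ := prop3 (a := d) (b := b) (e := e) (a' := d') (b' := b') (e' := e')
    (by linarith) (by linarith) (by linarith) (by
      rintro ⟨h1, h2, h3⟩
      apply hne
      rw [h1, h2, h3]
      ext i j; fin_cases i <;> fin_cases j <;> simp)
  refine ⟨ρ, ?_⟩
  rw [hρ1, hρ2, hρ3]
  ext i j; fin_cases i <;> fin_cases j <;> simp <;> ring

theorem Laxis {q : M3} (hq : q.IsSymm) (tq : q.trace = 0) (h1 : (C1 * q).trace = 0)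
    (h2 : (C2 * q).trace = 0) (hne : q ≠ 0) {k1 k2 k3 : ℝ} (hk : ¬ (k1 = 0 ∧ k2 = 0 ∧ k3 = 0))
    (hK : q * !![0, -k3, k2; k3, 0, -k1; -k2, k1, 0] = !![0, -k3, k2; k3, 0, -k1; -k2, k1, 0] * q)
    {u v : ℝ} (hW : q * (u • C1 + v • C2) = (u • C1 + v • C2) * q) : u = 0 ∧ v = 0 := by
  obtain ⟨a, b, c, d, e, rfl⟩ := sym_form hq tq
  rw [trC1] at h1
  rw [trC2] at h2
  have hd : d = a := by linarith
  subst hd
  have hc : c = -3 * d - 2 * e := by linarith
  have g1 := congrFun (congrFun hK 0) 0
  have g2 := congrFun (congrFun hK 1) 1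
  have g3 := congrFun (congrFun hK 0) 1
  have g4 := congrFun (congrFun hK 0) 2
  have g5 := congrFun (congrFun hK 1) 2
  simp [Matrix.mul_apply, Fin.sum_univ_three] at g1 g2 g3 g4 g5
  have w1 := congrFun (congrFun hW 0) 1
  have w2 := congrFun (congrFun hW 0) 2
  have w3 := congrFun (congrFun hW 1) 2
  simp [C1, C2, Matrix.mul_apply, Fin.sum_univ_three] at w1 w2 w3
  have e1 : b * k3 = c * k2 := by linarith
  have e2 : b * k3 = e * k1 := by linarith
  have e3 : e * k2 = c * k1 := by linarith
  have e4 : 3 * d * k2 = b * k1 - e * k3 := by linarith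
  have e5 : -3 * d * k1 = c * k3 - b * k2 := by linarith
  have f1 : -2 * b * u + (2 * c - e) * v = 0 := by linarith
  have f2 : -c * u + (3 * d + 2 * b - 3 * c) * v = 0 := by linarith
  have f3 : e * u + (6 * d + b - 3 * e) * v = 0 := by linarith
  have m1 : (c - e) * (k1 + k2) = 0 := by linarith
  have m2 : (e + c) * (k1 - k2) = 0 := by linarith
  have hne' : ¬ (d = 0 ∧ b = 0 ∧ c = 0 ∧ e = 0) := by
    rintro ⟨rfl, rfl, rfl, rfl⟩
    apply hne
    ext i j; fin_cases i <;> fin_cases j <;> simp
  clear hK hW hq tq hne g1 g2 g3 g4 g5 w1 w2 w3 h1 h2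
  rcases mul_eq_zero.1 m1 with hce | hkk
  · have he : e = -d := by linarith
    have hc' : c = -d := by linarith
    subst he
    subst hc'
    by_cases hd : d = 0
    · exfalso
      subst hd
      have hb : b ≠ 0 := fun hb => hne' ⟨rfl, hb, by norm_num, by norm_num⟩
      apply hk
      refine ⟨?_, ?_, ?_⟩
      · apply mul_left_cancel₀ hb; linarith
      · apply mul_left_cancel₀ hb; linarith
      · apply mul_left_cancel₀ hb; linarith
    · have k12 : k1 = k2 := by
        rcases mul_eq_zero.1 m2 with h | h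
        · exact absurd (by linarith) hd
        · linarith
      subst k12
      have s1 : (15 * d + 3 * b) * v = 0 := by linarith
      rcases mul_eq_zero.1 s1 with h | h
      · exfalso
        have hb : b = -5 * d := by linarith
        subst hb
        have t1 : d * (k1 - 5 * k3) = 0 := by linarith
        have t2 : d * (8 * k1 - k3) = 0 := by linarith
        have t3 := (mul_eq_zero.1 t1).resolve_left hd
        have t4 := (mul_eq_zero.1 t2).resolve_left hd
        apply hk
        refine ⟨by linarith, by linarith, by linarith⟩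
      · subst h
        refine ⟨?_, rfl⟩
        apply mul_left_cancel₀ hd
        linarith
  · have hk2 : k2 = -k1 := by linarith
    subst hk2
    rcases mul_eq_zero.1 m2 with hec | hkk'
    · have hc' : c = 3 * d := by linarith
      have he : e = -3 * d := by linarith
      subst hc'
      subst he
      by_cases hd : d = 0
      · exfalso
        subst hd
        have hb : b ≠ 0 := fun hb => hne' ⟨rfl, hb, by norm_num, by norm_num⟩
        apply hk
        have t1 : k1 = 0 := by apply mul_left_cancel₀ hb; linarith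
        refine ⟨t1, ?_, ?_⟩
        · linarith
        · apply mul_left_cancel₀ hb; linarith
      · have s1 : (21 * d - b) * v = 0 := by linarith
        rcases mul_eq_zero.1 s1 with h | h
        · exfalso
          have hb : b = 21 * d := by linarith
          subst hb
          have t1 : d * (k1 + 7 * k3) = 0 := by linarith
          have t2 : d * (8 * k1 + k3) = 0 := by linarith
          have t3 := (mul_eq_zero.1 t1).resolve_left hd
          have t4 := (mul_eq_zero.1 t2).resolve_left hd
          apply hk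
          refine ⟨by linarith, by linarith, by linarith⟩
        · subst h
          refine ⟨?_, rfl⟩
          apply mul_left_cancel₀ hd
          linarith
    · exfalso
      have hk1 : k1 = 0 := by linarith
      subst hk1
      have hk3 : k3 ≠ 0 := fun h => hk ⟨rfl, by norm_num, h⟩
      have t1 : b = 0 := by apply mul_right_cancel₀ hk3; linarith
      have t2 : e = 0 := by apply mul_right_cancel₀ hk3; linarith
      have t3 : c = 0 := by apply mul_right_cancel₀ hk3; linarith
      exact hne' ⟨by linarith, t1, t3, t2⟩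

theorem antisymm_form {K : M3} (h : Kᵀ = -K) :
    K = !![0, -(K 1 0), K 0 2; K 1 0, 0, -(K 2 1); -(K 0 2), K 2 1, 0] := by
  have h' : ∀ i j, K j i = - K i j := fun i j => by
    have := congrFun (congrFun h i) j
    simpa using this
  have h00 := h' 0 0
  have h11 := h' 1 1
  have h22 := h' 2 2
  have h01 := h' 1 0
  have h20 := h' 0 2
  have h12 := h' 2 1
  ext i j
  fin_cases i <;> fin_cases j <;> simp <;> linarith

theorem C1_symm : C1.IsSymm := by
  ext i j; fin_cases i <;> fin_cases j <;> simp [C1]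

theorem C2_symm : C2.IsSymm := by
  ext i j; fin_cases i <;> fin_cases j <;> simp [C2]

theorem C1_trace : C1.trace = 0 := by simp [C1, Matrix.trace_fin_three]

theorem C2_trace : C2.trace = 0 := by simp [C2, Matrix.trace_fin_three]; norm_num

theorem t11 : (C1 * C1).trace = 2 := by simp [C1, Matrix.trace_fin_three]; norm_num

theorem t12 : (C1 * C2).trace = 0 := by simp [C1, C2, Matrix.trace_fin_three]

theorem t21 : (C2 * C1).trace = 0 := by simp [C1, C2, Matrix.trace_fin_three]

theorem t22 : (C2 * C2).trace = 16 := by simp [C2, Matrix.trace_fin_three]; norm_num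

theorem prop_absurd {q q' M : M3} {r r' : ℝ} (h : q = r • M) (h' : q' = r' • M)
    (nq : (q * q).trace = 1) (nq' : (q' * q').trace = 1) (nqq : (q * q').trace = 0) : False := by
  subst h h'
  simp only [smul_mul_assoc, mul_smul_comm, trace_smul, smul_eq_mul] at nq nq' nqq
  have : (1 : ℝ) = 0 := by
    linear_combination (r * (r' * (M * M).trace)) * nqq - (r' * (r' * (M * M).trace)) * nq - nq'
  exact one_ne_zero this

/-- The main case: an element of the span of `C1`, `C2` commutes with both. -/
theorem LW {q q' : M3} (hq : q.IsSymm) (hq' : q'.IsSymm)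
    (tq : q.trace = 0) (tq' : q'.trace = 0) (hqq : q * q' = q' * q)
    (nq : (q * q).trace = 1) (nq' : (q' * q').trace = 1) (nqq : (q * q').trace = 0)
    {u v : ℝ} (huv : ¬ (u = 0 ∧ v = 0)) (h1 : (C1 * q).trace * v = (C2 * q).trace * u)
    (h2 : (C1 * q').trace * v = (C2 * q').trace * u)
    (hW : q * (u • C1 + v • C2) = (u • C1 + v • C2) * q)
    (hW' : q' * (u • C1 + v • C2) = (u • C1 + v • C2) * q') : False := by
  set W : M3 := u • C1 + v • C2 with hWdef
  have sW : W.IsSymm := (C1_symm.smul u).add (C2_symm.smul v)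
  have tW : W.trace = 0 := by
    rw [hWdef, trace_add, trace_smul, trace_smul, C1_trace, C2_trace]; simp
  set α := (q * W).trace with hα
  set β := (q' * W).trace with hβ
  have hZ : W - α • q - β • q' = 0 := by
    apply zero_of_comm (q := q) (q' := q')
    · exact (sW.sub (hq.smul α)).sub (hq'.smul β)
    · exact tq
    · exact tq'
    · rw [trace_sub, trace_sub, trace_smul, trace_smul, tW, tq, tq']; simp
    · exact hqq.symm
    · simp only [sub_mul, mul_sub, smul_mul_assoc, mul_smul_comm, hW, hqq]
    · simp only [sub_mul, mul_sub, smul_mul_assoc, mul_smul_comm, hW', hqq]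
    · exact nq
    · exact nq'
    · exact nqq
    · simp only [mul_sub, mul_smul_comm, trace_sub, trace_smul, smul_eq_mul, nq, nqq, ← hα]; ring
    · simp only [mul_sub, mul_smul_comm, trace_sub, trace_smul, smul_eq_mul, nq', ← hqq, nqq, ← hβ]
      ring
  have hWe : W = α • q + β • q' := by
    have : W = (W - α • q - β • q') + (α • q + β • q') := by abel
    rw [this, hZ, zero_add]
  have k1 : 2 * u = α * (C1 * q).trace + β * (C1 * q').trace := by
    have e1 : (C1 * W).trace = 2 * u := by
      rw [hWdef, mul_add, mul_smul_comm, mul_smul_comm, trace_add, trace_smul, trace_smul, t11, t12]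
      simp; ring
    rw [← e1, hWe, mul_add, mul_smul_comm, mul_smul_comm, trace_add, trace_smul, trace_smul]
    simp
  have k2 : 16 * v = α * (C2 * q).trace + β * (C2 * q').trace := by
    have e1 : (C2 * W).trace = 16 * v := by
      rw [hWdef, mul_add, mul_smul_comm, mul_smul_comm, trace_add, trace_smul, trace_smul, t21, t22]
      simp; ring
    rw [← e1, hWe, mul_add, mul_smul_comm, mul_smul_comm, trace_add, trace_smul, trace_smul]
    simp
  have huv0 : u * v = 0 := by
    have e1 : 2 * u * v = 16 * v * u := by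
      rw [k1, k2]
      linear_combination α * h1 + β * h2
    linarith
  rcases mul_eq_zero.1 huv0 with h | h
  · subst h
    have hv : v ≠ 0 := fun h => huv ⟨rfl, h⟩
    rw [mul_zero] at h1 h2
    have a1 := (mul_eq_zero.1 h1).resolve_right hv
    have a2 := (mul_eq_zero.1 h2).resolve_right hv
    have c1 : q * C2 = C2 * q := by
      have := hW
      rw [hWdef, zero_smul, zero_add, mul_smul_comm, smul_mul_assoc] at this
      exact smul_right_injective _ hv this
    have c2 : q' * C2 = C2 * q' := by
      have := hW'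
      rw [hWdef, zero_smul, zero_add, mul_smul_comm, smul_mul_assoc] at this
      exact smul_right_injective _ hv this
    obtain ⟨r, hr⟩ := L2 hq tq c1 a1
    obtain ⟨r', hr'⟩ := L2 hq' tq' c2 a2
    exact prop_absurd hr hr' nq nq' nqq
  · subst h
    have hu : u ≠ 0 := fun h => huv ⟨h, rfl⟩
    rw [mul_zero] at h1 h2
    have a1 := (mul_eq_zero.1 h1.symm).resolve_right hu
    have a2 := (mul_eq_zero.1 h2.symm).resolve_right hu
    have c1 : q * C1 = C1 * q := by
      have := hW
      rw [hWdef, zero_smul, add_zero, mul_smul_comm, smul_mul_assoc] at this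
      exact smul_right_injective _ hu this
    have c2 : q' * C1 = C1 * q' := by
      have := hW'
      rw [hWdef, zero_smul, add_zero, mul_smul_comm, smul_mul_assoc] at this
      exact smul_right_injective _ hu this
    obtain ⟨r, hr⟩ := L1 hq tq c1 a1
    obtain ⟨r', hr'⟩ := L1 hq' tq' c2 a2
    exact prop_absurd hr hr' nq nq' nqq

end G2e

open G2e Matrix in
theorem no_pair (q q' : Matrix (Fin 3) (Fin 3) ℝ) (hq : q.IsSymm) (hq' : q'.IsSymm)
    (tq : q.trace = 0) (tq' : q'.trace = 0) (hqq : q * q' = q' * q)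
    (nq : (q * q).trace = 1) (nq' : (q' * q').trace = 1) (nqq : (q * q').trace = 0)
    (h1 : q * opS q = opS q * q) (h2 : q' * opS q = opS q * q')
    (h3 : q * opS q' = opS q' * q) : False := by
  have q0 : q ≠ 0 := by
    rintro rfl
    simp at nq
  set A := (C1 * q).trace with hA
  set B := (C2 * q).trace with hB
  set A' := (C1 * q').trace with hA'
  set B' := (C2 * q').trace with hB'
  have o1 : opS q = A • C1 + B • C2 := rfl
  have o2 : opS q' = A' • C1 + B' • C2 := rfl
  rw [o1] at h1 h2
  rw [o2] at h3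
  by_cases hdet : A * B' = A' * B
  · by_cases hAB : A = 0 ∧ B = 0
    · obtain ⟨hA0, hB0⟩ := hAB
      by_cases hAB' : A' = 0 ∧ B' = 0
      · obtain ⟨hA0', hB0'⟩ := hAB'
        obtain ⟨ρ, hρ⟩ := Lcross hq tq hq' tq' hqq hA0 hB0 hA0' hB0' q0
        exact prop_absurd (one_smul ℝ q).symm hρ nq nq' nqq
      · set Y : M3 := A' • C1 + B' • C2 with hY
        have sY : Y.IsSymm := (C1_symm.smul A').add (C2_symm.smul B')
        by_cases hK : q' * Y = Y * q'
        · refine LW hq hq' tq tq' hqq nq nq' nqq hAB' ?_ ?_ h3 hK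
          · rw [← hA, ← hB, hA0, hB0]; ring
          · rw [← hA', ← hB']; ring
        · exfalso
          set K : M3 := q' * Y - Y * q' with hKdef
          have hK0 : K ≠ 0 := fun h => hK (sub_eq_zero.1 h)
          have hKt : Kᵀ = -K := by
            rw [hKdef, transpose_sub, transpose_mul, transpose_mul, hq', sY]; abel
          have hqK : q * K = K * q := by
            rw [hKdef, mul_sub, sub_mul, ← mul_assoc, ← mul_assoc, hqq, h3, mul_assoc, mul_assoc,
              mul_assoc, mul_assoc, h3, hqq]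
          have hKf := antisymm_form hKt
          rw [hKf] at hqK
          refine hAB' (Laxis hq tq hA0 hB0 q0 ?_ hqK h3)
          rintro ⟨k1, k2, k3⟩
          apply hK0
          rw [hKf, k1, k2, k3]
          ext i j; fin_cases i <;> fin_cases j <;> simp
    · refine LW hq hq' tq tq' hqq nq nq' nqq hAB ?_ ?_ h1 h2
      · rw [← hA, ← hB]; ring
      · rw [← hA', ← hB']; linarith
  · have hD : A * B' - A' * B ≠ 0 := sub_ne_zero.2 hdet
    have c1 : q * C1 = C1 * q := by
      have e1 : (A * B' - A' * B) • (q * C1) = (A * B' - A' * B) • (C1 * q) := by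
        have x1 : (A * B' - A' * B) • (q * C1) =
            B' • (q * (A • C1 + B • C2)) - B • (q * (A' • C1 + B' • C2)) := by
          simp only [mul_add, mul_smul_comm]; module
        have x2 : (A * B' - A' * B) • (C1 * q) =
            B' • ((A • C1 + B • C2) * q) - B • ((A' • C1 + B' • C2) * q) := by
          simp only [add_mul, smul_mul_assoc]; module
        rw [x1, x2, h1, h3]
      exact smul_right_injective _ hD e1
    have c2 : q * C2 = C2 * q := by
      have e1 : (A * B' - A' * B) • (q * C2) = (A * B' - A' * B) • (C2 * q) := by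
        have x1 : (A * B' - A' * B) • (q * C2) =
            A • (q * (A' • C1 + B' • C2)) - A' • (q * (A • C1 + B • C2)) := by
          simp only [mul_add, mul_smul_comm]; module
        have x2 : (A * B' - A' * B) • (C2 * q) =
            A • ((A' • C1 + B' • C2) * q) - A' • ((A • C1 + B • C2) * q) := by
          simp only [add_mul, smul_mul_assoc]; module
        rw [x1, x2, h1, h3]
      exact smul_right_injective _ hD e1
    exact q0 (L0 hq tq c1 c2)

end G2

end Pool.Agent.Helper93.Fin
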