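import Pool.Agent.helper17.Exist

/-!
Sanity checks: uniqueness of all Hodge integrals, and the closed formula with one class.
-/

open Finset MvPolynomial

set_option linter.unusedSectionVars false

namespace Pool.Agent.helper17

/-- The Hodge integral with insertions `psi^(2g-1-|l|)` and the classes `lam (l t)`; the factor
one half is the degree of the forgetful map to the space of stable rational curves. -/
noncomputable def hodgeIntegral (g : ℕ) (deg : ChowRing (Fin (2 * g + 1)) →ₗ[ℚ] ℚ)
    (lam : ℕ → ChowRing (Fin (2 * g + 1))) {n : ℕ} (l : Fin n → ℕ) : ℚ :=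
  1 / 2 * deg (psi (Fin (2 * g + 1)) ^ (2 * g - 1 - ∑ t, l t) * ∏ t, lam (l t))

variable {α : Type*} [DecidableEq α] [Fintype α]

theorem deg_mul_unique {deg deg' : ChowRing α →ₗ[ℚ] ℚ} {lam lam' : ℕ → ChowRing α}
    (h : IsHodge deg lam) (h' : IsHodge deg' lam') {a k : ℕ} (hk : a + k + 2 = Fintype.card α)
    {y : ChowRing α} (hy : y ∈ stSpan α a) : deg (lam k * y) = deg' (lam' k * y) := by
  unfold stSpan at hy
  induction hy using Submodule.span_induction with
  | mem y hy =>
    obtain ⟨F, hF, hFc, rfl⟩ := hy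
    rw [h.degree k F hF (by omega), h'.degree k F hF (by omega)]
  | zero => simp
  | add x y _ _ hx hy => rw [mul_add, mul_add, map_add, map_add, hx, hy]
  | smul c x _ hx => rw [mul_smul_comm, mul_smul_comm, map_smul, map_smul, hx]

/-- The degree map is unique. -/
theorem deg_unique (h2 : 2 ≤ Fintype.card α) {deg deg' : ChowRing α →ₗ[ℚ] ℚ}
    (h : IsDegree deg) (h' : IsDegree deg') : deg = deg' := by
  apply LinearMap.ext
  intro x
  obtain ⟨p, rfl⟩ := Ideal.Quotient.mk_surjective x
  rw [← sum_homogeneousComponent p, map_sum, map_sum, map_sum]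
  apply sum_congr rfl
  intro i _
  have hi := homogeneousComponent_isHomogeneous i p
  by_cases hic : i + 2 = Fintype.card α
  · have hm := mk_mem_stSpan h2 hi
    have key : ∀ y ∈ stSpan α i, deg y = deg' y := by
      intro y hy
      unfold stSpan at hy
      induction hy using Submodule.span_induction with
      | mem y hy =>
        obtain ⟨F, hF, hFc, rfl⟩ := hy
        rw [h.point F hF (by omega), h'.point F hF (by omega)]
      | zero => simp
      | add x y _ _ hx hy => rw [map_add, map_add, hx, hy]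
      | smul c x _ hx => rw [map_smul, map_smul, hx]
    exact key _ hm
  · rw [h.homog i _ hi hic, h'.homog i _ hi hic]

theorem IsHomog.mem_stSpan (h2 : 2 ≤ Fintype.card α) {k : ℕ} {y : ChowRing α}
    (hy : IsHomog k y) : y ∈ stSpan α k := by
  obtain ⟨p, hp, rfl⟩ := hy
  exact mk_mem_stSpan h2 hp

/-- All Hodge integrals are uniquely determined. -/
theorem prod_unique (h2 : 2 ≤ Fintype.card α) {deg deg' : ChowRing α →ₗ[ℚ] ℚ}
    {lam lam' : ℕ → ChowRing α} (hd : IsDegree deg) (h : IsHodge deg lam) (hd' : IsDegree deg')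
    (h' : IsHodge deg' lam') : ∀ (n : ℕ) (l : Fin n → ℕ) (a : ℕ) (y : ChowRing α), IsHomog a y →
      a + ∑ t, l t + 2 = Fintype.card α → deg (y * ∏ t, lam (l t)) = deg' (y * ∏ t, lam' (l t)) := by
  have hdd := deg_unique h2 hd hd'
  subst hdd
  intro n
  induction n with
  | zero =>
    intro l a y _ _
    rw [univ_eq_empty, prod_empty, prod_empty]
  | succ n ih =>
    intro l a y hy hsum
    rw [Fin.prod_univ_succ, Fin.prod_univ_succ]
    rw [Fin.sum_univ_succ] at hsum
    have e1 : y * (lam (l 0) * ∏ i : Fin n, lam (l i.succ))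
        = y * lam (l 0) * ∏ i : Fin n, lam (l i.succ) := by ring
    have e2 : y * (lam' (l 0) * ∏ i : Fin n, lam' (l i.succ))
        = lam' (l 0) * (y * ∏ i : Fin n, lam' (l i.succ)) := by ring
    have e3 : y * lam (l 0) * ∏ i : Fin n, lam' (l i.succ)
        = lam (l 0) * (y * ∏ i : Fin n, lam' (l i.succ)) := by ring
    have h0 : IsHomog (l 0) (lam (l 0)) := h.homog (l 0)
    rw [e1, ih (fun i => l i.succ) (a + l 0) (y * lam (l 0)) (hy.mul h0) (by omega), e2, e3]
    have hm : IsHomog (a + ∑ i : Fin n, l i.succ) (y * ∏ i : Fin n, lam' (l i.succ)) :=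
      hy.mul (isHomog_prod (fun i => l i.succ) h'.homog)
    exact deg_mul_unique h h' (by omega) (hm.mem_stSpan h2)

theorem hodgeIntegral_unique {g : ℕ} (hg : 0 < g)
    {deg deg' : ChowRing (Fin (2 * g + 1)) →ₗ[ℚ] ℚ} {lam lam' : ℕ → ChowRing (Fin (2 * g + 1))}
    (hd : IsDegree deg) (h : IsHodge deg lam) (hd' : IsDegree deg') (h' : IsHodge deg' lam')
    {n : ℕ} (l : Fin n → ℕ) (hl : ∑ t, l t ≤ 2 * g - 1) :
    hodgeIntegral g deg lam l = hodgeIntegral g deg' lam' l := by
  unfold hodgeIntegral
  congr 1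
  refine prod_unique (by rw [Fintype.card_fin]; omega) hd h hd' h' n l _ _ (isHomog_psi.pow _) ?_
  rw [Fintype.card_fin]
  omega

theorem degP_psi_cls (h2 : 2 ≤ Fintype.card α) {a k : ℕ} (hk : a + k + 2 = Fintype.card α) :
    degC h2 (psi α ^ a * lamC α k) = ∑ t ∈ powersetCard k
      (range ((Fintype.card α - 1) / 2)), ∏ j ∈ t, ((Fintype.card α : ℚ) / 2 - 1 - j) := by
  have h1 := D_psi_cls (isBlocks_sing (α := α)) (by rwa [card_sing]) (isDeg_degP h2) a
    (by rw [card_sing]; omega)
  have hod : od (sing α) univ = Fintype.card α := by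
    unfold od
    have e : (blk (sing α) univ).filter (fun A => Odd A.card) = sing α := by
      ext A
      rw [mem_filter, mem_blk, mem_sing]
      constructor
      · rintro ⟨⟨h, _⟩, _⟩; exact h
      · intro h; exact ⟨⟨h, subset_univ _⟩, by rw [h]; exact odd_one⟩
    rw [e, card_sing]
  rw [U_sing, hod, card_sing, one_mul] at h1
  have h3 : Fintype.card α - 2 - a = k := by omega
  rw [h3] at h1
  rw [← h1]
  have h4 : ((-X univ) ^ a : MvPolynomial (Finset α) ℚ).IsHomogeneous a := by
    have := (isHomogeneous_X ℚ (univ : Finset α)).neg.pow a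
    rwa [one_mul] at this
  rw [degP_mul_component h2 h4 hk]
  have h5 : psi α ^ a * lamC α k = Ideal.Quotient.mk (Ideal.span (relations α))
      ((-X univ) ^ a * homogeneousComponent k (cls (sing α))) := by
    rw [map_mul, map_pow, map_neg]
    rfl
  rw [h5, degC_mk]

theorem sum_powersetCard_reflect (f : ℕ → ℚ) (g k : ℕ) :
    ∑ t ∈ powersetCard k (range g), ∏ j ∈ t, f (g - 1 - j)
      = ∑ t ∈ powersetCard k (range g), ∏ j ∈ t, f j := by
  refine sum_nbij' (fun t => t.image (fun j => g - 1 - j)) (fun t => t.image (fun j => g - 1 - j))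
    ?_ ?_ ?_ ?_ ?_
  · intro t ht
    rw [mem_powersetCard] at ht ⊢
    refine ⟨?_, ?_⟩
    · intro x hx
      rw [mem_image] at hx
      obtain ⟨j, hj, rfl⟩ := hx
      have := mem_range.mp (ht.1 hj)
      rw [mem_range]; omega
    · rw [card_image_of_injOn, ht.2]
      intro x hx y hy hxy
      have h1 := mem_range.mp (ht.1 hx)
      have h2 := mem_range.mp (ht.1 hy)
      simp only at hxy
      omega
  · intro t ht
    rw [mem_powersetCard] at ht ⊢
    refine ⟨?_, ?_⟩
    · intro x hx
      rw [mem_image] at hx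
      obtain ⟨j, hj, rfl⟩ := hx
      have := mem_range.mp (ht.1 hj)
      rw [mem_range]; omega
    · rw [card_image_of_injOn, ht.2]
      intro x hx y hy hxy
      have h1 := mem_range.mp (ht.1 hx)
      have h2 := mem_range.mp (ht.1 hy)
      simp only at hxy
      omega
  · intro t ht
    rw [mem_powersetCard] at ht
    ext x
    simp only [image_image, mem_image, Function.comp]
    constructor
    · rintro ⟨j, hj, rfl⟩
      have := mem_range.mp (ht.1 hj)
      have h3 : g - 1 - (g - 1 - j) = j := by omega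
      rwa [h3]
    · intro hx
      have := mem_range.mp (ht.1 hx)
      exact ⟨x, hx, by omega⟩
  · intro t ht
    rw [mem_powersetCard] at ht
    ext x
    simp only [image_image, mem_image, Function.comp]
    constructor
    · rintro ⟨j, hj, rfl⟩
      have := mem_range.mp (ht.1 hj)
      have h3 : g - 1 - (g - 1 - j) = j := by omega
      rwa [h3]
    · intro hx
      have := mem_range.mp (ht.1 hx)
      exact ⟨x, hx, by omega⟩
  · intro t ht
    rw [mem_powersetCard] at ht
    rw [prod_image]
    intro x hx y hy hxy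
    have h1 := mem_range.mp (ht.1 hx)
    have h2 := mem_range.mp (ht.1 hy)
    simp only at hxy
    omega

/-- The closed formula with one class, as in the normalisation check of the problem. -/
theorem normalisation_check {g : ℕ} (hg : 0 < g) {deg : ChowRing (Fin (2 * g + 1)) →ₗ[ℚ] ℚ}
    {lam : ℕ → ChowRing (Fin (2 * g + 1))} (hd : IsDegree deg) (h : IsHodge deg lam) {i : ℕ}
    (hi : i ≤ 2 * g - 1) :
    hodgeIntegral g deg lam ![i]
      = (1 / 2) ^ (i + 1) * ∑ t ∈ powersetCard i (range g), ∏ j ∈ t, (2 * (j : ℚ) + 1) := by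
  have hc : Fintype.card (Fin (2 * g + 1)) = 2 * g + 1 := Fintype.card_fin _
  have h2 : 2 ≤ Fintype.card (Fin (2 * g + 1)) := by omega
  rw [hodgeIntegral_unique hg hd h (isDegree_degC h2) (isHodge_lamC h2) ![i] (by simpa using hi)]
  unfold hodgeIntegral
  have e1 : ∑ t, (![i] : Fin 1 → ℕ) t = i := by simp
  have e2 : ∏ t, lamC (Fin (2 * g + 1)) ((![i] : Fin 1 → ℕ) t) = lamC (Fin (2 * g + 1)) i := by
    simp
  rw [e1, e2, degP_psi_cls h2 (by rw [hc]; omega), hc]
  have e3 : (2 * g + 1 - 1) / 2 = g := by omega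
  rw [e3, ← sum_powersetCard_reflect (fun j => 2 * (j : ℚ) + 1) g i, pow_succ, mul_sum, mul_sum]
  apply sum_congr rfl
  intro t ht
  rw [mem_powersetCard] at ht
  have e4 : ∀ j ∈ t, (((2 * g + 1 : ℕ) : ℚ) / 2 - 1 - j)
      = (1 / 2) * (2 * ((g - 1 - j : ℕ) : ℚ) + 1) := by
    intro j hj
    have hj' := mem_range.mp (ht.1 hj)
    have e5 : ((g - 1 - j : ℕ) : ℚ) = (g : ℚ) - 1 - j := by
      rw [Nat.sub_sub, Nat.cast_sub (by omega)]
      push_cast
      ring
    rw [e5]
    push_cast
    ring
  rw [prod_congr rfl e4, prod_mul_distrib, prod_const, ht.2]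
  ring

end Pool.Agent.helper17
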