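import Pool.Agent.helper17.BlockDeg

/-!
An explicit Hodge class and its restriction to boundary divisors.
-/

open Finset MvPolynomial

set_option linter.unusedSectionVars false

namespace Pool.Agent.helper17

variable {γ : Type*} [DecidableEq γ] [Fintype γ]

/-- Truncated geometric series. -/
noncomputable def geo (x : MvPolynomial (Finset γ) ℚ) : MvPolynomial (Finset γ) ℚ :=
  ∑ i ∈ range (Fintype.card (Finset γ)), x ^ i

theorem geo_mul (x : MvPolynomial (Finset γ) ℚ) :
    geo x * (1 - x) = 1 - x ^ Fintype.card (Finset γ) := by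
  unfold geo
  have := geom_sum_mul_neg x (Fintype.card (Finset γ))
  exact this

theorem geo_sub_one (x : MvPolynomial (Finset γ) ℚ) : ∃ r, geo x - 1 = x * r := by
  unfold geo
  obtain ⟨n, hn⟩ : ∃ n, Fintype.card (Finset γ) = n + 1 :=
    ⟨Fintype.card (Finset γ) - 1, by have := Fintype.card_pos (α := Finset γ); omega⟩
  rw [hn, sum_range_succ']
  refine ⟨∑ i ∈ range n, x ^ i, ?_⟩
  rw [pow_zero, add_sub_cancel_right, mul_sum]
  apply sum_congr rfl
  intro i _
  rw [pow_succ, mul_comm]

theorem geo_zero : geo (0 : MvPolynomial (Finset γ) ℚ) = 1 := by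
  obtain ⟨r, hr⟩ := geo_sub_one (0 : MvPolynomial (Finset γ) ℚ)
  rw [zero_mul] at hr
  linear_combination hr

/-- One factor. -/
noncomputable def Fac (T : Finset γ) (f : ℚ) : MvPolynomial (Finset γ) ℚ :=
  1 - C f * X T * geo (C f * dd T)

theorem Fac_zero (T : Finset γ) : Fac T 0 = 1 := by simp [Fac]

/-- Number of odd blocks inside `T`. -/
def od (L : Finset (Finset γ)) (T : Finset γ) : ℕ := ((blk L T).filter (fun A => Odd A.card)).card

/-- The factors attached to `T`. -/
noncomputable def Phi (L : Finset (Finset γ)) (T : Finset γ) : MvPolynomial (Finset γ) ℚ :=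
  ∏ j ∈ range ((od L T - 1) / 2), Fac T ((od L T : ℚ) / 2 - 1 - j)

/-- The total class. -/
noncomputable def cls (L : Finset (Finset γ)) : MvPolynomial (Finset γ) ℚ :=
  ∏ T ∈ univ.filter (fun T : Finset γ => Valid L T), Phi L T

theorem card_blocks_le (L : Finset (Finset γ)) : L.card ≤ Fintype.card (Finset γ) := by
  have := card_le_card (subset_univ L)
  rwa [card_univ] at this

theorem pow_dd_mem {L : Finset (Finset γ)} (hL : IsBlocks L) (h2 : 2 ≤ L.card) (T : Finset γ)
    (f : ℚ) : (C f * dd T) ^ Fintype.card (Finset γ) ∈ bI L := by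
  have h1 : (C f * dd T : MvPolynomial (Finset γ) ℚ).IsHomogeneous (0 + 1) :=
    (isHomogeneous_C _ f).mul (isHomogeneous_dd T)
  have h3 := h1.pow (Fintype.card (Finset γ))
  rw [zero_add, one_mul] at h3
  exact top_mem hL h2 (by have := card_blocks_le L; omega) h3

theorem Fac_mul_mem {L : Finset (Finset γ)} (hL : IsBlocks L) (h2 : 2 ≤ L.card) (T : Finset γ)
    (f : ℚ) : Fac T f * (1 - C f * dd T) - (1 - C f * cc T) ∈ bI L := by
  have h1 := Ideal.mul_mem_left _ (C f * X T) (pow_dd_mem hL h2 T f)
  convert h1 using 1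
  unfold Fac
  rw [cc_eq]
  linear_combination (- (C f * X T)) * geo_mul (C f * dd T)

/-- Cancellation of a unit. -/
theorem cancel_unit {L : Finset (Finset γ)} (hL : IsBlocks L) (h2 : 2 ≤ L.card)
    {J : Ideal (MvPolynomial (Finset γ) ℚ)} (hJ : bI L ≤ J) (T : Finset γ) (f : ℚ)
    {p : MvPolynomial (Finset γ) ℚ} (hp : p * (1 - C f * dd T) ∈ J) : p ∈ J := by
  have h1 := Ideal.mul_mem_left J (geo (C f * dd T)) hp
  have h3 := Ideal.mul_mem_left J p (hJ (pow_dd_mem hL h2 T f))
  have h4 := Ideal.add_mem _ h1 h3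
  convert h4 using 1
  linear_combination (-p) * geo_mul (C f * dd T)

theorem Fac_sub_one_mem_of_X {J : Ideal (MvPolynomial (Finset γ) ℚ)} {T : Finset γ}
    (h : X T ∈ J) (f : ℚ) : Fac T f - 1 ∈ J := by
  have h1 := Ideal.mul_mem_left J (- (C f * geo (C f * dd T))) h
  convert h1 using 1
  unfold Fac
  ring

theorem prod_sub_prod_mem {ι : Type*} {J : Ideal (MvPolynomial (Finset γ) ℚ)} (s : Finset ι)
    (f g : ι → MvPolynomial (Finset γ) ℚ) (h : ∀ i ∈ s, f i - g i ∈ J) :
    ∏ i ∈ s, f i - ∏ i ∈ s, g i ∈ J := by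
  classical
  induction s using Finset.induction_on with
  | empty => simp
  | insert a s ha ih =>
    rw [prod_insert ha, prod_insert ha]
    have h1 := Ideal.mul_mem_right (∏ i ∈ s, f i) J (h a (mem_insert_self a s))
    have h2 := Ideal.mul_mem_left J (g a) (ih (fun i hi => h i (mem_insert_of_mem hi)))
    have h3 := Ideal.add_mem _ h1 h2
    convert h3 using 1
    ring

theorem prod_sub_one_mem {ι : Type*} {J : Ideal (MvPolynomial (Finset γ) ℚ)} (s : Finset ι)
    (f : ι → MvPolynomial (Finset γ) ℚ) (h : ∀ i ∈ s, f i - 1 ∈ J) :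
    ∏ i ∈ s, f i - 1 ∈ J := by
  have := prod_sub_prod_mem s f (fun _ => 1) h
  rwa [prod_const_one] at this

/-! ### Affine weights -/

/-- Additive weight. -/
def wt (L : Finset (Finset γ)) (ν : Finset γ → ℚ) (m₀ : ℚ) (T : Finset γ) : ℚ :=
  m₀ + ∑ A ∈ blk L T, ν A

theorem sum_above_mem {L : Finset (Finset γ)} {S : Finset γ} (hS : Valid L S)
    {A : Finset γ} (hA : A ∈ L) (hAS : ¬ A ⊆ S) (hAne : A.Nonempty) :
    (∑ T ∈ univ.filter (fun T : Finset γ => Valid L T ∧ S ⊂ T ∧ A ⊆ T), X T :
      MvPolynomial (Finset γ) ℚ) ∈ annI L S := by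
  obtain ⟨b, hb⟩ := hAne
  obtain ⟨a, haS⟩ := hS.2.2.2
  obtain ⟨A₀, hA₀, haA₀⟩ := mem_U.mp (hS.1 haS)
  have hA₀S : A₀ ⊆ S := by
    rcases hS.2.1 A₀ hA₀ with h | h
    · exact h
    · exact absurd haS (disjoint_left.mp h haA₀)
  have hne : A₀ ≠ A := by rintro rfl; exact hAS hA₀S
  have hbS : b ∉ S := by
    rcases hS.2.1 A hA with h | h
    · exact absurd h hAS
    · exact disjoint_left.mp h hb
  have h1 := bI_le_annI L S (lin_mem hA₀ hA hne haA₀ hb)
  have e : univ.filter (fun T : Finset γ => a ∈ T ∧ b ∈ T)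
      = (univ.filter (fun T : Finset γ => Valid L T ∧ S ⊂ T ∧ A ⊆ T)) ∪
        (univ.filter (fun T : Finset γ => (a ∈ T ∧ b ∈ T) ∧ ¬ (Valid L T ∧ S ⊂ T ∧ A ⊆ T))) := by
    ext T
    simp only [mem_filter, mem_univ, true_and, mem_union]
    constructor
    · intro h
      by_cases h2 : Valid L T ∧ S ⊂ T ∧ A ⊆ T
      · exact Or.inl h2
      · exact Or.inr ⟨h, h2⟩
    · rintro (h | h)
      · exact ⟨h.2.1.subset haS, h.2.2 hb⟩
      · exact h.1
  rw [e, sum_union] at h1
  · have h2 : (∑ T ∈ univ.filter (fun T : Finset γ => (a ∈ T ∧ b ∈ T) ∧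
        ¬ (Valid L T ∧ S ⊂ T ∧ A ⊆ T)), X T : MvPolynomial (Finset γ) ℚ) ∈ annI L S := by
      apply Ideal.sum_mem
      intro T hT
      rw [mem_filter] at hT
      by_cases hv : Valid L T
      · apply X_mem_annI_of_not_compat
        intro hc
        apply hT.2.2
        refine ⟨hv, ?_, ?_⟩
        · rcases hc with h | h | h
          · refine h.ssubset_of_ne ?_
            rintro rfl
            exact hbS hT.2.1.2
          · exact absurd (h hT.2.1.2) hbS
          · exact absurd hT.2.1.1 (disjoint_left.mp h haS)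
        · rcases hv.2.1 A hA with h | h
          · exact h
          · exact absurd hT.2.1.2 (disjoint_left.mp h hb)
      · exact bI_le_annI L S (X_mem_of_not_valid hv)
    have := Ideal.sub_mem _ h1 h2
    rwa [add_sub_cancel_right] at this
  · rw [disjoint_left]
    intro T hT1 hT2
    rw [mem_filter] at hT1 hT2
    exact hT2.2.2 hT1.2

/-- The sum of weighted variables above `S`. -/
theorem wt_sum_mem {L : Finset (Finset γ)} (hL : IsBlocks L) {S : Finset γ} (hS : Valid L S)
    (ν : Finset γ → ℚ) (m₀ : ℚ) :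
    (∑ T ∈ univ.filter (fun T : Finset γ => Valid L T ∧ S ⊂ T), C (wt L ν m₀ T) * X T)
      - C (wt L ν m₀ S) * dd S ∈ annI L S := by
  -- replace the sum over all supersets by the sum over valid supersets
  have hd : dd S - ∑ T ∈ univ.filter (fun T : Finset γ => Valid L T ∧ S ⊂ T), X T ∈ annI L S := by
    unfold dd
    have e : univ.filter (fun T : Finset γ => S ⊂ T)
        = (univ.filter (fun T : Finset γ => Valid L T ∧ S ⊂ T)) ∪
          (univ.filter (fun T : Finset γ => ¬ Valid L T ∧ S ⊂ T)) := by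
      ext T
      simp only [mem_filter, mem_univ, true_and, mem_union]
      tauto
    rw [e, sum_union]
    · rw [add_sub_cancel_left]
      apply Ideal.sum_mem
      intro T hT
      rw [mem_filter] at hT
      exact bI_le_annI L S (X_mem_of_not_valid hT.2.1)
    · rw [disjoint_left]
      intro T hT1 hT2
      rw [mem_filter] at hT1 hT2
      exact hT2.2.1 hT1.2.1
  have hw : ∀ T ∈ univ.filter (fun T : Finset γ => Valid L T ∧ S ⊂ T),
      (C (wt L ν m₀ T) * X T : MvPolynomial (Finset γ) ℚ) = C (wt L ν m₀ S) * X T +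
        ∑ A ∈ L.filter (fun A => ¬ A ⊆ S), if A ⊆ T then C (ν A) * X T else 0 := by
    intro T hT
    rw [mem_filter] at hT
    have h1 : wt L ν m₀ T = wt L ν m₀ S + ∑ A ∈ (L.filter (fun A => ¬ A ⊆ S)).filter
        (fun A => A ⊆ T), ν A := by
      unfold wt
      have e : blk L T = blk L S ∪ (L.filter (fun A => ¬ A ⊆ S)).filter (fun A => A ⊆ T) := by
        ext A
        simp only [mem_blk, mem_union, mem_filter]
        constructor
        · rintro ⟨h1, h2⟩
          by_cases h3 : A ⊆ S
          · exact Or.inl ⟨h1, h3⟩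
          · exact Or.inr ⟨⟨h1, h3⟩, h2⟩
        · rintro (h | h)
          · exact ⟨h.1, h.2.trans hT.2.2.subset⟩
          · exact ⟨h.1.1, h.2⟩
      rw [e, sum_union]
      · ring
      · rw [disjoint_left]
        intro A hA1 hA2
        rw [mem_filter, mem_filter] at hA2
        exact hA2.1.2 (mem_blk.mp hA1).2
    rw [h1, map_add, add_mul, map_sum, sum_mul, ← sum_filter]
  rw [sum_congr rfl hw, sum_add_distrib, ← mul_sum, sum_comm]
  have h2 : (∑ A ∈ L.filter (fun A => ¬ A ⊆ S), ∑ T ∈ univ.filter
      (fun T : Finset γ => Valid L T ∧ S ⊂ T), (if A ⊆ T then C (ν A) * X T else 0 :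
        MvPolynomial (Finset γ) ℚ)) ∈ annI L S := by
    apply Ideal.sum_mem
    intro A hA
    rw [mem_filter] at hA
    have h3 := sum_above_mem hS hA.1 hA.2 (hL.ne A hA.1)
    have h4 := Ideal.mul_mem_left _ (C (ν A)) h3
    convert h4 using 1
    rw [← sum_filter, filter_filter, mul_sum]
    apply sum_congr _ (fun _ _ => rfl)
    ext T
    simp only [mem_filter, mem_univ, true_and, and_assoc]
  have h5 := Ideal.mul_mem_left _ (C (wt L ν m₀ S)) hd
  have h6 := Ideal.sub_mem _ h2 h5
  convert h6 using 1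
  ring

/-- Telescoping product. -/
theorem inv_formula {L : Finset (Finset γ)} (hL : IsBlocks L) (h2 : 2 ≤ L.card)
    (ν : Finset γ → ℚ) (m₀ : ℚ) : ∀ (n : ℕ) (S : Finset γ), Valid L S →
    (U L).card - S.card = n →
    (∏ T ∈ univ.filter (fun T : Finset γ => Valid L T ∧ S ⊂ T), Fac T (wt L ν m₀ T))
      - (1 - C (wt L ν m₀ S) * dd S) ∈ annI L S := by
  intro n
  induction n using Nat.strong_induction_on with
  | _ n ih =>
    intro S hS hn
    -- telescoping over up-closed families
    have tele : ∀ (m : ℕ) (W : Finset (Finset γ)), W.card = m →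
        (∀ T ∈ W, Valid L T ∧ S ⊂ T) → (∀ T ∈ W, ∀ T', Valid L T' → T ⊂ T' → T' ∈ W) →
        (∏ T ∈ W, Fac T (wt L ν m₀ T)) - (1 - ∑ T ∈ W, C (wt L ν m₀ T) * X T) ∈ bI L := by
      intro m
      induction m with
      | zero =>
        intro W hW _ _
        rw [card_eq_zero] at hW
        rw [hW]
        simp
      | succ m ihm =>
        intro W hW hWv hWup
        obtain ⟨T, hTW, hTmin⟩ := exists_min_image W Finset.card
          (card_pos.mp (by omega))
        have hT := hWv T hTW
        have hW' : (W.erase T).card = m := by rw [card_erase_of_mem hTW]; omega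
        have hmin : ∀ T' ∈ W, ¬ T' ⊂ T := by
          intro T' hT' hlt
          have := card_lt_card hlt
          have := hTmin T' hT'
          omega
        have h1 := ihm (W.erase T) hW' (fun T' hT' => hWv T' (mem_of_mem_erase hT')) (by
          intro T' hT' T'' hv hlt
          refine mem_erase.mpr ⟨?_, hWup T' (mem_of_mem_erase hT') T'' hv hlt⟩
          rintro rfl
          exact hmin T' (mem_of_mem_erase hT') hlt)
        -- X T times the product over the rest
        have h3 : (∏ T' ∈ W.erase T, Fac T' (wt L ν m₀ T'))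
            - (1 - C (wt L ν m₀ T) * dd T) ∈ annI L T := by
          have hsub : univ.filter (fun T' : Finset γ => Valid L T' ∧ T ⊂ T') ⊆ W.erase T := by
            intro T' hT'
            rw [mem_filter] at hT'
            refine mem_erase.mpr ⟨?_, hWup T hTW T' hT'.2.1 hT'.2.2⟩
            rintro rfl
            exact hT'.2.2.2 (Subset.refl _)
          rw [← prod_sdiff hsub]
          have h4 : (∏ T' ∈ W.erase T \ univ.filter (fun T' : Finset γ => Valid L T' ∧ T ⊂ T'),
              Fac T' (wt L ν m₀ T')) - 1 ∈ annI L T := by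
            apply prod_sub_one_mem
            intro T' hT'
            rw [mem_sdiff, mem_filter, mem_erase] at hT'
            apply Fac_sub_one_mem_of_X
            apply X_mem_annI_of_not_compat
            have hT'v := hWv T' hT'.1.2
            rintro (h | h | h)
            · exact hT'.2 ⟨mem_univ _, hT'v.1, h.ssubset_of_ne hT'.1.1.symm⟩
            · exact hmin T' hT'.1.2 (h.ssubset_of_ne hT'.1.1)
            · obtain ⟨x, hx⟩ := hS.2.2.2
              exact disjoint_left.mp h (hT.2.subset hx) (hT'v.2.subset hx)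
          have h5 := ih ((U L).card - T.card) (by
            have h6 := card_lt_card hT.2
            have h7 := card_le_card hT.1.1
            omega) T hT.1 rfl
          have h6 := Ideal.mul_mem_right (∏ T' ∈ univ.filter
            (fun T' : Finset γ => Valid L T' ∧ T ⊂ T'), Fac T' (wt L ν m₀ T')) _ h4
          have h7 := Ideal.add_mem _ h6 h5
          convert h7 using 1
          ring
        rw [mem_annI] at h3
        rw [← mul_prod_erase W _ hTW, ← add_sum_erase W _ hTW]
        -- combine
        have h8 := Ideal.mul_mem_left (bI L)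
          (- (C (wt L ν m₀ T) * geo (C (wt L ν m₀ T) * dd T))) h3
        have h9 := Ideal.mul_mem_left (bI L) (C (wt L ν m₀ T) * X T)
          (pow_dd_mem hL h2 T (wt L ν m₀ T))
        have h10 := Ideal.add_mem _ (Ideal.add_mem _ h1 h8) h9
        convert h10 using 1
        conv_lhs => rw [Fac]
        linear_combination (-(C (wt L ν m₀ T) * X T)) * geo_mul (C (wt L ν m₀ T) * dd T)
    have h1 := bI_le_annI L S (tele _ (univ.filter (fun T : Finset γ => Valid L T ∧ S ⊂ T)) rfl
      (fun T hT => (mem_filter.mp hT).2) (by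
        intro T hT T' hv hlt
        rw [mem_filter] at hT
        exact mem_filter.mpr ⟨mem_univ _, hv, hT.2.2.trans hlt⟩))
    have h3 := wt_sum_mem hL hS ν m₀
    have h4 := Ideal.sub_mem _ h1 h3
    convert h4 using 1
    ring

end Pool.Agent.helper17
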