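import Pool.Agent.helper17.BlockTop

/-!
Degree functionals and their restrictions to the two factors of a boundary divisor.
-/

open Finset MvPolynomial

set_option linter.unusedSectionVars false

namespace Pool.Agent.helper17

variable {γ : Type*} [DecidableEq γ] [Fintype γ]

/-- A multiple `c` of the degree functional for the blocks `L`. -/
structure IsDeg (L : Finset (Finset γ)) (c : ℚ) (D : MvPolynomial (Finset γ) ℚ →ₗ[ℚ] ℚ) :
    Prop where
  kill : ∀ p ∈ bI L, D p = 0
  homog : ∀ (k : ℕ) (p : MvPolynomial (Finset γ) ℚ), p.IsHomogeneous k → k + 2 ≠ L.card → D p = 0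
  norm : D ((-X (U L)) ^ (L.card - 2)) = c

/-- The functional on the outer factor. -/
noncomputable def outD (L : Finset (Finset γ)) (S : Finset γ)
    (D : MvPolynomial (Finset γ) ℚ →ₗ[ℚ] ℚ) : MvPolynomial (Finset γ) ℚ →ₗ[ℚ] ℚ :=
  D ∘ₗ LinearMap.mulLeft ℚ (X S * (-cc S) ^ ((blk L S).card - 2)) ∘ₗ
    (kap (contr L S)).toLinearMap

theorem outD_apply (L : Finset (Finset γ)) (S : Finset γ)
    (D : MvPolynomial (Finset γ) ℚ →ₗ[ℚ] ℚ) (p : MvPolynomial (Finset γ) ℚ) :
    outD L S D p = D (X S * (-cc S) ^ ((blk L S).card - 2) * kap (contr L S) p) := rfl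

/-- The functional on the inner factor. -/
noncomputable def innD (L : Finset (Finset γ)) (S : Finset γ)
    (D : MvPolynomial (Finset γ) ℚ →ₗ[ℚ] ℚ) (p : MvPolynomial (Finset γ) ℚ) :
    MvPolynomial (Finset γ) ℚ →ₗ[ℚ] ℚ :=
  D ∘ₗ LinearMap.mulRight ℚ (kap (contr L S) p) ∘ₗ LinearMap.mulLeft ℚ (X S) ∘ₗ
    (iot S).toLinearMap

theorem innD_apply (L : Finset (Finset γ)) (S : Finset γ)
    (D : MvPolynomial (Finset γ) ℚ →ₗ[ℚ] ℚ) (p q : MvPolynomial (Finset γ) ℚ) :
    innD L S D p q = D (X S * iot S q * kap (contr L S) p) := rfl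

theorem isHomogeneous_cc (T : Finset γ) : (cc T).IsHomogeneous 1 := by
  unfold cc
  apply IsHomogeneous.sum
  intro T _
  exact isHomogeneous_X _ _

theorem isHomogeneous_dd (T : Finset γ) : (dd T).IsHomogeneous 1 := by
  unfold dd
  apply IsHomogeneous.sum
  intro T _
  exact isHomogeneous_X _ _

theorem isHomogeneous_kap (L : Finset (Finset γ)) {p : MvPolynomial (Finset γ) ℚ} {k : ℕ}
    (hp : p.IsHomogeneous k) : (kap L p).IsHomogeneous k := by
  have h1 : ∀ T : Finset γ, (if Valid L T then X T else 0 :
      MvPolynomial (Finset γ) ℚ).IsHomogeneous 1 := by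
    intro T
    split_ifs
    · exact isHomogeneous_X _ _
    · exact isHomogeneous_zero _ _ _
  have := hp.aeval _ h1
  rwa [one_mul] at this

theorem isHomogeneous_iot (S : Finset γ) {p : MvPolynomial (Finset γ) ℚ} {k : ℕ}
    (hp : p.IsHomogeneous k) : (iot S p).IsHomogeneous k := by
  have h1 : ∀ T : Finset γ, (if T ⊂ S then X T else if T = S then cc S else 0 :
      MvPolynomial (Finset γ) ℚ).IsHomogeneous 1 := by
    intro T
    split_ifs
    · exact isHomogeneous_X _ _
    · exact isHomogeneous_cc _
    · exact isHomogeneous_zero _ _ _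
  have := hp.aeval _ h1
  rwa [one_mul] at this

section

variable {L : Finset (Finset γ)} {S : Finset γ} (hL : IsBlocks L) (hS : Valid L S)
  (hSU : S ≠ U L) {c : ℚ} {D : MvPolynomial (Finset γ) ℚ →ₗ[ℚ] ℚ} (hD : IsDeg L c D)
include hL hS hSU hD

theorem isDeg_outD : IsDeg (contr L S) c (outD L S D) := by
  have hcc := card_contr hL hS
  have hk := hS.two_le
  have hc2 := card_contr_ge hL hS hSU
  refine ⟨?_, ?_, ?_⟩
  · intro p hp
    rw [outD_apply]
    apply hD.kill
    have := kap_kill hL hS hp
    rw [mem_annI] at this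
    have h2 := Ideal.mul_mem_left _ ((-cc S) ^ ((blk L S).card - 2)) this
    convert h2 using 1
    ring
  · intro k p hp hk'
    rw [outD_apply]
    have h1 : ((-cc S) ^ ((blk L S).card - 2) : MvPolynomial (Finset γ) ℚ).IsHomogeneous
        ((blk L S).card - 2) := by
      have := (isHomogeneous_cc S).neg.pow ((blk L S).card - 2)
      rwa [one_mul] at this
    refine hD.homog _ _ (((isHomogeneous_X _ S).mul h1).mul (isHomogeneous_kap (contr L S) hp)) ?_
    omega
  · rw [outD_apply, U_contr hL hS, map_pow, map_neg, kap_X_of_valid]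
    · obtain ⟨k, hk⟩ : ∃ k, (blk L S).card = k + 2 := ⟨(blk L S).card - 2, by omega⟩
      obtain ⟨e, he⟩ : ∃ e, (contr L S).card = e + 2 := ⟨(contr L S).card - 2, by omega⟩
      have h1 := norm_contr k L S hL hS hSU hk e (by omega)
      have h2 := hD.kill _ h1
      have hLc : L.card - 2 = e + k + 1 := by omega
      have h3 := hD.norm
      rw [hLc] at h3
      rw [map_sub, h3] at h2
      rw [hk, he, Nat.add_sub_cancel, Nat.add_sub_cancel]
      linarith
    · rw [← U_contr hL hS]
      exact valid_U (isBlocks_contr hL hS) hc2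

theorem isDeg_innD (p : MvPolynomial (Finset γ) ℚ) :
    IsDeg (blk L S) (outD L S D p) (innD L S D p) := by
  have hcc := card_contr hL hS
  have hk := hS.two_le
  have hc2 := card_contr_ge hL hS hSU
  have hbL := isBlocks_blk hL hS
  refine ⟨?_, ?_, ?_⟩
  · intro q hq
    rw [innD_apply]
    apply hD.kill
    have := iot_kill hL hS hq
    rw [mem_annI] at this
    exact Ideal.mul_mem_right _ _ this
  · intro k q hq hk'
    rw [innD_apply]
    by_cases hlt : (blk L S).card < k + 2
    · apply hD.kill
      have := iot_kill hL hS (top_mem hbL hk (by omega) hq)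
      rw [mem_annI] at this
      exact Ideal.mul_mem_right _ _ this
    · rw [← sum_homogeneousComponent p, map_sum, mul_sum, map_sum]
      apply sum_eq_zero
      intro l _
      have hl : (homogeneousComponent l p).IsHomogeneous l := homogeneousComponent_isHomogeneous _ _
      by_cases hl' : 1 + k + l + 2 = L.card
      · apply hD.kill
        have h1 := kap_kill hL hS (top_mem (isBlocks_contr hL hS) hc2 (d := l) (by omega) hl)
        rw [mem_annI] at h1
        have h2 := Ideal.mul_mem_left _ (iot S q) h1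
        convert h2 using 1
        ring
      · exact hD.homog _ _ (((isHomogeneous_X _ S).mul (isHomogeneous_iot S hq)).mul
          (isHomogeneous_kap (contr L S) hl)) hl'
  · rw [innD_apply, U_blk hS, map_pow, map_neg, iot_X_self, outD_apply]

end

end Pool.Agent.helper17
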