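import Pool.Agent.helper17.BlockRestr

/-!
Degrees of the explicit class on boundary strata.
-/

open Finset MvPolynomial

set_option linter.unusedSectionVars false

namespace Pool.Agent.helper17

variable {γ : Type*} [DecidableEq γ] [Fintype γ]

/-- Classes supported on `T` with small inner degree. -/
noncomputable def low (T : Finset γ) (m : ℕ) : Submodule ℚ (MvPolynomial (Finset γ) ℚ) :=
  Submodule.span ℚ {p | ∃ j < m, ∃ q ∈ outA T, p = X T * cc T ^ j * q}

theorem low_mono (T : Finset γ) {m m' : ℕ} (h : m ≤ m') : low T m ≤ low T m' := by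
  apply Submodule.span_mono
  rintro p ⟨j, hj, q, hq, rfl⟩
  exact ⟨j, by omega, q, hq, rfl⟩

theorem low_mul_out {T : Finset γ} {m : ℕ} {p q : MvPolynomial (Finset γ) ℚ} (hp : p ∈ low T m)
    (hq : q ∈ outA T) : p * q ∈ low T m := by
  unfold low at hp ⊢
  induction hp using Submodule.span_induction with
  | mem x hx =>
    obtain ⟨j, hj, q', hq', rfl⟩ := hx
    apply Submodule.subset_span
    exact ⟨j, hj, q' * q, Subalgebra.mul_mem _ hq' hq, by ring⟩
  | zero => rw [zero_mul]; exact Submodule.zero_mem _
  | add x y _ _ hx hy => rw [add_mul]; exact Submodule.add_mem _ hx hy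
  | smul c x _ hx => rw [smul_mul_assoc]; exact Submodule.smul_mem _ _ hx

theorem dd_self_mem_outA (T : Finset γ) : dd T ∈ outA T := dd_mem_outA' (fun h => h.2 (Subset.refl _))

theorem geo_dd_mem_outA (T : Finset γ) (f : ℚ) : geo (C f * dd T) ∈ outA T := by
  unfold geo
  apply Subalgebra.sum_mem
  intro i _
  apply Subalgebra.pow_mem
  exact Subalgebra.mul_mem _ (Subalgebra.algebraMap_mem _ f) (dd_self_mem_outA T)

theorem low_mul_Fac {T : Finset γ} {m : ℕ} {p : MvPolynomial (Finset γ) ℚ} (hp : p ∈ low T m)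
    (f : ℚ) : p * Fac T f ∈ low T (m + 1) := by
  unfold low at hp
  induction hp using Submodule.span_induction with
  | mem x hx =>
    obtain ⟨j, hj, q, hq, rfl⟩ := hx
    have hC : (C f : MvPolynomial (Finset γ) ℚ) ∈ outA T := Subalgebra.algebraMap_mem _ f
    have hg := geo_dd_mem_outA T f
    have h1 : X T * cc T ^ j * q ∈ low T (m + 1) :=
      Submodule.subset_span ⟨j, by omega, q, hq, rfl⟩
    have h2 : X T * cc T ^ (j + 1) * (C f * geo (C f * dd T) * q) ∈ low T (m + 1) :=
      Submodule.subset_span ⟨j + 1, by omega, _, Subalgebra.mul_mem _ (Subalgebra.mul_mem _ hC hg)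
        hq, rfl⟩
    have h3 : X T * cc T ^ j * (C f * dd T * geo (C f * dd T) * q) ∈ low T (m + 1) :=
      Submodule.subset_span ⟨j, by omega, _, Subalgebra.mul_mem _ (Subalgebra.mul_mem _
        (Subalgebra.mul_mem _ hC (dd_self_mem_outA T)) hg) hq, rfl⟩
    have h4 := Submodule.add_mem _ (Submodule.sub_mem _ h1 h2) h3
    convert h4 using 1
    have hX : (X T : MvPolynomial (Finset γ) ℚ) = cc T - dd T := by rw [cc_eq]; ring
    conv_lhs => rw [Fac]
    have h5 : C f * X T * geo (C f * dd T) = C f * cc T * geo (C f * dd T)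
        - C f * dd T * geo (C f * dd T) := by rw [hX]; ring
    rw [h5]
    ring
  | zero => rw [zero_mul]; exact Submodule.zero_mem _
  | add x y _ _ hx hy => rw [add_mul]; exact Submodule.add_mem _ hx hy
  | smul c x _ hx => rw [smul_mul_assoc]; exact Submodule.smul_mem _ _ hx

theorem prod_Fac_sub_one_mem (T : Finset γ) (f : ℕ → ℚ) (m : ℕ) :
    ∏ j ∈ range m, Fac T (f j) - 1 ∈ low T m := by
  induction m with
  | zero => simp
  | succ m ih =>
    rw [prod_range_succ]
    have h1 := low_mul_Fac ih (f m)
    have h2 : Fac T (f m) - 1 ∈ low T (m + 1) := by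
      have : X T * cc T ^ 0 * (-(C (f m) * geo (C (f m) * dd T))) ∈ low T (m + 1) := by
        refine Submodule.subset_span ⟨0, by omega, _, Subalgebra.neg_mem _
          (Subalgebra.mul_mem _ (Subalgebra.algebraMap_mem _ (f m)) (geo_dd_mem_outA T (f m))), rfl⟩
      convert this using 1
      unfold Fac
      ring
    have h3 := Submodule.add_mem _ h1 h2
    convert h3 using 1
    ring

section

variable {L : Finset (Finset γ)} (hL : IsBlocks L) (h2 : 2 ≤ L.card)
  {c : ℚ} {D : MvPolynomial (Finset γ) ℚ →ₗ[ℚ] ℚ} (hD : IsDeg L c D)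
include hL hD

theorem D_low_eq_zero {T : Finset γ} (hT : Valid L T) (hTU : T ≠ U L) {m : ℕ}
    (hm : m + 2 ≤ (blk L T).card) {p : MvPolynomial (Finset γ) ℚ} (hp : p ∈ low T m) :
    D p = 0 := by
  unfold low at hp
  induction hp using Submodule.span_induction with
  | mem x hx =>
    obtain ⟨j, hj, q, hq, rfl⟩ := hx
    have h1 := isDeg_innD hL hT hTU hD q
    have h3 := h1.homog j (X T ^ j) (by
      have := (isHomogeneous_X ℚ T).pow j
      rwa [one_mul] at this) (by omega)
    rw [innD_apply, map_pow, iot_X_self] at h3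
    have h4 := out_sub_mem hL hT hq
    rw [mem_annI] at h4
    have h5 := hD.kill _ (Ideal.mul_mem_left _ (cc T ^ j) h4)
    have h6 : cc T ^ j * (X T * (kap (contr L T) q - q))
        = X T * cc T ^ j * kap (contr L T) q - X T * cc T ^ j * q := by ring
    rw [h6, map_sub, h3, zero_sub, neg_eq_zero] at h5
    exact h5
  | zero => exact map_zero _
  | add x y _ _ hx hy => rw [map_add, hx, hy, add_zero]
  | smul c x _ hx => rw [map_smul, hx, smul_zero]

/-- Elimination of the inner factors. -/
theorem eliminate {y : MvPolynomial (Finset γ) ℚ} (hy : ∀ T, ¬ U L ⊆ T → y ∈ outA T) :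
    ∀ (n : ℕ) (W : Finset (Finset γ)), W.card = n → (∀ T ∈ W, Valid L T ∧ T ≠ U L) →
      D (y * ∏ T ∈ W, Phi L T) = D y := by
  intro n
  induction n with
  | zero =>
    intro W hW _
    rw [card_eq_zero] at hW
    rw [hW, prod_empty, mul_one]
  | succ n ih =>
    intro W hW hWv
    obtain ⟨T, hTW, hTmin⟩ := exists_min_image W Finset.card (card_pos.mp (by omega))
    obtain ⟨hT, hTU⟩ := hWv T hTW
    have hW' : (W.erase T).card = n := by rw [card_erase_of_mem hTW]; omega
    have h1 := ih (W.erase T) hW' (fun T' hT' => hWv T' (mem_of_mem_erase hT'))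
    rw [← mul_prod_erase W _ hTW]
    have hod : od L T ≤ (blk L T).card := card_filter_le _ _
    have hk := hT.two_le
    have h3 : Phi L T - 1 ∈ low T ((od L T - 1) / 2) := by
      unfold Phi
      exact prod_Fac_sub_one_mem T _ _
    have h4 : (∏ T' ∈ W.erase T, Phi L T') ∈ outA T := by
      apply Subalgebra.prod_mem
      intro T' hT'
      apply Phi_mem_outA
      intro hsub
      have hne := (mem_erase.mp hT').1
      have := card_lt_card (hsub.ssubset_of_ne hne)
      have := hTmin T' (mem_of_mem_erase hT')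
      omega
    have h5 : ¬ U L ⊆ T := fun h => hTU (hT.1.antisymm h)
    have h6 := D_low_eq_zero hL hD hT hTU (m := (od L T - 1) / 2) (by omega)
      (low_mul_out (low_mul_out h3 h4) (hy T h5))
    have h7 : y * (Phi L T * ∏ T' ∈ W.erase T, Phi L T')
        = (Phi L T - 1) * (∏ T' ∈ W.erase T, Phi L T') * y + y * ∏ T' ∈ W.erase T, Phi L T' := by
      ring
    rw [h7, map_add, h6, zero_add, h1]

/-- Degree of a power of the root class times a product of linear factors. -/
theorem D_linear_prod (a : ℕ) (ha : a + 2 ≤ L.card) (f : ℕ → ℚ) (m : ℕ) :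
    D ((-X (U L)) ^ a * ∏ j ∈ range m, (1 - C (f j) * X (U L)))
      = c * ∑ t ∈ powersetCard (L.card - 2 - a) (range m), ∏ j ∈ t, f j := by
  have h1 : ∀ j, (1 - C (f j) * X (U L) : MvPolynomial (Finset γ) ℚ)
      = 1 + C (f j) * (-X (U L)) := fun j => by ring
  rw [prod_congr rfl (fun j _ => h1 j), prod_one_add, mul_sum, map_sum]
  have h3 : ∀ t ∈ (range m).powerset, D ((-X (U L)) ^ a * ∏ j ∈ t, C (f j) * (-X (U L)))
      = if t.card = L.card - 2 - a then c * ∏ j ∈ t, f j else 0 := by
    intro t _
    have h4 : ((-X (U L)) ^ a * ∏ j ∈ t, C (f j) * (-X (U L)) : MvPolynomial (Finset γ) ℚ)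
        = (∏ j ∈ t, f j) • (-X (U L)) ^ (a + t.card) := by
      rw [prod_mul_distrib, prod_const, ← map_prod, smul_eq_C_mul, pow_add]
      ring
    rw [h4, map_smul, smul_eq_mul]
    split_ifs with h5
    · have h6 : a + t.card = L.card - 2 := by omega
      rw [h6, hD.norm, mul_comm]
    · have h6 : ((-X (U L)) ^ (a + t.card) : MvPolynomial (Finset γ) ℚ).IsHomogeneous
          (a + t.card) := by
        have := (isHomogeneous_X ℚ (U L)).neg.pow (a + t.card)
        rwa [one_mul] at this
      rw [hD.homog _ _ h6 (by omega), mul_zero]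
  rw [sum_congr rfl h3, ← sum_filter, mul_sum]
  apply sum_congr _ (fun _ _ => rfl)
  ext t
  rw [mem_filter, mem_powerset, mem_powersetCard]

include h2 in
/-- Degree of the explicit class at a single vertex. -/
theorem D_psi_cls (a : ℕ) (ha : a + 2 ≤ L.card) :
    D ((-X (U L)) ^ a * cls L) = c * ∑ t ∈ powersetCard (L.card - 2 - a)
      (range ((od L (U L) - 1) / 2)), ∏ j ∈ t, ((od L (U L) : ℚ) / 2 - 1 - j) := by
  have hUv := valid_U hL h2
  have hne : (U L).Nonempty := hUv.2.2.2
  have e : cls L = Phi L (U L) * ∏ T ∈ (univ.filter (fun T : Finset γ => Valid L T)).erase (U L),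
      Phi L T := by
    unfold cls
    rw [mul_prod_erase _ _ (mem_filter.mpr ⟨mem_univ _, hUv⟩)]
  rw [e, ← mul_assoc, eliminate hL hD _ _ _ rfl]
  · -- evaluate
    have hdd : dd (U L) ∈ bI L := by
      unfold dd
      apply Ideal.sum_mem
      intro T hT
      rw [mem_filter] at hT
      apply X_mem_of_not_valid
      intro hv
      exact hT.2.2 hv.1
    have h3 : Phi L (U L) - ∏ j ∈ range ((od L (U L) - 1) / 2),
        (1 - C ((od L (U L) : ℚ) / 2 - 1 - j) * X (U L)) ∈ bI L := by
      unfold Phi
      apply prod_sub_prod_mem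
      intro j _
      set f := (od L (U L) : ℚ) / 2 - 1 - j
      obtain ⟨r, hr⟩ := geo_sub_one (C f * dd (U L))
      have h4 := Ideal.mul_mem_left _ (-(C f * X (U L) * (C f * r))) hdd
      convert h4 using 1
      unfold Fac
      linear_combination (-(C f * X (U L))) * hr
    have h5 := hD.kill _ (Ideal.mul_mem_left _ ((-X (U L)) ^ a) h3)
    rw [mul_sub, map_sub, sub_eq_zero] at h5
    rw [h5]
    exact D_linear_prod hL hD a ha (fun j => (od L (U L) : ℚ) / 2 - 1 - j) _
  · intro T hT
    rw [mem_erase, mem_filter] at hT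
    exact ⟨hT.2.2, hT.1⟩
  · intro T hT
    apply Subalgebra.mul_mem
    · exact Subalgebra.pow_mem _ (Subalgebra.neg_mem _ (X_mem_outA hT)) _
    · exact Phi_mem_outA L hT

/-- Vertex weight. -/
def wv (P : Finset (Finset γ)) : ℚ :=
  if P.card = 2 then 1 else if P.card = 3 ∧ ∀ C ∈ P, Odd C.card then 1 / 2 else 0

include h2 in
theorem D_cls : D (cls L) = c * wv L := by
  have h1 := D_psi_cls hL h2 hD 0 (by omega)
  rw [pow_zero, one_mul, Nat.sub_zero] at h1
  rw [h1]
  congr 1
  have hod : od L (U L) = (L.filter (fun A => Odd A.card)).card := by unfold od; rw [blk_U]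
  have hle : (L.filter (fun A => Odd A.card)).card ≤ L.card := card_filter_le _ _
  unfold wv
  by_cases hc2 : L.card = 2
  · rw [if_pos hc2, hc2]
    simp
  · rw [if_neg hc2]
    by_cases hc3 : L.card = 3
    · rw [hc3]
      by_cases ho : ∀ C ∈ L, Odd C.card
      · rw [if_pos ⟨rfl, ho⟩]
        have : od L (U L) = 3 := by rw [hod, filter_true_of_mem ho, hc3]
        rw [this]
        norm_num
        rw [powersetCard_one]
        simp
      · rw [if_neg (fun h => ho h.2)]
        have : od L (U L) < 3 := by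
          rw [hod]
          by_contra hge
          apply ho
          have h3 : L.filter (fun A => Odd A.card) = L :=
            eq_of_subset_of_card_le (filter_subset _ _) (by omega)
          intro C hC
          rw [← h3, mem_filter] at hC
          exact hC.2
        have h4 : (od L (U L) - 1) / 2 = 0 := by omega
        rw [h4, range_zero]
        rfl
    · rw [if_neg (fun h => hc3 h.1)]
      rw [powersetCard_eq_empty.mpr, sum_empty]
      rw [card_range, hod]
      omega

end

/-! ### Main induction over nested families -/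

/-- A nested family relative to the blocks `L`. -/
structure NestedL (L : Finset (Finset γ)) (F : Finset (Finset γ)) : Prop where
  valid : ∀ S ∈ F, Valid L S
  ne : ∀ S ∈ F, S ≠ U L
  compat : ∀ S ∈ F, ∀ T ∈ F, Compat S T

/-- Children of a vertex. -/
def childL (L F : Finset (Finset γ)) (V : Finset γ) : Finset (Finset γ) :=
  univ.filter (fun C : Finset γ => (C ∈ F ∨ C ∈ L) ∧ C ⊂ V ∧ ∀ T ∈ F, C ⊂ T → ¬ T ⊂ V)

theorem mem_childL {L F : Finset (Finset γ)} {V C : Finset γ} :
    C ∈ childL L F V ↔ (C ∈ F ∨ C ∈ L) ∧ C ⊂ V ∧ ∀ T ∈ F, C ⊂ T → ¬ T ⊂ V := by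
  simp [childL]

theorem childL_empty {L : Finset (Finset γ)} (hL : IsBlocks L) (h2 : 2 ≤ L.card) :
    childL L ∅ (U L) = L := by
  ext C
  rw [mem_childL]
  constructor
  · rintro ⟨h | h, _⟩
    · exact absurd h (notMem_empty _)
    · exact h
  · intro hC
    refine ⟨Or.inr hC, (subset_U hC).ssubset_of_ne ?_, fun T hT => absurd hT (notMem_empty _)⟩
    rintro rfl
    exact (valid_U hL h2).2.2.1 hC

section

variable {L F : Finset (Finset γ)} {S : Finset γ} (hL : IsBlocks L) (hF : NestedL L F)
  (hSF : S ∈ F) (hmin : ∀ T ∈ F, ¬ T ⊂ S)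
include hL hF hSF hmin

theorem nestedL_erase : NestedL (contr L S) (F.erase S) := by
  have hS := hF.valid S hSF
  refine ⟨?_, ?_, ?_⟩
  · intro T hT
    rw [mem_erase] at hT
    rw [valid_contr hL hS]
    refine ⟨hF.valid T hT.2, ?_⟩
    rcases hF.compat S hSF T hT.2 with h | h | h
    · exact Or.inl (h.ssubset_of_ne hT.1.symm)
    · exact absurd (h.ssubset_of_ne hT.1) (hmin T hT.2)
    · exact Or.inr h
  · intro T hT
    rw [U_contr hL hS]
    exact hF.ne T (mem_of_mem_erase hT)
  · intro T hT T' hT'
    exact hF.compat T (mem_of_mem_erase hT) T' (mem_of_mem_erase hT')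

theorem childL_self : childL L F S = blk L S := by
  have hS := hF.valid S hSF
  ext C
  rw [mem_childL, mem_blk]
  constructor
  · rintro ⟨h | h, h2, _⟩
    · exact absurd h2 (hmin C h)
    · exact ⟨h, h2.subset⟩
  · rintro ⟨h1, h2⟩
    refine ⟨Or.inr h1, h2.ssubset_of_ne ?_, fun T hT _ => hmin T hT⟩
    rintro rfl
    exact hS.2.2.1 h1

theorem childL_contr {V : Finset γ} (hV : V ∈ insert (U L) (F.erase S)) :
    childL (contr L S) (F.erase S) V = childL L F V := by
  have hS := hF.valid S hSF
  have hVS : ¬ V ⊆ S := by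
    rw [mem_insert] at hV
    rcases hV with h | h
    · rw [h]; intro h'; exact hF.ne S hSF (hS.1.antisymm h')
    · rw [mem_erase] at h
      intro h'
      exact hmin V h.2 (h'.ssubset_of_ne h.1)
  have hSV : Compat S V := by
    rw [mem_insert] at hV
    rcases hV with h | h
    · rw [h]; exact Or.inl hS.1
    · exact hF.compat S hSF V (mem_of_mem_erase h)
  ext C
  rw [mem_childL, mem_childL, mem_contr, mem_erase]
  constructor
  · rintro ⟨h1, h2, h3⟩
    refine ⟨?_, h2, ?_⟩
    · rcases h1 with h1 | h1 | h1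
      · exact Or.inl h1.2
      · exact Or.inl (h1 ▸ hSF)
      · exact Or.inr h1.1
    · intro T hT hCT
      by_cases hTS : T = S
      · exfalso
        rw [hTS] at hCT
        rcases h1 with h1 | h1 | h1
        · exact hmin C h1.2 hCT
        · exact hCT.2 (by rw [h1])
        · exact h1.2 hCT.subset
      · exact h3 T (mem_erase.mpr ⟨hTS, hT⟩) hCT
  · rintro ⟨h1, h2, h3⟩
    refine ⟨?_, h2, fun T hT => h3 T (mem_of_mem_erase hT)⟩
    rcases h1 with h1 | h1
    · by_cases hCS : C = S
      · exact Or.inr (Or.inl hCS)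
      · exact Or.inl ⟨hCS, h1⟩
    · refine Or.inr (Or.inr ⟨h1, ?_⟩)
      intro hCS
      have hCS' : C ⊂ S := hCS.ssubset_of_ne (by rintro rfl; exact hS.2.2.1 h1)
      apply h3 S hSF hCS'
      rcases hSV with h | h | h
      · exact ⟨h, hVS⟩
      · exact absurd h hVS
      · obtain ⟨x, hx⟩ := hL.ne C h1
        exact absurd (h2.subset hx) (disjoint_left.mp h (hCS hx))

end

/-- Degrees of the explicit class on all strata. -/
theorem D_strat_cls : ∀ (n : ℕ) (F : Finset (Finset γ)), F.card = n →
    ∀ (L : Finset (Finset γ)), IsBlocks L → 2 ≤ L.card → NestedL L F →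
    ∀ (c : ℚ) (D : MvPolynomial (Finset γ) ℚ →ₗ[ℚ] ℚ), IsDeg L c D →
    D ((∏ S ∈ F, X S) * cls L) = c * ∏ V ∈ insert (U L) F, wv (childL L F V) := by
  intro n
  induction n with
  | zero =>
    intro F hFn L hL h2 hF c D hD
    rw [card_eq_zero] at hFn
    rw [hFn, prod_empty, one_mul, D_cls hL h2 hD, insert_empty_eq, prod_singleton,
      childL_empty hL h2]
  | succ n ih =>
    intro F hFn L hL h2 hF c D hD
    obtain ⟨S, hSF, hSmin⟩ := exists_min_image F Finset.card (card_pos.mp (by omega))
    have hmin : ∀ T ∈ F, ¬ T ⊂ S := by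
      intro T hT hlt
      have := card_lt_card hlt
      have := hSmin T hT
      omega
    have hS := hF.valid S hSF
    have hSU := hF.ne S hSF
    have hFc : (F.erase S).card = n := by rw [card_erase_of_mem hSF]; omega
    have hLc := isBlocks_contr hL hS
    have hc2 := card_contr_ge hL hS hSU
    have hF' := nestedL_erase hL hF hSF hmin
    have hDo := isDeg_outD hL hS hSU hD
    have h3 := ih (F.erase S) hFc (contr L S) hLc hc2 hF' c _ hDo
    have h3' : ∏ V ∈ insert (U L) (F.erase S), wv (childL (contr L S) (F.erase S) V)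
        = ∏ V ∈ insert (U L) (F.erase S), wv (childL L F V) := by
      apply prod_congr rfl
      intro V hV
      rw [childL_contr hL hF hSF hmin hV]
    rw [U_contr hL hS, h3'] at h3
    set P := ∏ T ∈ F.erase S, (X T : MvPolynomial (Finset γ) ℚ) with hP
    have hDi := isDeg_innD hL hS hSU hD (P * cls (contr L S))
    have h4 := D_cls (isBlocks_blk hL hS) hS.two_le hDi
    rw [innD_apply, h3] at h4
    -- the restriction formula
    have h5 := cls_restrict hL hS h2
    have hPout : P ∈ outA S := by
      apply Subalgebra.prod_mem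
      intro T hT
      rw [mem_erase] at hT
      apply X_mem_outA
      intro h
      exact hmin T hT.2 (h.ssubset_of_ne hT.1)
    have h6 := out_sub_mem hL hS hPout
    rw [mem_annI] at h5 h6
    have h7 := hD.kill _ (Ideal.mul_mem_left _ P h5)
    have h8 := hD.kill _ (Ideal.mul_mem_left _
      (iot S (cls (blk L S)) * kap (contr L S) (cls (contr L S))) h6)
    have e : (∏ T ∈ F, (X T : MvPolynomial (Finset γ) ℚ)) * cls L
        = X S * iot S (cls (blk L S)) * kap (contr L S) (P * cls (contr L S))
          + P * (X S * (cls L - iot S (cls (blk L S)) * kap (contr L S) (cls (contr L S))))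
          - (iot S (cls (blk L S)) * kap (contr L S) (cls (contr L S))) *
            (X S * (kap (contr L S) P - P)) := by
      rw [← mul_prod_erase F _ hSF, map_mul, ← hP]
      ring
    rw [e, map_sub, map_add, h7, h8, add_zero, sub_zero, h4]
    have e2 : insert (U L) F = insert S (insert (U L) (F.erase S)) := by
      rw [Finset.insert_comm, insert_erase hSF]
    have e3 : S ∉ insert (U L) (F.erase S) := by
      rw [mem_insert, not_or]
      exact ⟨hSU, notMem_erase S F⟩
    rw [e2, prod_insert e3, childL_self hL hF hSF hmin]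
    ring

end Pool.Agent.helper17
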