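import Pool.Agent.helper17.Blocks

/-!
Restriction of classes to a boundary divisor: the inner and the outer maps.
-/

open Finset MvPolynomial

set_option linter.unusedSectionVars false

namespace Pool.Agent.helper17

variable {γ : Type*} [DecidableEq γ] [Fintype γ]

/-- Sum of all variables above `T`. -/
noncomputable def cc (T : Finset γ) : MvPolynomial (Finset γ) ℚ :=
  ∑ T' ∈ univ.filter (fun T' : Finset γ => T ⊆ T'), X T'

/-- Sum of all variables strictly above `T`. -/
noncomputable def dd (T : Finset γ) : MvPolynomial (Finset γ) ℚ :=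
  ∑ T' ∈ univ.filter (fun T' : Finset γ => T ⊂ T'), X T'

theorem cc_eq (T : Finset γ) : cc T = X T + dd T := by
  unfold cc dd
  have h : univ.filter (fun T' : Finset γ => T ⊆ T')
      = insert T (univ.filter (fun T' : Finset γ => T ⊂ T')) := by
    ext T'
    simp only [mem_filter, mem_univ, true_and, mem_insert]
    constructor
    · intro h
      rcases eq_or_ssubset_of_subset h with h | h
      · exact Or.inl h.symm
      · exact Or.inr h
    · rintro (h | h)
      · rw [h]
      · exact h.subset
  rw [h, sum_insert (by simp)]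

/-- The annihilator of `X S` modulo the ideal. -/
noncomputable def annI (L : Finset (Finset γ)) (S : Finset γ) :
    Ideal (MvPolynomial (Finset γ) ℚ) where
  carrier := {p | X S * p ∈ bI L}
  add_mem' := by
    intro a b ha hb
    simp only [Set.mem_ofPred_eq] at ha hb ⊢
    rw [mul_add]; exact Ideal.add_mem _ ha hb
  zero_mem' := by simp
  smul_mem' := by
    intro c x hx
    simp only [Set.mem_ofPred_eq, smul_eq_mul] at hx ⊢
    rw [mul_left_comm]; exact Ideal.mul_mem_left _ _ hx

theorem mem_annI {L : Finset (Finset γ)} {S : Finset γ} {p : MvPolynomial (Finset γ) ℚ} :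
    p ∈ annI L S ↔ X S * p ∈ bI L := Iff.rfl

theorem bI_le_annI (L : Finset (Finset γ)) (S : Finset γ) : bI L ≤ annI L S :=
  fun _ hp => Ideal.mul_mem_left _ _ hp

theorem X_mem_annI_of_not_compat (L : Finset (Finset γ)) {S T : Finset γ} (h : ¬ Compat S T) :
    X T ∈ annI L S := XX_mem_of_not_compat L h

/-- Keep the variables which are valid for `L`. -/
noncomputable def kap (L : Finset (Finset γ)) :
    MvPolynomial (Finset γ) ℚ →ₐ[ℚ] MvPolynomial (Finset γ) ℚ :=
  aeval (fun T => if Valid L T then X T else 0)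

/-- Inner map. -/
noncomputable def iot (S : Finset γ) :
    MvPolynomial (Finset γ) ℚ →ₐ[ℚ] MvPolynomial (Finset γ) ℚ :=
  aeval (fun T => if T ⊂ S then X T else if T = S then cc S else 0)

theorem kap_X (L : Finset (Finset γ)) (T : Finset γ) :
    kap L (X T) = if Valid L T then X T else 0 := by simp [kap]

theorem kap_X_of_valid {L : Finset (Finset γ)} {T : Finset γ} (h : Valid L T) :
    kap L (X T) = X T := by rw [kap_X, if_pos h]

theorem iot_X (S T : Finset γ) :
    iot S (X T) = if T ⊂ S then X T else if T = S then cc S else 0 := by simp [iot]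

theorem iot_X_self (S : Finset γ) : iot S (X S) = cc S := by
  rw [iot_X, if_neg (fun h => h.2 (Subset.refl _)), if_pos rfl]

theorem iot_X_of_ssubset {S T : Finset γ} (h : T ⊂ S) : iot S (X T) = X T := by
  rw [iot_X, if_pos h]

theorem iot_X_of_not_subset {S T : Finset γ} (h : ¬ T ⊆ S) : iot S (X T) = 0 := by
  rw [iot_X, if_neg (fun h' : T ⊂ S => h h'.subset), if_neg (fun h' : T = S => h (Eq.subset h'))]

section

variable {L : Finset (Finset γ)} {S : Finset γ} (hL : IsBlocks L) (hS : Valid L S)
include hL hS

/-- A variable that is not inside `S` and not valid for the contraction is killed by `X S`. -/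
theorem X_mem_annI_of_not_valid_contr {T : Finset γ} (hT : ¬ Valid (contr L S) T)
    (hTS : ¬ T ⊆ S) : X T ∈ annI L S := by
  by_cases hv : Valid L T
  · have : ¬ (S ⊂ T ∨ Disjoint S T) := fun h => hT ((valid_contr hL hS).mpr ⟨hv, h⟩)
    apply X_mem_annI_of_not_compat
    rintro (h | h | h)
    · rcases eq_or_ssubset_of_subset h with h' | h'
      · exact hTS h'.symm.subset
      · exact this (Or.inl h')
    · exact hTS h
    · exact this (Or.inr h)
  · exact bI_le_annI L S (X_mem_of_not_valid hv)

theorem kap_sub_mem {p : MvPolynomial (Finset γ) ℚ}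
    (hp : p ∈ Algebra.adjoin ℚ {q : MvPolynomial (Finset γ) ℚ | ∃ T, ¬ T ⊆ S ∧ q = X T}) :
    kap (contr L S) p - p ∈ annI L S := by
  induction hp using Algebra.adjoin_induction with
  | mem x hx =>
    obtain ⟨T, hT, rfl⟩ := hx
    rw [kap_X]
    split_ifs with h
    · rw [sub_self]; exact Ideal.zero_mem _
    · rw [zero_sub]
      exact (Ideal.neg_mem_iff _).mpr (X_mem_annI_of_not_valid_contr hL hS h hT)
  | algebraMap r =>
    rw [AlgHom.commutes, sub_self]; exact Ideal.zero_mem _
  | add x y _ _ hx hy =>
    rw [map_add]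
    have := Ideal.add_mem _ hx hy
    convert this using 1
    ring
  | mul x y _ _ hx hy =>
    rw [map_mul]
    have h1 := Ideal.mul_mem_left _ (kap (contr L S) x) hy
    have h2 := Ideal.mul_mem_left _ y hx
    have := Ideal.add_mem _ h1 h2
    convert this using 1
    ring

theorem lin_mem' {a b : γ} {A B : Finset γ} (hA : A ∈ contr L S) (hB : B ∈ contr L S)
    (hne : A ≠ B) (ha : a ∈ A) (hb : b ∈ B) :
    (∑ T ∈ univ.filter (fun T : Finset γ => a ∈ T ∧ b ∈ T), X T : MvPolynomial (Finset γ) ℚ)
      ∈ bI L := by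
  have hUa : a ∈ U L := by rw [← U_contr hL hS]; exact subset_U hA ha
  have hUb : b ∈ U L := by rw [← U_contr hL hS]; exact subset_U hB hb
  obtain ⟨A', hA', haA'⟩ := mem_U.mp hUa
  obtain ⟨B', hB', hbB'⟩ := mem_U.mp hUb
  refine lin_mem hA' hB' ?_ haA' hbB'
  rintro rfl
  have hLc := isBlocks_contr hL hS
  have hdisj := hLc.disj A hA B hB hne
  by_cases h : A' ⊆ S
  · have h1 : A = S := by
      by_contra h1
      exact disjoint_left.mp (hLc.disj A hA S (mem_contr.mpr (Or.inl rfl)) h1) ha (h haA')
    have h2 : B = S := by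
      by_contra h2
      exact disjoint_left.mp (hLc.disj B hB S (mem_contr.mpr (Or.inl rfl)) h2) hb (h hbB')
    exact hne (h1.trans h2.symm)
  · have hAc : A' ∈ contr L S := mem_contr.mpr (Or.inr ⟨hA', h⟩)
    have h1 : A = A' := by
      by_contra h1
      exact disjoint_left.mp (hLc.disj A hA A' hAc h1) ha haA'
    have h2 : B = A' := by
      by_contra h2
      exact disjoint_left.mp (hLc.disj B hB A' hAc h2) hb hbB'
    exact hne (h1.trans h2.symm)

theorem kap_kill {p : MvPolynomial (Finset γ) ℚ} (hp : p ∈ bI (contr L S)) :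
    kap (contr L S) p ∈ annI L S := by
  have hle : bI (contr L S) ≤ (annI L S).comap (kap (contr L S)) := by
    unfold bI
    rw [Ideal.span_le]
    rintro q ((⟨T, hT, rfl⟩ | ⟨T₁, T₂, hT, rfl⟩) | ⟨A, hA, B, hB, a, ha, b, hb, hne, rfl⟩)
    · simp only [SetLike.mem_coe, Ideal.mem_comap]
      rw [kap_X, if_neg hT]; exact Ideal.zero_mem _
    · simp only [SetLike.mem_coe, Ideal.mem_comap]
      rw [map_mul, kap_X, kap_X]
      split_ifs
      · exact bI_le_annI L S (XX_mem_of_not_compat L hT)
      · rw [mul_zero]; exact Ideal.zero_mem _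
      · rw [zero_mul]; exact Ideal.zero_mem _
      · rw [mul_zero]; exact Ideal.zero_mem _
    · simp only [SetLike.mem_coe, Ideal.mem_comap]
      have hp : (∑ T ∈ univ.filter (fun T : Finset γ => a ∈ T ∧ b ∈ T), X T :
          MvPolynomial (Finset γ) ℚ) ∈
          Algebra.adjoin ℚ {q : MvPolynomial (Finset γ) ℚ | ∃ T, ¬ T ⊆ S ∧ q = X T} := by
        apply Subalgebra.sum_mem
        intro T hT
        apply Algebra.subset_adjoin
        refine ⟨T, ?_, rfl⟩
        rw [mem_filter] at hT
        intro hTS
        have hLc := isBlocks_contr hL hS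
        have h1 : A = S := by
          by_contra h1
          exact disjoint_left.mp (hLc.disj A hA S (mem_contr.mpr (Or.inl rfl)) h1) ha (hTS hT.2.1)
        have h2 : B = S := by
          by_contra h2
          exact disjoint_left.mp (hLc.disj B hB S (mem_contr.mpr (Or.inl rfl)) h2) hb (hTS hT.2.2)
        exact hne (h1.trans h2.symm)
      have h1 := kap_sub_mem hL hS hp
      have h2 := bI_le_annI L S (lin_mem' hL hS hA hB hne ha hb)
      have := Ideal.add_mem _ h1 h2
      convert this using 1
      ring
  exact hle hp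

theorem valid_blk {T : Finset γ} : Valid (blk L S) T ↔ Valid L T ∧ T ⊆ S := by
  have hU : U (blk L S) = S := hS.eq_biUnion
  constructor
  · rintro ⟨h1, h2, h3, h4⟩
    rw [hU] at h1
    refine ⟨⟨h1.trans hS.1, ?_, ?_, h4⟩, h1⟩
    · intro A hA
      by_cases hAS : A ⊆ S
      · exact h2 A (mem_blk.mpr ⟨hA, hAS⟩)
      · rcases hS.2.1 A hA with h | h
        · exact absurd h hAS
        · exact Or.inr (disjoint_of_subset_right h1 h)
    · intro hT
      exact h3 (mem_blk.mpr ⟨hT, h1⟩)
  · rintro ⟨⟨h1, h2, h3, h4⟩, h5⟩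
    refine ⟨by rwa [hU], ?_, ?_, h4⟩
    · intro A hA
      exact h2 A (mem_blk.mp hA).1
    · intro hT
      exact h3 (mem_blk.mp hT).1

theorem isBlocks_blk : IsBlocks (blk L S) :=
  ⟨fun A hA => hL.ne A (mem_blk.mp hA).1,
   fun A hA B hB h => hL.disj A (mem_blk.mp hA).1 B (mem_blk.mp hB).1 h⟩

omit hL in
theorem U_blk : U (blk L S) = S := hS.eq_biUnion

theorem iot_kill {p : MvPolynomial (Finset γ) ℚ} (hp : p ∈ bI (blk L S)) :
    iot S p ∈ annI L S := by
  have hle : bI (blk L S) ≤ (annI L S).comap (iot S) := by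
    unfold bI
    rw [Ideal.span_le]
    rintro q ((⟨T, hT, rfl⟩ | ⟨T₁, T₂, hT, rfl⟩) | ⟨A, hA, B, hB, a, ha, b, hb, hne, rfl⟩)
    · simp only [SetLike.mem_coe, Ideal.mem_comap]
      rw [iot_X]
      split_ifs with h1 h2
      · apply bI_le_annI L S
        apply X_mem_of_not_valid
        intro hv
        exact hT ((valid_blk hL hS).mpr ⟨hv, h1.subset⟩)
      · exact absurd ((valid_blk hL hS).mpr ⟨h2 ▸ hS, h2.subset⟩) hT
      · exact Ideal.zero_mem _
    · simp only [SetLike.mem_coe, Ideal.mem_comap]
      rw [map_mul]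
      by_cases h1 : T₁ ⊂ S
      · by_cases h2 : T₂ ⊂ S
        · rw [iot_X_of_ssubset h1, iot_X_of_ssubset h2]
          exact bI_le_annI L S (XX_mem_of_not_compat L hT)
        · by_cases h3 : T₂ = S
          · exact absurd (Or.inl (by rw [h3]; exact h1.subset)) hT
          · have : ¬ T₂ ⊆ S := fun h => h2 (h.ssubset_of_ne h3)
            rw [iot_X_of_not_subset this, mul_zero]; exact Ideal.zero_mem _
      · by_cases h3 : T₁ = S
        · have : ¬ T₂ ⊆ S := fun h => hT (Or.inr (Or.inl (by rw [h3]; exact h)))
          rw [iot_X_of_not_subset this, mul_zero]; exact Ideal.zero_mem _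
        · have : ¬ T₁ ⊆ S := fun h => h1 (h.ssubset_of_ne h3)
          rw [iot_X_of_not_subset this, zero_mul]; exact Ideal.zero_mem _
    · simp only [SetLike.mem_coe, Ideal.mem_comap]
      have hAL := mem_blk.mp hA
      have hBL := mem_blk.mp hB
      have hlin := bI_le_annI L S (lin_mem hAL.1 hBL.1 hne ha hb)
      have haS := hAL.2 ha
      have hbS := hBL.2 hb
      -- split the full sum
      have h1 : iot S (∑ T ∈ univ.filter (fun T : Finset γ => a ∈ T ∧ b ∈ T), X T)
          = (∑ T ∈ univ.filter (fun T : Finset γ => a ∈ T ∧ b ∈ T ∧ T ⊂ S), X T) + cc S := by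
        rw [map_sum]
        have e : univ.filter (fun T : Finset γ => a ∈ T ∧ b ∈ T)
            = (univ.filter (fun T : Finset γ => a ∈ T ∧ b ∈ T ∧ T ⊂ S)) ∪
              ({S} ∪ univ.filter (fun T : Finset γ => a ∈ T ∧ b ∈ T ∧ ¬ T ⊆ S)) := by
          ext T
          simp only [mem_filter, mem_univ, true_and, mem_union, mem_singleton]
          constructor
          · rintro ⟨h1, h2⟩
            by_cases h3 : T ⊆ S
            · rcases eq_or_ssubset_of_subset h3 with h | h
              · exact Or.inr (Or.inl h)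
              · exact Or.inl ⟨h1, h2, h⟩
            · exact Or.inr (Or.inr ⟨h1, h2, h3⟩)
          · rintro (h | h | h)
            · exact ⟨h.1, h.2.1⟩
            · rw [h]; exact ⟨haS, hbS⟩
            · exact ⟨h.1, h.2.1⟩
        rw [e, sum_union, sum_union, sum_singleton, iot_X_self]
        · congr 1
          · apply sum_congr rfl
            intro T hT
            rw [mem_filter] at hT
            exact iot_X_of_ssubset hT.2.2.2
          · rw [add_eq_left]
            apply sum_eq_zero
            intro T hT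
            rw [mem_filter] at hT
            exact iot_X_of_not_subset hT.2.2.2
        · rw [disjoint_left]
          intro T hT1 hT2
          rw [mem_singleton] at hT1
          rw [mem_filter] at hT2
          exact hT2.2.2.2 (by rw [hT1])
        · rw [disjoint_left]
          intro T hT1 hT2
          rw [mem_filter] at hT1
          rw [mem_union, mem_singleton, mem_filter] at hT2
          rcases hT2 with h | h
          · exact hT1.2.2.2.2 (by rw [h])
          · exact h.2.2.2 hT1.2.2.2.subset
      have h2 : (∑ T ∈ univ.filter (fun T : Finset γ => a ∈ T ∧ b ∈ T), X T :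
          MvPolynomial (Finset γ) ℚ)
          = (∑ T ∈ univ.filter (fun T : Finset γ => a ∈ T ∧ b ∈ T ∧ T ⊂ S), X T) + cc S
            + ∑ T ∈ univ.filter (fun T : Finset γ => a ∈ T ∧ b ∈ T ∧ ¬ T ⊆ S ∧ ¬ S ⊆ T), X T := by
        have e : univ.filter (fun T : Finset γ => a ∈ T ∧ b ∈ T)
            = ((univ.filter (fun T : Finset γ => a ∈ T ∧ b ∈ T ∧ T ⊂ S)) ∪
              (univ.filter (fun T : Finset γ => S ⊆ T))) ∪
              univ.filter (fun T : Finset γ => a ∈ T ∧ b ∈ T ∧ ¬ T ⊆ S ∧ ¬ S ⊆ T) := by
          ext T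
          simp only [mem_filter, mem_univ, true_and, mem_union]
          constructor
          · rintro ⟨h1, h2⟩
            by_cases h3 : S ⊆ T
            · exact Or.inl (Or.inr h3)
            · by_cases h4 : T ⊆ S
              · exact Or.inl (Or.inl ⟨h1, h2, ⟨h4, h3⟩⟩)
              · exact Or.inr ⟨h1, h2, h4, h3⟩
          · rintro ((h | h) | h)
            · exact ⟨h.1, h.2.1⟩
            · exact ⟨h haS, h hbS⟩
            · exact ⟨h.1, h.2.1⟩
        rw [e, sum_union, sum_union]
        · rfl
        · rw [disjoint_left]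
          intro T hT1 hT2
          rw [mem_filter] at hT1 hT2
          exact hT1.2.2.2.2 hT2.2
        · rw [disjoint_left]
          intro T hT1 hT2
          rw [mem_union, mem_filter, mem_filter] at hT1
          rw [mem_filter] at hT2
          rcases hT1 with h | h
          · exact hT2.2.2.2.1 h.2.2.2.subset
          · exact hT2.2.2.2.2 h.2
      rw [h2] at hlin
      rw [h1]
      have h3 : (∑ T ∈ univ.filter (fun T : Finset γ => a ∈ T ∧ b ∈ T ∧ ¬ T ⊆ S ∧ ¬ S ⊆ T), X T :
          MvPolynomial (Finset γ) ℚ) ∈ annI L S := by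
        apply Ideal.sum_mem
        intro T hT
        rw [mem_filter] at hT
        apply X_mem_annI_of_not_compat
        rintro (h | h | h)
        · exact hT.2.2.2.2 h
        · exact hT.2.2.2.1 h
        · exact disjoint_left.mp h haS hT.2.1
      have := Ideal.sub_mem _ hlin h3
      convert this using 1
      ring
  exact hle hp

end

end Pool.Agent.helper17
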