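import Pool.Agent.helper17.BlockCls

/-!
Restriction of the explicit class to a boundary divisor.
-/

open Finset MvPolynomial

set_option linter.unusedSectionVars false

namespace Pool.Agent.helper17

variable {γ : Type*} [DecidableEq γ] [Fintype γ]

theorem Fac_mem_outA {S T : Finset γ} (h : ¬ T ⊆ S) (f : ℚ) : Fac T f ∈ outA S := by
  unfold Fac geo
  apply Subalgebra.sub_mem _ (Subalgebra.one_mem _)
  apply Subalgebra.mul_mem
  · exact Subalgebra.mul_mem _ (Subalgebra.algebraMap_mem _ f) (X_mem_outA h)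
  · apply Subalgebra.sum_mem
    intro i _
    apply Subalgebra.pow_mem
    exact Subalgebra.mul_mem _ (Subalgebra.algebraMap_mem _ f)
      (dd_mem_outA' (fun h' => h h'.subset))

theorem Phi_mem_outA (L : Finset (Finset γ)) {S T : Finset γ} (h : ¬ T ⊆ S) :
    Phi L T ∈ outA S := by
  unfold Phi
  apply Subalgebra.prod_mem
  intro j _
  exact Fac_mem_outA h _

theorem geo_sub_geo_mem {J : Ideal (MvPolynomial (Finset γ) ℚ)}
    {x y : MvPolynomial (Finset γ) ℚ} (h : x - y ∈ J) : geo x - geo y ∈ J := by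
  unfold geo
  rw [← sum_sub_distrib]
  apply Ideal.sum_mem
  intro i _
  exact Ideal.mem_of_dvd J (sub_dvd_pow_sub_pow x y i) h

theorem map_geo (φ : MvPolynomial (Finset γ) ℚ →ₐ[ℚ] MvPolynomial (Finset γ) ℚ)
    (x : MvPolynomial (Finset γ) ℚ) : φ (geo x) = geo (φ x) := by
  unfold geo
  rw [map_sum]
  apply sum_congr rfl
  intro i _
  rw [map_pow]

theorem alg_C (φ : MvPolynomial (Finset γ) ℚ →ₐ[ℚ] MvPolynomial (Finset γ) ℚ) (f : ℚ) :
    φ (C f) = C f := φ.commutes f

section

variable {L : Finset (Finset γ)} {S : Finset γ} (hS : Valid L S)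
include hS

theorem iot_dd_mem {T : Finset γ} (hT : T ⊂ S) (hTne : T.Nonempty) :
    iot S (dd T) - dd T ∈ annI L S := by
  have e : univ.filter (fun T' : Finset γ => T ⊂ T')
      = (univ.filter (fun T' : Finset γ => T ⊂ T' ∧ T' ⊂ S)) ∪
        ((univ.filter (fun T' : Finset γ => S ⊆ T')) ∪
        univ.filter (fun T' : Finset γ => T ⊂ T' ∧ ¬ T' ⊆ S ∧ ¬ S ⊆ T')) := by
    ext T'
    simp only [mem_filter, mem_univ, true_and, mem_union]
    constructor
    · intro h
      by_cases h1 : S ⊆ T'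
      · exact Or.inr (Or.inl h1)
      · by_cases h2 : T' ⊆ S
        · exact Or.inl ⟨h, h2, h1⟩
        · exact Or.inr (Or.inr ⟨h, h2, h1⟩)
    · rintro (h | h | h)
      · exact h.1
      · exact hT.trans_subset h
      · exact h.1
  have d1 : Disjoint (univ.filter (fun T' : Finset γ => T ⊂ T' ∧ T' ⊂ S))
      ((univ.filter (fun T' : Finset γ => S ⊆ T')) ∪
        univ.filter (fun T' : Finset γ => T ⊂ T' ∧ ¬ T' ⊆ S ∧ ¬ S ⊆ T')) := by
    rw [disjoint_left]
    intro T' h1 h2
    simp only [mem_filter, mem_univ, true_and, mem_union] at h1 h2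
    rcases h2 with h | h
    · exact h1.2.2 h
    · exact h.2.1 h1.2.subset
  have d2 : Disjoint (univ.filter (fun T' : Finset γ => S ⊆ T'))
      (univ.filter (fun T' : Finset γ => T ⊂ T' ∧ ¬ T' ⊆ S ∧ ¬ S ⊆ T')) := by
    rw [disjoint_left]
    intro T' h1 h2
    simp only [mem_filter, mem_univ, true_and] at h1 h2
    exact h2.2.2 h1
  have h1 : dd T = (∑ T' ∈ univ.filter (fun T' : Finset γ => T ⊂ T' ∧ T' ⊂ S), X T') + (cc S +
      ∑ T' ∈ univ.filter (fun T' : Finset γ => T ⊂ T' ∧ ¬ T' ⊆ S ∧ ¬ S ⊆ T'), X T') := by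
    unfold dd
    rw [e, sum_union d1, sum_union d2]
    rfl
  have h2 : iot S (dd T) = (∑ T' ∈ univ.filter (fun T' : Finset γ => T ⊂ T' ∧ T' ⊂ S), X T')
      + cc S := by
    have e2 : univ.filter (fun T' : Finset γ => S ⊆ T')
        = insert S (univ.filter (fun T' : Finset γ => S ⊂ T')) := by
      ext T'
      simp only [mem_filter, mem_univ, true_and, mem_insert]
      constructor
      · intro h
        rcases eq_or_ssubset_of_subset h with h | h
        · exact Or.inl h.symm
        · exact Or.inr h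
      · rintro (h | h)
        · rw [h]
        · exact h.subset
    unfold dd
    rw [e, sum_union d1, sum_union d2, e2, sum_insert (by simp), map_add, map_add, map_add,
      map_sum, map_sum, map_sum, iot_X_self]
    have s1 : ∑ T' ∈ univ.filter (fun T' : Finset γ => T ⊂ T' ∧ T' ⊂ S), iot S (X T')
        = ∑ T' ∈ univ.filter (fun T' : Finset γ => T ⊂ T' ∧ T' ⊂ S), X T' := by
      apply sum_congr rfl
      intro T' hT'
      rw [mem_filter] at hT'
      exact iot_X_of_ssubset hT'.2.2
    have s2 : ∑ T' ∈ univ.filter (fun T' : Finset γ => S ⊂ T'), iot S (X T') = 0 := by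
      apply sum_eq_zero
      intro T' hT'
      rw [mem_filter] at hT'
      exact iot_X_of_not_subset hT'.2.2
    have s3 : ∑ T' ∈ univ.filter (fun T' : Finset γ => T ⊂ T' ∧ ¬ T' ⊆ S ∧ ¬ S ⊆ T'),
        iot S (X T') = 0 := by
      apply sum_eq_zero
      intro T' hT'
      rw [mem_filter] at hT'
      exact iot_X_of_not_subset hT'.2.2.1
    rw [s1, s2, s3]
    ring
  have h3 : (∑ T' ∈ univ.filter (fun T' : Finset γ => T ⊂ T' ∧ ¬ T' ⊆ S ∧ ¬ S ⊆ T'), X T' :
      MvPolynomial (Finset γ) ℚ) ∈ annI L S := by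
    apply Ideal.sum_mem
    intro T' hT'
    rw [mem_filter] at hT'
    apply X_mem_annI_of_not_compat
    rintro (h | h | h)
    · exact hT'.2.2.2 h
    · exact hT'.2.2.1 h
    · obtain ⟨x, hx⟩ := hTne
      exact disjoint_left.mp h (hT.subset hx) (hT'.2.1.subset hx)
  rw [h2, h1]
  have := (Ideal.neg_mem_iff _).mpr h3
  convert this using 1
  ring

theorem iot_Fac_mem {T : Finset γ} (hT : T ⊂ S) (hTne : T.Nonempty) (f : ℚ) :
    iot S (Fac T f) - Fac T f ∈ annI L S := by
  unfold Fac
  rw [map_sub, map_mul, map_mul, map_one, alg_C, iot_X_of_ssubset hT, map_geo, map_mul, alg_C]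
  have h1 := iot_dd_mem hS hT hTne
  have h2 : C f * iot S (dd T) - C f * dd T ∈ annI L S := by
    have := Ideal.mul_mem_left _ (C f) h1
    rwa [mul_sub] at this
  have h3 := Ideal.mul_mem_left _ (-(C f * X T)) (geo_sub_geo_mem h2)
  convert h3 using 1
  ring

omit hS in
theorem iot_dd_self : iot S (dd S) = 0 := by
  unfold dd
  rw [map_sum]
  apply sum_eq_zero
  intro T' hT'
  rw [mem_filter] at hT'
  exact iot_X_of_not_subset hT'.2.2

omit hS in
theorem iot_Fac_self (f : ℚ) : iot S (Fac S f) = 1 - C f * cc S := by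
  unfold Fac
  rw [map_sub, map_mul, map_mul, map_one, alg_C, iot_X_self, map_geo, map_mul, alg_C, iot_dd_self,
    mul_zero, geo_zero, mul_one]

end

/-- Extended product, with a spurious trivial factor for even numbers. -/
theorem prod_half_eq {M : Type*} [CommMonoid M] (F : ℚ → M) (hF : F 0 = 1) (o : ℕ) :
    ∏ j ∈ range ((o - 1) / 2), F ((o : ℚ) / 2 - 1 - j) = ∏ j ∈ range (o / 2),
      F ((o : ℚ) / 2 - 1 - j) := by
  rcases Nat.even_or_odd' o with ⟨m, rfl | rfl⟩
  · rcases Nat.eq_zero_or_pos m with rfl | hm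
    · simp
    · have h1 : (2 * m - 1) / 2 = m - 1 := by omega
      have h2 : 2 * m / 2 = (m - 1) + 1 := by omega
      rw [h1, h2, prod_range_succ]
      have h3 : ((2 * m : ℕ) : ℚ) / 2 - 1 - ((m - 1 : ℕ) : ℚ) = 0 := by
        rw [Nat.cast_sub hm]
        push_cast
        ring
      rw [h3, hF, mul_one]
  · have h1 : (2 * m + 1 - 1) / 2 = m := by omega
    have h2 : (2 * m + 1) / 2 = m := by omega
    rw [h1, h2]

/-- Splitting off the first factors. -/
theorem prod_half_split {M : Type*} [CommMonoid M] (F : ℚ → M) (hF : F 0 = 1) {o o' m : ℕ}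
    (h : o = o' + 2 * m) :
    ∏ j ∈ range ((o - 1) / 2), F ((o : ℚ) / 2 - 1 - j)
      = (∏ j ∈ range m, F ((o : ℚ) / 2 - 1 - j)) *
        ∏ j ∈ range ((o' - 1) / 2), F ((o' : ℚ) / 2 - 1 - j) := by
  rw [prod_half_eq F hF o, prod_half_eq F hF o']
  have h1 : o / 2 = m + o' / 2 := by omega
  rw [h1, prod_range_add]
  congr 1
  apply prod_congr rfl
  intro j _
  congr 1
  rw [h]
  push_cast
  ring

section

variable {L : Finset (Finset γ)} {S : Finset γ} (hL : IsBlocks L) (hS : Valid L S)
include hL hS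

theorem od_contr_of_disjoint {T : Finset γ} (h : Disjoint S T) :
    od (contr L S) T = od L T := by
  unfold od
  congr 2
  ext A
  rw [mem_blk, mem_blk, mem_contr]
  constructor
  · rintro ⟨h1 | h1, h2⟩
    · obtain ⟨x, hx⟩ := hS.2.2.2
      exact absurd (h2 (h1 ▸ hx)) (disjoint_left.mp h hx)
    · exact ⟨h1.1, h2⟩
  · rintro ⟨h1, h2⟩
    refine ⟨Or.inr ⟨h1, ?_⟩, h2⟩
    intro h3
    obtain ⟨x, hx⟩ := hL.ne A h1
    exact disjoint_left.mp h (h3 hx) (h2 hx)

omit hL hS in
theorem od_blk {T : Finset γ} (h : T ⊆ S) : od (blk L S) T = od L T := by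
  unfold od
  congr 2
  ext A
  rw [mem_blk, mem_blk, mem_blk]
  constructor
  · rintro ⟨⟨h1, _⟩, h2⟩
    exact ⟨h1, h2⟩
  · rintro ⟨h1, h2⟩
    exact ⟨⟨h1, h2.trans h⟩, h2⟩

theorem odd_card_iff : Odd S.card ↔ Odd (od L S) := by
  have h1 : S.card = ∑ A ∈ blk L S, A.card := by
    conv_lhs => rw [← hS.eq_biUnion]
    rw [card_biUnion]
    · rfl
    · intro A hA B hB hne
      exact hL.disj A (mem_blk.mp hA).1 B (mem_blk.mp hB).1 hne
  rw [h1, odd_sum_iff_odd_card_odd]
  rfl

/-- Number of odd blocks after contraction. -/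
theorem od_contr_above {T : Finset γ} (hT : S ⊂ T) :
    od L T = od (contr L S) T + 2 * (od L S / 2) := by
  have h1 : od L T = od L S + ((L.filter (fun A => ¬ A ⊆ S)).filter
      (fun A => A ⊆ T ∧ Odd A.card)).card := by
    unfold od
    rw [← card_union_of_disjoint]
    · congr 1
      ext A
      simp only [mem_filter, mem_blk, mem_union]
      constructor
      · rintro ⟨⟨h1, h2⟩, h3⟩
        by_cases h4 : A ⊆ S
        · exact Or.inl ⟨⟨h1, h4⟩, h3⟩
        · exact Or.inr ⟨⟨h1, h4⟩, h2, h3⟩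
      · rintro (h | h)
        · exact ⟨⟨h.1.1, h.1.2.trans hT.subset⟩, h.2⟩
        · exact ⟨⟨h.1.1, h.2.1⟩, h.2.2⟩
    · rw [disjoint_left]
      intro A hA1 hA2
      rw [mem_filter, mem_blk] at hA1
      rw [mem_filter, mem_filter] at hA2
      exact hA2.1.2 hA1.1.2
  have h2 : od (contr L S) T = (if Odd S.card then 1 else 0) +
      ((L.filter (fun A => ¬ A ⊆ S)).filter (fun A => A ⊆ T ∧ Odd A.card)).card := by
    have e : (blk (contr L S) T).filter (fun A => Odd A.card)
        = (({S} : Finset (Finset γ)).filter (fun A => Odd A.card)) ∪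
          ((L.filter (fun A => ¬ A ⊆ S)).filter (fun A => A ⊆ T ∧ Odd A.card)) := by
      ext A
      simp only [mem_filter, mem_blk, mem_union, mem_contr, mem_singleton]
      constructor
      · rintro ⟨⟨h1 | h1, h2⟩, h3⟩
        · exact Or.inl ⟨h1, h3⟩
        · exact Or.inr ⟨h1, h2, h3⟩
      · rintro (h | h)
        · exact ⟨⟨Or.inl h.1, by rw [h.1]; exact hT.subset⟩, h.2⟩
        · exact ⟨⟨Or.inr h.1, h.2.1⟩, h.2.2⟩
    unfold od
    rw [e, card_union_of_disjoint]
    · congr 1
      rw [filter_singleton]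
      split_ifs <;> simp
    · rw [disjoint_left]
      intro A hA1 hA2
      rw [mem_filter, mem_singleton] at hA1
      rw [mem_filter, mem_filter] at hA2
      exact hA2.1.2 (by rw [hA1.1])
  have h3 := odd_card_iff hL hS
  rw [h1, h2]
  by_cases h4 : Odd (od L S)
  · rw [if_pos (h3.mpr h4)]
    obtain ⟨k, hk⟩ := h4
    omega
  · rw [if_neg (fun h => h4 (h3.mp h))]
    rw [Nat.not_odd_iff_even] at h4
    obtain ⟨k, hk⟩ := h4
    omega

theorem Phi_above {T : Finset γ} (hT : S ⊂ T) :
    Phi L T = (∏ j ∈ range (od L S / 2), Fac T ((od L T : ℚ) / 2 - 1 - j)) *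
      Phi (contr L S) T := by
  unfold Phi
  exact prod_half_split (Fac T) (Fac_zero T) (od_contr_above hL hS hT)

omit hL hS in
theorem wt_eq (L : Finset (Finset γ)) (T : Finset γ) (j : ℕ) :
    wt L (fun A => if Odd A.card then 1 / 2 else 0) (-1 - j) T = (od L T : ℚ) / 2 - 1 - j := by
  unfold wt od
  rw [← sum_filter, sum_const, nsmul_eq_mul]
  ring

/-- The block of factors at or above `S` restricted to `S`. -/
theorem above_mem (h2 : 2 ≤ L.card) :
    (∏ T ∈ univ.filter (fun T : Finset γ => Valid L T ∧ S ⊂ T), Phi L T) * Phi L S -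
      (∏ j ∈ range ((od L S - 1) / 2), (1 - C ((od L S : ℚ) / 2 - 1 - j) * cc S)) *
      ∏ T ∈ univ.filter (fun T : Finset γ => Valid L T ∧ S ⊂ T), Phi (contr L S) T
      ∈ annI L S := by
  have e1 : (∏ T ∈ univ.filter (fun T : Finset γ => Valid L T ∧ S ⊂ T), Phi L T)
      = (∏ j ∈ range (od L S / 2), ∏ T ∈ univ.filter (fun T : Finset γ => Valid L T ∧ S ⊂ T),
        Fac T ((od L T : ℚ) / 2 - 1 - j)) *
        ∏ T ∈ univ.filter (fun T : Finset γ => Valid L T ∧ S ⊂ T), Phi (contr L S) T := by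
    rw [prod_comm, ← prod_mul_distrib]
    apply prod_congr rfl
    intro T hT
    exact Phi_above hL hS (mem_filter.mp hT).2.2
  have e2 : Phi L S = ∏ j ∈ range (od L S / 2), Fac S ((od L S : ℚ) / 2 - 1 - j) := by
    unfold Phi
    exact prod_half_eq (Fac S) (Fac_zero S) _
  have e3 : (∏ j ∈ range ((od L S - 1) / 2), (1 - C ((od L S : ℚ) / 2 - 1 - j) * cc S))
      = ∏ j ∈ range (od L S / 2), (1 - C ((od L S : ℚ) / 2 - 1 - j) * cc S) :=
    prod_half_eq (fun q : ℚ => (1 - C q * cc S)) (by simp) _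
  rw [e1, e2, e3]
  have key : (∏ j ∈ range (od L S / 2), (∏ T ∈ univ.filter (fun T : Finset γ =>
      Valid L T ∧ S ⊂ T), Fac T ((od L T : ℚ) / 2 - 1 - j)) * Fac S ((od L S : ℚ) / 2 - 1 - j))
      - (∏ j ∈ range (od L S / 2), (1 - C ((od L S : ℚ) / 2 - 1 - j) * cc S)) ∈ annI L S := by
    apply prod_sub_prod_mem
    intro j _
    have h1 := inv_formula hL h2 (fun A => if Odd A.card then 1 / 2 else 0) (-1 - j) _ S hS rfl
    simp only [wt_eq] at h1
    have h3 := Ideal.mul_mem_right (Fac S ((od L S : ℚ) / 2 - 1 - j)) _ h1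
    have h4 := bI_le_annI L S (Fac_mul_mem hL h2 S ((od L S : ℚ) / 2 - 1 - j))
    have h5 := Ideal.add_mem _ h3 h4
    convert h5 using 1
    ring
  rw [prod_mul_distrib] at key
  have h3 := Ideal.mul_mem_right (∏ T ∈ univ.filter (fun T : Finset γ => Valid L T ∧ S ⊂ T),
    Phi (contr L S) T) _ key
  convert h3 using 1
  ring

omit hL in
/-- Valid sets split into five classes relative to `S`. -/
theorem cls_split : cls L = (∏ T ∈ univ.filter (fun T : Finset γ => Valid L T ∧ T ⊂ S), Phi L T) *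
    (Phi L S * ((∏ T ∈ univ.filter (fun T : Finset γ => Valid L T ∧ S ⊂ T), Phi L T) *
    ((∏ T ∈ univ.filter (fun T : Finset γ => Valid L T ∧ Disjoint S T), Phi L T) *
    ∏ T ∈ univ.filter (fun T : Finset γ => Valid L T ∧ ¬ Compat S T), Phi L T))) := by
  have hSne := hS.2.2.2
  have e : univ.filter (fun T : Finset γ => Valid L T)
      = (univ.filter (fun T : Finset γ => Valid L T ∧ T ⊂ S)) ∪ (({S} : Finset (Finset γ)) ∪
        ((univ.filter (fun T : Finset γ => Valid L T ∧ S ⊂ T)) ∪
        ((univ.filter (fun T : Finset γ => Valid L T ∧ Disjoint S T)) ∪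
        (univ.filter (fun T : Finset γ => Valid L T ∧ ¬ Compat S T))))) := by
    ext T
    simp only [mem_filter, mem_univ, true_and, mem_union, mem_singleton]
    constructor
    · intro h
      by_cases hc : Compat S T
      · rcases hc with h1 | h1 | h1
        · rcases eq_or_ssubset_of_subset h1 with h2 | h2
          · exact Or.inr (Or.inl h2.symm)
          · exact Or.inr (Or.inr (Or.inl ⟨h, h2⟩))
        · rcases eq_or_ssubset_of_subset h1 with h2 | h2
          · exact Or.inr (Or.inl h2)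
          · exact Or.inl ⟨h, h2⟩
        · exact Or.inr (Or.inr (Or.inr (Or.inl ⟨h, h1⟩)))
      · exact Or.inr (Or.inr (Or.inr (Or.inr ⟨h, hc⟩)))
    · rintro (h | h | h | h | h)
      · exact h.1
      · rw [h]; exact hS
      · exact h.1
      · exact h.1
      · exact h.1
  obtain ⟨x, hx⟩ := hSne
  unfold cls
  rw [e, prod_union, prod_union, prod_union, prod_union, prod_singleton]
  · rw [disjoint_left]
    intro T h1 h2
    simp only [mem_filter, mem_univ, true_and] at h1 h2
    exact h2.2 (Or.inr (Or.inr h1.2))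
  · rw [disjoint_left]
    intro T h1 h2
    simp only [mem_filter, mem_univ, true_and, mem_union] at h1 h2
    rcases h2 with h2 | h2
    · exact disjoint_left.mp h2.2 hx (h1.2.subset hx)
    · exact h2.2 (Or.inl h1.2.subset)
  · rw [disjoint_left]
    intro T h1 h2
    simp only [mem_filter, mem_univ, true_and, mem_union, mem_singleton] at h1 h2
    rw [h1] at h2
    rcases h2 with h2 | h2 | h2
    · exact h2.2.2 (Subset.refl _)
    · exact disjoint_left.mp h2.2 hx hx
    · exact h2.2 (Or.inl (Subset.refl _))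
  · rw [disjoint_left]
    intro T h1 h2
    simp only [mem_filter, mem_univ, true_and, mem_union, mem_singleton] at h1 h2
    rcases h2 with h2 | h2 | h2 | h2
    · exact h1.2.2 (by rw [h2])
    · exact h1.2.2 h2.2.subset
    · obtain ⟨y, hy⟩ := h1.1.2.2.2
      exact disjoint_left.mp h2.2 (h1.2.subset hy) hy
    · exact h2.2 (Or.inr (Or.inl h1.2.subset))

theorem iot_cls_mem : iot S (cls (blk L S)) -
    (∏ T ∈ univ.filter (fun T : Finset γ => Valid L T ∧ T ⊂ S), Phi L T) *
    (∏ j ∈ range ((od L S - 1) / 2), (1 - C ((od L S : ℚ) / 2 - 1 - j) * cc S)) ∈ annI L S := by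
  have hSb : Valid (blk L S) S := (valid_blk hL hS).mpr ⟨hS, Subset.refl _⟩
  have e : univ.filter (fun T : Finset γ => Valid (blk L S) T)
      = insert S (univ.filter (fun T : Finset γ => Valid L T ∧ T ⊂ S)) := by
    ext T
    simp only [mem_filter, mem_univ, true_and, mem_insert]
    rw [valid_blk hL hS]
    constructor
    · rintro ⟨h1, h2⟩
      rcases eq_or_ssubset_of_subset h2 with h | h
      · exact Or.inl h
      · exact Or.inr ⟨h1, h⟩
    · rintro (h | h)
      · rw [h]; exact ⟨hS, Subset.refl _⟩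
      · exact ⟨h.1, h.2.subset⟩
  unfold cls
  rw [e, prod_insert (by simp), map_mul, map_prod]
  have h1 : iot S (Phi (blk L S) S)
      = ∏ j ∈ range ((od L S - 1) / 2), (1 - C ((od L S : ℚ) / 2 - 1 - j) * cc S) := by
    unfold Phi
    rw [map_prod, od_blk (Subset.refl S)]
    apply prod_congr rfl
    intro j _
    exact iot_Fac_self _
  have h3 : (∏ T ∈ univ.filter (fun T : Finset γ => Valid L T ∧ T ⊂ S), iot S (Phi (blk L S) T))
      - ∏ T ∈ univ.filter (fun T : Finset γ => Valid L T ∧ T ⊂ S), Phi L T ∈ annI L S := by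
    apply prod_sub_prod_mem
    intro T hT
    rw [mem_filter] at hT
    unfold Phi
    rw [map_prod, od_blk hT.2.2.subset]
    apply prod_sub_prod_mem
    intro j _
    exact iot_Fac_mem hS hT.2.2 hT.2.1.2.2.2 _
  rw [h1]
  have := Ideal.mul_mem_left _ (∏ j ∈ range ((od L S - 1) / 2),
    (1 - C ((od L S : ℚ) / 2 - 1 - j) * cc S)) h3
  convert this using 1
  ring

theorem kap_cls_mem : kap (contr L S) (cls (contr L S)) -
    (∏ T ∈ univ.filter (fun T : Finset γ => Valid L T ∧ S ⊂ T), Phi (contr L S) T) *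
    (∏ T ∈ univ.filter (fun T : Finset γ => Valid L T ∧ Disjoint S T), Phi L T) ∈ annI L S := by
  have hout : cls (contr L S) ∈ outA S := by
    unfold cls
    apply Subalgebra.prod_mem
    intro T hT
    rw [mem_filter, valid_contr hL hS] at hT
    apply Phi_mem_outA
    intro h
    rcases hT.2.2 with h1 | h1
    · exact h1.2 h
    · obtain ⟨x, hx⟩ := hT.2.1.2.2.2
      exact disjoint_left.mp h1 (h hx) hx
  have h1 := out_sub_mem hL hS hout
  have h2 : cls (contr L S) =
      (∏ T ∈ univ.filter (fun T : Finset γ => Valid L T ∧ S ⊂ T), Phi (contr L S) T) *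
      (∏ T ∈ univ.filter (fun T : Finset γ => Valid L T ∧ Disjoint S T), Phi L T) := by
    have e : univ.filter (fun T : Finset γ => Valid (contr L S) T)
        = (univ.filter (fun T : Finset γ => Valid L T ∧ S ⊂ T)) ∪
          (univ.filter (fun T : Finset γ => Valid L T ∧ Disjoint S T)) := by
      ext T
      simp only [mem_filter, mem_univ, true_and, mem_union]
      rw [valid_contr hL hS]
      tauto
    have e2 : ∏ T ∈ univ.filter (fun T : Finset γ => Valid L T ∧ Disjoint S T), Phi (contr L S) T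
        = ∏ T ∈ univ.filter (fun T : Finset γ => Valid L T ∧ Disjoint S T), Phi L T := by
      apply prod_congr rfl
      intro T hT
      rw [mem_filter] at hT
      unfold Phi
      rw [od_contr_of_disjoint hL hS hT.2.2]
    unfold cls
    rw [e, prod_union, e2]
    · rw [disjoint_left]
      intro T h1 h2
      rw [mem_filter] at h1 h2
      obtain ⟨x, hx⟩ := hS.2.2.2
      exact disjoint_left.mp h2.2.2 hx (h1.2.2.subset hx)
  rw [← h2]
  exact h1

/-- Restriction of the class to a boundary divisor. -/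
theorem cls_restrict (h2 : 2 ≤ L.card) :
    cls L - iot S (cls (blk L S)) * kap (contr L S) (cls (contr L S)) ∈ annI L S := by
  have h1 := iot_cls_mem hL hS
  have h3 := kap_cls_mem hL hS
  have h4 := above_mem hL hS h2
  have h5 : (∏ T ∈ univ.filter (fun T : Finset γ => Valid L T ∧ ¬ Compat S T), Phi L T) - 1
      ∈ annI L S := by
    apply prod_sub_one_mem
    intro T hT
    rw [mem_filter] at hT
    unfold Phi
    apply prod_sub_one_mem
    intro j _
    exact Fac_sub_one_mem_of_X (X_mem_annI_of_not_compat L hT.2.2) _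
  rw [cls_split hS]
  set P1 := ∏ T ∈ univ.filter (fun T : Finset γ => Valid L T ∧ T ⊂ S), Phi L T
  set P3 := ∏ T ∈ univ.filter (fun T : Finset γ => Valid L T ∧ S ⊂ T), Phi L T
  set P4 := ∏ T ∈ univ.filter (fun T : Finset γ => Valid L T ∧ Disjoint S T), Phi L T
  set P5 := ∏ T ∈ univ.filter (fun T : Finset γ => Valid L T ∧ ¬ Compat S T), Phi L T
  set Q := ∏ T ∈ univ.filter (fun T : Finset γ => Valid L T ∧ S ⊂ T), Phi (contr L S) T
  set G := ∏ j ∈ range ((od L S - 1) / 2), (1 - C ((od L S : ℚ) / 2 - 1 - j) * cc S)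
  set I := iot S (cls (blk L S))
  set K := kap (contr L S) (cls (contr L S))
  have a1 := Ideal.mul_mem_left _ (P1 * Phi L S * P3 * P4) h5
  have a2 := Ideal.mul_mem_left _ (P1 * P4) h4
  have a3 := Ideal.mul_mem_left _ (-(Q * P4)) h1
  have a4 := Ideal.mul_mem_left _ (-I) h3
  have := Ideal.add_mem _ (Ideal.add_mem _ (Ideal.add_mem _ a1 a2) a3) a4
  convert this using 1
  ring

end

end Pool.Agent.helper17
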