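import Pool.Agent.helper17.BlockMaps

/-!
Vanishing above the top degree and normalisation of the top classes.
-/

open Finset MvPolynomial

set_option linter.unusedSectionVars false

namespace Pool.Agent.helper17

variable {γ : Type*} [DecidableEq γ] [Fintype γ]

/-- Polynomials in the variables not inside `S`. -/
noncomputable def outA (S : Finset γ) : Subalgebra ℚ (MvPolynomial (Finset γ) ℚ) :=
  Algebra.adjoin ℚ {q : MvPolynomial (Finset γ) ℚ | ∃ T, ¬ T ⊆ S ∧ q = X T}

theorem X_mem_outA {S T : Finset γ} (h : ¬ T ⊆ S) : X T ∈ outA S :=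
  Algebra.subset_adjoin ⟨T, h, rfl⟩

theorem cc_mem_outA {S T : Finset γ} (h : ¬ T ⊆ S) : cc T ∈ outA S := by
  unfold cc
  apply Subalgebra.sum_mem
  intro T' hT'
  rw [mem_filter] at hT'
  exact X_mem_outA (fun h' => h (hT'.2.trans h'))

theorem dd_mem_outA {S T : Finset γ} (h : ¬ T ⊂ S) (h' : ¬ T ⊂ S → ∀ T', T ⊂ T' → ¬ T' ⊆ S) :
    dd T ∈ outA S := by
  unfold dd
  apply Subalgebra.sum_mem
  intro T' hT'
  rw [mem_filter] at hT'
  exact X_mem_outA (h' h T' hT'.2)

theorem dd_mem_outA' {S T : Finset γ} (h : ¬ T ⊂ S) : dd T ∈ outA S := by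
  apply dd_mem_outA h
  intro _ T' hT' hT'S
  exact h (hT'.trans_subset hT'S)

section

variable {L : Finset (Finset γ)} {S : Finset γ} (hL : IsBlocks L) (hS : Valid L S)
include hL hS

theorem out_sub_mem {p : MvPolynomial (Finset γ) ℚ} (hp : p ∈ outA S) :
    kap (contr L S) p - p ∈ annI L S := kap_sub_mem hL hS hp

theorem out_kill {p : MvPolynomial (Finset γ) ℚ} (hp : p ∈ outA S) (hp' : p ∈ bI (contr L S)) :
    p ∈ annI L S := by
  have h1 := out_sub_mem hL hS hp
  have h2 := kap_kill hL hS hp'
  have := Ideal.sub_mem _ h2 h1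
  simpa using this

theorem card_contr_lt : (contr L S).card < L.card := by
  have h1 := card_contr hL hS
  have h2 := hS.two_le
  omega

theorem not_U_subset (hne : S ≠ U L) : ¬ U L ⊆ S := fun h => hne (hS.1.antisymm h)

end

theorem exists_pair {L : Finset (Finset γ)} (hL : IsBlocks L) (h2 : 2 ≤ L.card) :
    ∃ A ∈ L, ∃ B ∈ L, A ≠ B ∧ ∃ a ∈ A, ∃ b ∈ B, True := by
  obtain ⟨A, hA, B, hB, hne⟩ := one_lt_card.mp (by omega : 1 < L.card)
  obtain ⟨a, ha⟩ := hL.ne A hA
  obtain ⟨b, hb⟩ := hL.ne B hB
  exact ⟨A, hA, B, hB, hne, a, ha, b, hb, trivial⟩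

theorem lin_split {L : Finset (Finset γ)} {A B : Finset γ} (hA : A ∈ L) (hB : B ∈ L)
    (hne : A ≠ B) {a b : γ} (ha : a ∈ A) (hb : b ∈ B) :
    (X (U L) + ∑ T ∈ univ.filter (fun T : Finset γ => a ∈ T ∧ b ∈ T ∧ T ≠ U L), X T :
      MvPolynomial (Finset γ) ℚ) ∈ bI L := by
  have h := lin_mem hA hB hne ha hb
  have e : univ.filter (fun T : Finset γ => a ∈ T ∧ b ∈ T)
      = insert (U L) (univ.filter (fun T : Finset γ => a ∈ T ∧ b ∈ T ∧ T ≠ U L)) := by
    ext T
    simp only [mem_filter, mem_univ, true_and, mem_insert]
    constructor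
    · rintro ⟨h1, h2⟩
      by_cases h3 : T = U L
      · exact Or.inl h3
      · exact Or.inr ⟨h1, h2, h3⟩
    · rintro (h | h)
      · rw [h]; exact ⟨subset_U hA ha, subset_U hB hb⟩
      · exact ⟨h.1, h.2.1⟩
  rw [e, sum_insert (by simp)] at h
  exact h

theorem XU_pow_mem : ∀ (n : ℕ) (L : Finset (Finset γ)), IsBlocks L → L.card = n → 2 ≤ n →
    ∀ i : ℕ, n ≤ i + 1 → (X (U L) ^ i : MvPolynomial (Finset γ) ℚ) ∈ bI L := by
  intro n
  induction n using Nat.strong_induction_on with
  | _ n ih =>
    intro L hL hn h2 i hi
    obtain ⟨A, hA, B, hB, hne, a, ha, b, hb, -⟩ := exists_pair hL (by omega : 2 ≤ L.card)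
    obtain ⟨j, rfl⟩ : ∃ j, i = j + 1 := ⟨i - 1, by omega⟩
    have h1 := lin_split hA hB hne ha hb
    have h3 : (∑ T ∈ univ.filter (fun T : Finset γ => a ∈ T ∧ b ∈ T ∧ T ≠ U L), X T :
        MvPolynomial (Finset γ) ℚ) * X (U L) ^ j ∈ bI L := by
      rw [sum_mul]
      apply Ideal.sum_mem
      intro T hT
      rw [mem_filter] at hT
      by_cases hv : Valid L T
      · have hc := card_contr_lt hL hv
        have h4 := ih (contr L T).card (by omega) (contr L T) (isBlocks_contr hL hv) rfl
          (card_contr_ge hL hv hT.2.2.2) j (by omega)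
        rw [U_contr hL hv] at h4
        exact out_kill hL hv (Subalgebra.pow_mem _ (X_mem_outA (not_U_subset hL hv hT.2.2.2)) _) h4
      · exact Ideal.mul_mem_right _ _ (X_mem_of_not_valid hv)
    have h5 := Ideal.sub_mem _ (Ideal.mul_mem_right (X (U L) ^ j) _ h1) h3
    convert h5 using 1
    ring

theorem XU_pow_mem' {L : Finset (Finset γ)} (hL : IsBlocks L) (h2 : 2 ≤ L.card) {i : ℕ}
    (hi : L.card ≤ i + 1) : (X (U L) ^ i : MvPolynomial (Finset γ) ℚ) ∈ bI L :=
  XU_pow_mem L.card L hL rfl h2 i hi

theorem neg_XU_pow_mem' {L : Finset (Finset γ)} (hL : IsBlocks L) (h2 : 2 ≤ L.card) {i : ℕ}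
    (hi : L.card ≤ i + 1) : ((-X (U L)) ^ i : MvPolynomial (Finset γ) ℚ) ∈ bI L := by
  rw [neg_pow]
  exact Ideal.mul_mem_left _ _ (XU_pow_mem' hL h2 hi)

/-- Replacing one root class by a pair divisor in top degree. -/
theorem norm_pair {L : Finset (Finset γ)} (hL : IsBlocks L) {k : ℕ} (h3 : L.card = k + 3)
    {A B : Finset γ} (hA : A ∈ L) (hB : B ∈ L) (hne : A ≠ B) :
    ((-X (U L)) ^ (k + 1) - X (A ∪ B) * (-X (U L)) ^ k : MvPolynomial (Finset γ) ℚ) ∈ bI L := by
  obtain ⟨a, ha⟩ := hL.ne A hA
  obtain ⟨b, hb⟩ := hL.ne B hB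
  have h1 := lin_split hA hB hne ha hb
  have hAB : Valid L (A ∪ B) := valid_union_pair hL hA hB hne
  have hABU : A ∪ B ≠ U L := by
    intro h
    have h4 := blk_union_pair hL hA hB
    rw [h, blk_U] at h4
    have h5 : L.card ≤ 2 := by rw [h4]; exact card_le_two
    omega
  have e : univ.filter (fun T : Finset γ => a ∈ T ∧ b ∈ T ∧ T ≠ U L)
      = insert (A ∪ B) (univ.filter (fun T : Finset γ =>
        a ∈ T ∧ b ∈ T ∧ T ≠ U L ∧ T ≠ A ∪ B)) := by
    ext T
    simp only [mem_filter, mem_univ, true_and, mem_insert]
    constructor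
    · rintro ⟨h1, h2, h3⟩
      by_cases h4 : T = A ∪ B
      · exact Or.inl h4
      · exact Or.inr ⟨h1, h2, h3, h4⟩
    · rintro (h | h)
      · rw [h]; exact ⟨mem_union_left _ ha, mem_union_right _ hb, hABU⟩
      · exact ⟨h.1, h.2.1, h.2.2.1⟩
  rw [e, sum_insert (by simp)] at h1
  have h5 : (∑ T ∈ univ.filter (fun T : Finset γ => a ∈ T ∧ b ∈ T ∧ T ≠ U L ∧ T ≠ A ∪ B), X T :
      MvPolynomial (Finset γ) ℚ) * (-X (U L)) ^ k ∈ bI L := by
    rw [sum_mul]
    apply Ideal.sum_mem
    intro T hT
    rw [mem_filter] at hT
    by_cases hv : Valid L T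
    · have hsub : A ∪ B ⊂ T := by
        refine (union_subset ?_ ?_).ssubset_of_ne hT.2.2.2.2.symm
        · rcases hv.2.1 A hA with h | h
          · exact h
          · exact absurd hT.2.1 (disjoint_left.mp h ha)
        · rcases hv.2.1 B hB with h | h
          · exact h
          · exact absurd hT.2.2.1 (disjoint_left.mp h hb)
      have hk : 2 < (blk L T).card := by
        have := card_lt_card (blk_ssubset hv hsub)
        rw [blk_union_pair hL hA hB, card_pair hne] at this
        exact this
      have hcc := card_contr hL hv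
      have h4 := neg_XU_pow_mem' (i := k) (isBlocks_contr hL hv)
        (card_contr_ge hL hv hT.2.2.2.1) (by omega)
      rw [U_contr hL hv] at h4
      exact out_kill hL hv (Subalgebra.pow_mem _ (Subalgebra.neg_mem _
        (X_mem_outA (not_U_subset hL hv hT.2.2.2.1))) _) h4
    · exact Ideal.mul_mem_right _ _ (X_mem_of_not_valid hv)
  have h6 := Ideal.sub_mem _ h5 (Ideal.mul_mem_right ((-X (U L)) ^ k) _ h1)
  convert h6 using 1
  ring

theorem contr_data {L : Finset (Finset γ)} (hL : IsBlocks L) {S T : Finset γ} (hS : Valid L S)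
    (hT : Valid L T) (hTS : T ⊂ S) : Valid (contr L T) S ∧
    (blk (contr L T) S).card + (blk L T).card = (blk L S).card + 1 :=
  ⟨(valid_contr hL hT).mpr ⟨hS, Or.inl hTS⟩, card_blk_contr hL hT hTS⟩

/-- Normalisation of the two-factor product. -/
theorem norm_contr : ∀ (k : ℕ) (L : Finset (Finset γ)) (S : Finset γ), IsBlocks L → Valid L S →
    S ≠ U L → (blk L S).card = k + 2 → ∀ e, L.card = e + k + 3 →
    (X S * (-cc S) ^ k * (-X (U L)) ^ e - (-X (U L)) ^ (e + k + 1) :
      MvPolynomial (Finset γ) ℚ) ∈ bI L := by
  intro k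
  induction k with
  | zero =>
    intro L S hL hS hne hk e he
    obtain ⟨A, B, hAB, hblk⟩ := card_eq_two.mp hk
    have hA : A ∈ L := (mem_blk.mp (hblk ▸ mem_insert_self A {B})).1
    have hB : B ∈ L := (mem_blk.mp (hblk ▸ mem_insert_of_mem (mem_singleton_self B))).1
    have hSAB : S = A ∪ B := by
      rw [← hS.eq_biUnion, hblk]
      simp
    have h1 := norm_pair hL (k := e) (by omega) hA hB hAB
    rw [← hSAB] at h1
    have h2 := (Ideal.neg_mem_iff _).mpr h1
    convert h2 using 1
    ring
  | succ k ih =>
    intro L S hL hS hne hk e he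
    have hbL := isBlocks_blk hL hS
    obtain ⟨A, hA, B, hB, hAB⟩ := one_lt_card.mp (by omega : 1 < (blk L S).card)
    have hAL := (mem_blk.mp hA).1
    have hBL := (mem_blk.mp hB).1
    have hT : Valid L (A ∪ B) := valid_union_pair hL hAL hBL hAB
    have hTS : A ∪ B ⊂ S := by
      refine (union_subset (mem_blk.mp hA).2 (mem_blk.mp hB).2).ssubset_of_ne ?_
      intro h
      have := blk_union_pair hL hAL hBL
      rw [h] at this
      have h5 : (blk L S).card ≤ 2 := by rw [this]; exact card_le_two
      omega
    have hTk : (blk L (A ∪ B)).card = 2 := by rw [blk_union_pair hL hAL hBL, card_pair hAB]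
    -- step 1: inner relation
    have h1 := iot_kill hL hS (norm_pair hbL (k := k) (by omega) hA hB hAB)
    rw [U_blk hS, map_sub, map_pow, map_neg, iot_X_self, map_mul, map_pow, map_neg, iot_X_self,
      iot_X_of_ssubset hTS, mem_annI] at h1
    -- step 2: induction in the contraction of the pair
    obtain ⟨hS', hk'⟩ := contr_data hL hS hT hTS
    have hLc := isBlocks_contr hL hT
    have hUc := U_contr hL hT
    have hcard := card_contr hL hT
    have h2 := ih (contr L (A ∪ B)) S hLc hS' (by rw [hUc]; exact hne) (by omega) e (by omega)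
    rw [hUc] at h2
    have hUT : ¬ U L ⊆ A ∪ B := fun h => hTS.2 (hS.1.trans h)
    have hST : ¬ S ⊆ A ∪ B := hTS.2
    have h3 := out_kill hL hT (p := X S * (-cc S) ^ k * (-X (U L)) ^ e - (-X (U L)) ^ (e + k + 1))
      (Subalgebra.sub_mem _ (Subalgebra.mul_mem _ (Subalgebra.mul_mem _ (X_mem_outA hST)
        (Subalgebra.pow_mem _ (Subalgebra.neg_mem _ (cc_mem_outA hST)) _))
        (Subalgebra.pow_mem _ (Subalgebra.neg_mem _ (X_mem_outA hUT)) _))
        (Subalgebra.pow_mem _ (Subalgebra.neg_mem _ (X_mem_outA hUT)) _)) h2
    rw [mem_annI] at h3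
    -- step 3
    have h4 := norm_pair hL (k := e + k + 1) (by omega) hAL hBL hAB
    have h5 := Ideal.sub_mem _ (Ideal.add_mem _ (Ideal.mul_mem_right ((-X (U L)) ^ e) _ h1) h3) h4
    convert h5 using 1
    ring

/-- Homogeneous polynomials of degree above the top vanish: monomial case. -/
theorem top_monomial : ∀ (n : ℕ) (L : Finset (Finset γ)), IsBlocks L → L.card = n → 2 ≤ n →
    ∀ (d : ℕ), n ≤ d + 1 → ∀ p : MvPolynomial (Finset γ) ℚ, p.IsHomogeneous d → p ∈ bI L := by
  intro n
  induction n using Nat.strong_induction_on with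
  | _ n ih =>
    intro L hL hn h2 d hd p hp
    -- reduce to monomials
    rw [p.as_sum]
    apply Ideal.sum_mem
    intro m hm
    have hmd : m.degree = d := by
      have := hp (mem_support_iff.mp hm)
      rw [Finsupp.degree_eq_weight_one]
      exact this
    have hmon : (monomial m (coeff m p) : MvPolynomial (Finset γ) ℚ)
        = C (coeff m p) * monomial m 1 := by rw [C_mul_monomial, mul_one]
    rw [hmon]
    apply Ideal.mul_mem_left
    clear hmon
    by_cases hval : ∀ T ∈ m.support, Valid L T
    · by_cases hcomp : ∀ S ∈ m.support, ∀ T ∈ m.support, Compat S T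
      · -- main case
        by_cases hU : ∀ T ∈ m.support, T = U L
        · have : m = Finsupp.single (U L) d := by
            have h1 : m = Finsupp.single (U L) (m (U L)) := by
              ext T
              rw [Finsupp.single_apply]
              split_ifs with h
              · rw [h]
              · by_contra hne
                exact h (hU T (Finsupp.mem_support_iff.mpr hne)).symm
            rw [h1] at hmd
            rw [Finsupp.degree_single] at hmd
            rw [h1, hmd]
          rw [this, ← X_pow_eq_monomial]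
          exact XU_pow_mem' hL (by omega) (by omega)
        · push Not at hU
          obtain ⟨T₀, hT₀, hT₀U⟩ := hU
          -- minimal element of the support
          obtain ⟨S, hSm, hSmin⟩ := exists_min_image (m.support.filter (fun T => T ≠ U L)) Finset.card
            ⟨T₀, mem_filter.mpr ⟨hT₀, hT₀U⟩⟩
          rw [mem_filter] at hSm
          have hS := hval S hSm.1
          have hSU := hSm.2
          have hmin : ∀ T ∈ m.support, T ≠ S → ¬ T ⊆ S := by
            intro T hT hne hTS
            have hlt := card_lt_card (hTS.ssubset_of_ne hne)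
            by_cases hTU : T = U L
            · exact hSU (hS.1.antisymm (hTU ▸ hTS))
            · have := hSmin T (mem_filter.mpr ⟨hT, hTU⟩)
              omega
          -- split the monomial
          have hms : m S ≠ 0 := Finsupp.mem_support_iff.mp hSm.1
          obtain ⟨a, ha⟩ : ∃ a, m S = a + 1 := ⟨m S - 1, by omega⟩
          have hsplit : m = Finsupp.single S (a + 1) + m.erase S := by
            rw [← ha, Finsupp.single_add_erase]
          set m' := m.erase S with hm'
          have hdeg : a + 1 + m'.degree = d := by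
            rw [hsplit, map_add, Finsupp.degree_single] at hmd
            exact hmd
          have hmono : (monomial m (1 : ℚ)) = X S * (X S ^ a * monomial m' 1) := by
            rw [hsplit, ← one_mul (1 : ℚ), ← monomial_mul, ← X_pow_eq_monomial, pow_succ, one_mul]
            ring
          have hout : (monomial m' (1 : ℚ)) ∈ outA S := by
            rw [monomial_eq, map_one, one_mul]
            unfold Finsupp.prod
            apply Subalgebra.prod_mem
            intro T hT
            apply Subalgebra.pow_mem
            apply X_mem_outA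
            have hT' : T ∈ m.support ∧ T ≠ S := by
              rw [hm', Finsupp.support_erase, mem_erase] at hT
              exact ⟨hT.2, hT.1⟩
            exact hmin T hT'.1 hT'.2
          have hhom' : (monomial m' (1 : ℚ) : MvPolynomial (Finset γ) ℚ).IsHomogeneous m'.degree :=
            isHomogeneous_monomial _ rfl
          rw [hmono]
          have hXS : (X S : MvPolynomial (Finset γ) ℚ) = cc S + (-dd S) := by rw [cc_eq]; ring
          have hgoal : (X S ^ a * monomial m' 1 : MvPolynomial (Finset γ) ℚ) ∈ annI L S := by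
            nth_rewrite 1 [hXS]
            rw [add_pow, sum_mul]
            apply Ideal.sum_mem
            intro i hi
            rw [mem_range] at hi
            have hcc := card_contr hL hS
            have hSk := hS.two_le
            by_cases hik : (blk L S).card ≤ i + 1
            · have h1 := iot_kill hL hS (XU_pow_mem' (isBlocks_blk hL hS) hSk hik)
              rw [U_blk hS, map_pow, iot_X_self] at h1
              rw [mul_assoc, mul_assoc]
              exact Ideal.mul_mem_right _ _ h1
            · have hdhom : ((-dd S) ^ (a - i) * monomial m' 1 :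
                  MvPolynomial (Finset γ) ℚ).IsHomogeneous (a - i + m'.degree) := by
                apply IsHomogeneous.mul _ hhom'
                have h1 : (-dd S : MvPolynomial (Finset γ) ℚ).IsHomogeneous 1 := by
                  apply IsHomogeneous.neg
                  unfold dd
                  apply IsHomogeneous.sum
                  intro T _
                  exact isHomogeneous_X _ _
                have := h1.pow (a - i)
                rwa [one_mul] at this
              have h1 := ih (contr L S).card (by have := card_contr_lt hL hS; omega) (contr L S)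
                (isBlocks_contr hL hS) rfl (card_contr_ge hL hS hSU) (a - i + m'.degree)
                (by omega) _ hdhom
              have h2 := out_kill hL hS (Subalgebra.mul_mem _ (Subalgebra.pow_mem _
                (Subalgebra.neg_mem _ (dd_mem_outA' (fun h => h.2 (Subset.refl _)))) _) hout) h1
              have h3 := Ideal.mul_mem_left _ (cc S ^ i * (a.choose i : MvPolynomial (Finset γ) ℚ)) h2
              convert h3 using 1
              ring
          exact hgoal
      · push Not at hcomp
        obtain ⟨S, hS, T, hT, hST⟩ := hcomp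
        have hne : S ≠ T := by
          rintro rfl
          exact hST (Or.inl (Subset.refl _))
        have hsplit : m = (Finsupp.single S 1 + Finsupp.single T 1) +
            (m - (Finsupp.single S 1 + Finsupp.single T 1)) := by
          ext V
          simp only [Finsupp.add_apply, Finsupp.tsub_apply, Finsupp.single_apply]
          have h1 : m S ≠ 0 := Finsupp.mem_support_iff.mp hS
          have h2 : m T ≠ 0 := Finsupp.mem_support_iff.mp hT
          by_cases h3 : S = V
          · by_cases h4 : T = V
            · exact absurd (h3.trans h4.symm) hne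
            · rw [if_pos h3, if_neg h4]
              rw [h3] at h1
              omega
          · by_cases h4 : T = V
            · rw [if_neg h3, if_pos h4]
              rw [h4] at h2
              omega
            · rw [if_neg h3, if_neg h4]
              omega
        rw [hsplit, ← one_mul (1 : ℚ), ← monomial_mul]
        apply Ideal.mul_mem_right
        rw [← one_mul (1 : ℚ), ← monomial_mul]
        exact XX_mem_of_not_compat L hST
    · push Not at hval
      obtain ⟨T, hT, hTv⟩ := hval
      have hsplit : m = Finsupp.single T 1 + (m - Finsupp.single T 1) := by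
        ext V
        simp only [Finsupp.add_apply, Finsupp.tsub_apply, Finsupp.single_apply]
        have h2 : m T ≠ 0 := Finsupp.mem_support_iff.mp hT
        by_cases h4 : T = V
        · rw [if_pos h4]
          rw [h4] at h2
          omega
        · rw [if_neg h4]
          omega
      rw [hsplit, ← one_mul (1 : ℚ), ← monomial_mul]
      apply Ideal.mul_mem_right
      exact X_mem_of_not_valid hTv

theorem top_mem {L : Finset (Finset γ)} (hL : IsBlocks L) (h2 : 2 ≤ L.card) {d : ℕ}
    (hd : L.card ≤ d + 1) {p : MvPolynomial (Finset γ) ℚ} (hp : p.IsHomogeneous d) : p ∈ bI L :=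
  top_monomial L.card L hL rfl h2 d hd p hp

end Pool.Agent.helper17
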