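import Pool.Agent.helper17.KeelBasic

/-!
General theory of the Chow ring attached to a set `L` of pairwise disjoint blocks.
All rings are quotients of one polynomial ring.
-/

open Finset MvPolynomial

set_option linter.unusedSectionVars false

namespace Pool.Agent.helper17

variable {γ : Type*} [DecidableEq γ] [Fintype γ]

/-- Pairwise disjoint nonempty blocks. -/
structure IsBlocks (L : Finset (Finset γ)) : Prop where
  ne : ∀ A ∈ L, A.Nonempty
  disj : ∀ A ∈ L, ∀ B ∈ L, A ≠ B → Disjoint A B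

/-- The root set. -/
def U (L : Finset (Finset γ)) : Finset γ := L.biUnion id

/-- `T` is a union of at least two blocks. -/
def Valid (L : Finset (Finset γ)) (T : Finset γ) : Prop :=
  T ⊆ U L ∧ (∀ A ∈ L, A ⊆ T ∨ Disjoint A T) ∧ T ∉ L ∧ T.Nonempty

instance (L : Finset (Finset γ)) (T : Finset γ) : Decidable (Valid L T) := by
  unfold Valid; infer_instance

/-- Blocks contained in `S`. -/
def blk (L : Finset (Finset γ)) (S : Finset γ) : Finset (Finset γ) := L.filter (fun A => A ⊆ S)

/-- Contraction of `S` to a single block. -/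
def contr (L : Finset (Finset γ)) (S : Finset γ) : Finset (Finset γ) :=
  insert S (L.filter (fun A => ¬ A ⊆ S))

/-- Relations. -/
def brel (L : Finset (Finset γ)) : Set (MvPolynomial (Finset γ) ℚ) :=
  {p | ∃ T : Finset γ, ¬ Valid L T ∧ p = X T} ∪
  {p | ∃ S T : Finset γ, ¬ Compat S T ∧ p = X S * X T} ∪
  {p | ∃ A ∈ L, ∃ B ∈ L, ∃ a ∈ A, ∃ b ∈ B, A ≠ B ∧
      p = ∑ T ∈ univ.filter (fun T : Finset γ => a ∈ T ∧ b ∈ T), X T}

/-- The ideal. -/
noncomputable def bI (L : Finset (Finset γ)) : Ideal (MvPolynomial (Finset γ) ℚ) := Ideal.span (brel L)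

theorem X_mem_of_not_valid {L : Finset (Finset γ)} {T : Finset γ} (h : ¬ Valid L T) :
    (X T : MvPolynomial (Finset γ) ℚ) ∈ bI L :=
  Ideal.subset_span (Or.inl (Or.inl ⟨T, h, rfl⟩))

theorem XX_mem_of_not_compat (L : Finset (Finset γ)) {S T : Finset γ} (h : ¬ Compat S T) :
    (X S * X T : MvPolynomial (Finset γ) ℚ) ∈ bI L :=
  Ideal.subset_span (Or.inl (Or.inr ⟨S, T, h, rfl⟩))

theorem lin_mem {L : Finset (Finset γ)} {A B : Finset γ} (hA : A ∈ L) (hB : B ∈ L) (hne : A ≠ B)
    {a b : γ} (ha : a ∈ A) (hb : b ∈ B) :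
    (∑ T ∈ univ.filter (fun T : Finset γ => a ∈ T ∧ b ∈ T), X T : MvPolynomial (Finset γ) ℚ)
      ∈ bI L :=
  Ideal.subset_span (Or.inr ⟨A, hA, B, hB, a, ha, b, hb, hne, rfl⟩)

/-! ### Combinatorics of blocks -/

section comb

variable {L : Finset (Finset γ)}

theorem subset_U {A : Finset γ} (hA : A ∈ L) : A ⊆ U L := fun _ hx => mem_biUnion.mpr ⟨A, hA, hx⟩

theorem mem_U {x : γ} : x ∈ U L ↔ ∃ A ∈ L, x ∈ A := by simp [U]

theorem mem_blk {S A : Finset γ} : A ∈ blk L S ↔ A ∈ L ∧ A ⊆ S := by simp [blk]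

theorem mem_contr {S A : Finset γ} : A ∈ contr L S ↔ A = S ∨ (A ∈ L ∧ ¬ A ⊆ S) := by
  simp [contr]

theorem Valid.eq_biUnion {T : Finset γ} (hT : Valid L T) : (blk L T).biUnion id = T := by
  ext x
  rw [mem_biUnion]
  constructor
  · rintro ⟨A, hA, hx⟩
    exact (mem_blk.mp hA).2 hx
  · intro hx
    obtain ⟨A, hA, hxA⟩ := mem_U.mp (hT.1 hx)
    refine ⟨A, mem_blk.mpr ⟨hA, ?_⟩, hxA⟩
    rcases hT.2.1 A hA with h | h
    · exact h
    · exact absurd hx (disjoint_left.mp h hxA)

theorem Valid.two_le {T : Finset γ} (hT : Valid L T) : 2 ≤ (blk L T).card := by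
  have h1 := hT.eq_biUnion
  by_contra hlt
  have : (blk L T).card = 0 ∨ (blk L T).card = 1 := by omega
  rcases this with h | h
  · rw [card_eq_zero] at h
    rw [h] at h1
    simp only [biUnion_empty] at h1
    obtain ⟨x, hx⟩ := hT.2.2.2
    rw [← h1] at hx
    simp at hx
  · obtain ⟨A, hA⟩ := card_eq_one.mp h
    rw [hA] at h1
    simp only [singleton_biUnion, id_eq] at h1
    apply hT.2.2.1
    rw [← h1]
    have : A ∈ blk L T := by rw [hA]; simp
    exact (mem_blk.mp this).1

theorem valid_of_union (hL : IsBlocks L) {T : Finset γ} (h1 : T ⊆ U L)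
    (h2 : ∀ A ∈ L, A ⊆ T ∨ Disjoint A T) (h3 : 2 ≤ (blk L T).card) : Valid L T := by
  obtain ⟨A, hA, B, hB, hne⟩ := one_lt_card.mp (by omega : 1 < (blk L T).card)
  rw [mem_blk] at hA hB
  obtain ⟨a, ha⟩ := hL.ne A hA.1
  obtain ⟨b, hb⟩ := hL.ne B hB.1
  refine ⟨h1, h2, ?_, ⟨a, hA.2 ha⟩⟩
  intro hT
  by_cases hAT : A = T
  · have hBT : B ≠ T := fun h => hne (hAT.trans h.symm)
    exact disjoint_left.mp (hL.disj B hB.1 T hT hBT) hb (hB.2 hb)
  · exact disjoint_left.mp (hL.disj A hA.1 T hT hAT) ha (hA.2 ha)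

theorem blk_mono {S T : Finset γ} (h : S ⊆ T) : blk L S ⊆ blk L T := by
  intro A hA
  rw [mem_blk] at hA ⊢
  exact ⟨hA.1, hA.2.trans h⟩

theorem blk_U : blk L (U L) = L := by
  ext A
  rw [mem_blk]
  exact ⟨fun h => h.1, fun h => ⟨h, subset_U h⟩⟩

theorem valid_U (hL : IsBlocks L) (h2 : 2 ≤ L.card) : Valid L (U L) := by
  apply valid_of_union hL (Subset.refl _)
  · intro A hA; exact Or.inl (subset_U hA)
  · rwa [blk_U]

theorem valid_union_pair (hL : IsBlocks L) {A B : Finset γ} (hA : A ∈ L) (hB : B ∈ L)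
    (hne : A ≠ B) : Valid L (A ∪ B) := by
  apply valid_of_union hL
  · exact union_subset (subset_U hA) (subset_U hB)
  · intro D hD
    by_cases h1 : D = A
    · left; rw [h1]; exact subset_union_left
    · by_cases h2 : D = B
      · left; rw [h2]; exact subset_union_right
      · right
        rw [disjoint_union_right]
        exact ⟨hL.disj D hD A hA h1, hL.disj D hD B hB h2⟩
  · have : ({A, B} : Finset (Finset γ)) ⊆ blk L (A ∪ B) := by
      intro x hx
      rw [mem_insert, mem_singleton] at hx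
      rw [mem_blk]
      rcases hx with rfl | rfl
      · exact ⟨hA, subset_union_left⟩
      · exact ⟨hB, subset_union_right⟩
    calc 2 = ({A, B} : Finset (Finset γ)).card := by rw [card_pair hne]
      _ ≤ _ := card_le_card this

theorem blk_union_pair (hL : IsBlocks L) {A B : Finset γ} (hA : A ∈ L) (hB : B ∈ L) :
    blk L (A ∪ B) = {A, B} := by
  ext D
  rw [mem_blk, mem_insert, mem_singleton]
  constructor
  · rintro ⟨hD, hDAB⟩
    obtain ⟨x, hx⟩ := hL.ne D hD
    rcases mem_union.mp (hDAB hx) with h | h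
    · left; by_contra hne
      exact disjoint_left.mp (hL.disj D hD A hA hne) hx h
    · right; by_contra hne
      exact disjoint_left.mp (hL.disj D hD B hB hne) hx h
  · rintro (rfl | rfl)
    · exact ⟨hA, subset_union_left⟩
    · exact ⟨hB, subset_union_right⟩

theorem blk_ssubset {S T : Finset γ} (hT : Valid L T) (h : S ⊂ T) :
    blk L S ⊂ blk L T := by
  refine ssubset_of_subset_of_ne (blk_mono h.subset) ?_
  intro heq
  obtain ⟨x, hxT, hxS⟩ := exists_of_ssubset h
  rw [← hT.eq_biUnion, mem_biUnion] at hxT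
  obtain ⟨A, hA, hxA⟩ := hxT
  rw [← heq, mem_blk] at hA
  exact hxS (hA.2 hxA)

/-! ### Contraction -/

variable {S : Finset γ} (hL : IsBlocks L) (hS : Valid L S)
include hL hS

theorem isBlocks_contr : IsBlocks (contr L S) := by
  have key : ∀ A ∈ L, ¬ A ⊆ S → Disjoint A S := by
    intro A hA hAS
    rcases hS.2.1 A hA with h | h
    · exact absurd h hAS
    · exact h
  refine ⟨?_, ?_⟩
  · intro A hA
    rcases mem_contr.mp hA with rfl | hA
    · exact hS.2.2.2
    · exact hL.ne A hA.1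
  · intro A hA B hB hne
    rcases mem_contr.mp hA with hA1 | hA1
    · rcases mem_contr.mp hB with hB1 | hB1
      · exact absurd (hA1.trans hB1.symm) hne
      · rw [hA1]; exact (key B hB1.1 hB1.2).symm
    · rcases mem_contr.mp hB with hB1 | hB1
      · rw [hB1]; exact key A hA1.1 hA1.2
      · exact hL.disj A hA1.1 B hB1.1 hne

theorem U_contr : U (contr L S) = U L := by
  ext x
  rw [mem_U, mem_U]
  constructor
  · rintro ⟨A, hA, hx⟩
    rcases mem_contr.mp hA with rfl | hA
    · exact mem_U.mp (hS.1 hx)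
    · exact ⟨A, hA.1, hx⟩
  · rintro ⟨A, hA, hx⟩
    by_cases hAS : A ⊆ S
    · exact ⟨S, mem_contr.mpr (Or.inl rfl), hAS hx⟩
    · exact ⟨A, mem_contr.mpr (Or.inr ⟨hA, hAS⟩), hx⟩

theorem card_contr : (contr L S).card + (blk L S).card = L.card + 1 := by
  unfold contr blk
  rw [card_insert_of_notMem]
  · have := card_filter_add_card_filter_not (s := L) (fun A => A ⊆ S)
    omega
  · intro h
    exact hS.2.2.1 (mem_filter.mp h).1

theorem valid_contr {T : Finset γ} :
    Valid (contr L S) T ↔ Valid L T ∧ (S ⊂ T ∨ Disjoint S T) := by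
  constructor
  · rintro ⟨h1, h2, h3, h4⟩
    rw [U_contr hL hS] at h1
    have hTS : T ≠ S := fun h => h3 (mem_contr.mpr (Or.inl h))
    have hST : S ⊂ T ∨ Disjoint S T := by
      rcases h2 S (mem_contr.mpr (Or.inl rfl)) with h | h
      · exact Or.inl (h.ssubset_of_ne hTS.symm)
      · exact Or.inr h
    refine ⟨⟨h1, ?_, ?_, h4⟩, hST⟩
    · intro A hA
      by_cases hAS : A ⊆ S
      · rcases hST with h | h
        · exact Or.inl (hAS.trans h.subset)
        · exact Or.inr (disjoint_of_subset_left hAS h)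
      · exact h2 A (mem_contr.mpr (Or.inr ⟨hA, hAS⟩))
    · intro hT
      have hTsub : T ⊆ S := by
        by_contra h
        exact h3 (mem_contr.mpr (Or.inr ⟨hT, h⟩))
      rcases hST with h | h
      · exact h.2 hTsub
      · obtain ⟨x, hx⟩ := h4
        exact disjoint_left.mp h (hTsub hx) hx
  · rintro ⟨⟨h1, h2, h3, h4⟩, h5⟩
    refine ⟨by rwa [U_contr hL hS], ?_, ?_, h4⟩
    · intro A hA
      rcases mem_contr.mp hA with rfl | hA
      · rcases h5 with h | h
        · exact Or.inl h.subset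
        · exact Or.inr h
      · exact h2 A hA.1
    · intro hT
      rcases mem_contr.mp hT with rfl | hT
      · rcases h5 with h | h
        · exact h.2 (Subset.refl _)
        · obtain ⟨x, hx⟩ := h4
          exact disjoint_left.mp h hx hx
      · exact h3 hT.1

theorem card_blk_contr {T : Finset γ} (hST : S ⊂ T) :
    (blk (contr L S) T).card + (blk L S).card = (blk L T).card + 1 := by
  have h1 : blk (contr L S) T = insert S ((blk L T).filter (fun A => ¬ A ⊆ S)) := by
    ext A
    rw [mem_blk, mem_contr, mem_insert, mem_filter, mem_blk]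
    constructor
    · rintro ⟨h | h, h'⟩
      · exact Or.inl h
      · exact Or.inr ⟨⟨h.1, h'⟩, h.2⟩
    · rintro (h | h)
      · exact ⟨Or.inl h, by rw [h]; exact hST.subset⟩
      · exact ⟨Or.inr ⟨h.1.1, h.2⟩, h.1.2⟩
  have h2 : blk L S = (blk L T).filter (fun A => A ⊆ S) := by
    ext A
    rw [mem_filter, mem_blk, mem_blk]
    exact ⟨fun h => ⟨⟨h.1, h.2.trans hST.subset⟩, h.2⟩, fun h => ⟨h.1.1, h.2⟩⟩
  rw [h1, card_insert_of_notMem]
  · rw [h2]
    have := card_filter_add_card_filter_not (s := blk L T) (fun A => A ⊆ S)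
    omega
  · intro h
    exact hS.2.2.1 (mem_blk.mp (mem_filter.mp h).1).1

theorem card_contr_ge (hne : S ≠ U L) : 2 ≤ (contr L S).card := by
  obtain ⟨x, hx, hxS⟩ := exists_of_ssubset (hS.1.ssubset_of_ne hne)
  obtain ⟨A, hA, hxA⟩ := mem_U.mp hx
  have hAS : ¬ A ⊆ S := fun h => hxS (h hxA)
  have hne' : S ≠ A := by rintro rfl; exact hxS hxA
  have : ({S, A} : Finset (Finset γ)) ⊆ contr L S := by
    intro y hy
    rw [mem_insert, mem_singleton] at hy
    rcases hy with rfl | rfl
    · exact mem_contr.mpr (Or.inl rfl)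
    · exact mem_contr.mpr (Or.inr ⟨hA, hAS⟩)
  calc 2 = ({S, A} : Finset (Finset γ)).card := by rw [card_pair hne']
    _ ≤ _ := card_le_card this

end comb

end Pool.Agent.helper17
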