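import Pool.Agent.helper17.KeelSpan

open Finset

set_option linter.unusedSectionVars false

namespace Pool.Agent.helper17

variable {α : Type*} [DecidableEq α] [Fintype α]

/-- Potential used in the dimension count. -/
def pot (c : Finset α) : ℕ := (c.card - 1) / 2

theorem pot_vertex {F : Finset (Finset α)} (hF : Nested F) {V : Finset α} (hV : 2 ≤ V.card)
    (h : vw (children F V) ≠ 0) :
    (children F V).card - 2 + ∑ c ∈ children F V, pot c ≤ pot V := by
  have hsum := sum_card_children hF hV
  unfold vw at h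
  by_cases h2 : (children F V).card = 2
  · obtain ⟨c₁, c₂, hne, heq⟩ := card_eq_two.mp h2
    have h1' : 0 < c₁.card := card_pos.mpr (child_nonempty hF (V := V) (by rw [heq]; simp))
    have h2' : 0 < c₂.card := card_pos.mpr (child_nonempty hF (V := V) (by rw [heq]; simp))
    rw [heq, sum_pair hne] at hsum
    rw [heq, sum_pair hne, card_pair hne]
    unfold pot
    omega
  · rw [if_neg h2] at h
    by_cases h3 : (children F V).card = 3 ∧ oddCount (children F V) = 3
    · have hodd : ∀ c ∈ children F V, c.card = 2 * pot c + 1 := by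
        intro c hc
        have := all_odd_of (h3.2.trans h3.1.symm) hc
        obtain ⟨k, hk⟩ := this
        unfold pot
        omega
      rw [sum_congr rfl hodd, sum_add_distrib, ← mul_sum, sum_const, smul_eq_mul, h3.1] at hsum
      rw [h3.1]
      have : pot V = (V.card - 1) / 2 := rfl
      omega
    · rw [if_neg h3] at h
      exact absurd rfl h

theorem pot_root {F : Finset (Finset α)} (hF : Nested F) {g : ℕ}
    (hN : Fintype.card α = 2 * g + 1) (hg : 0 < g) (h : rho (children F univ) ≠ 0) :
    (children F univ).card - 2 + ∑ c ∈ children F univ, pot c + 1 = g := by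
  have hsum := sum_card_children hF (V := (univ : Finset α)) (by rw [card_univ]; omega)
  have hch := two_le_card_children (F := F) (V := (univ : Finset α)) (by rw [card_univ]; omega)
  have ho : oddCount (children F univ) = 1 := by
    unfold rho at h
    by_contra hne
    rw [if_neg hne] at h
    exact h rfl
  have hc : ∀ c ∈ children F univ, c.card = 2 * pot c + 2 - (if Odd c.card then 1 else 0) := by
    intro c hc
    have := card_pos.mpr (child_nonempty hF hc)
    unfold pot
    split_ifs with h1
    · obtain ⟨k, hk⟩ := h1; omega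
    · rw [Nat.not_odd_iff_even] at h1
      obtain ⟨k, hk⟩ := h1; omega
  have hc' : ∀ c ∈ children F univ, c.card + (if Odd c.card then 1 else 0) = 2 * pot c + 2 := by
    intro c hcc
    have := hc c hcc
    split_ifs at this ⊢ with h1 <;> omega
  have hs := sum_congr rfl hc'
  rw [sum_add_distrib, sum_add_distrib, hsum, ← mul_sum, sum_const, smul_eq_mul, ← card_filter,
    card_univ] at hs
  change Fintype.card α + oddCount (children F univ) = _ at hs
  omega

theorem card_of_ne_zero {F : Finset (Finset α)} (hF : Nested F) {g : ℕ}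
    (hN : Fintype.card α = 2 * g + 1) (hg : 0 < g)
    (h : rho (children F univ) * ∏ V ∈ F, vw (children F V) ≠ 0) : g ≤ F.card := by
  have hN2 : 2 ≤ Fintype.card α := by omega
  have h1 : rho (children F univ) ≠ 0 := left_ne_zero_of_mul h
  have h2 : ∀ V ∈ F, vw (children F V) ≠ 0 := prod_ne_zero_iff.mp (right_ne_zero_of_mul h)
  have h3 := pot_root hF hN hg h1
  have h4 : ∑ V ∈ F, ((children F V).card - 2 + ∑ c ∈ children F V, pot c) ≤ ∑ V ∈ F, pot V :=
    sum_le_sum (fun V hV => pot_vertex hF (hF.two_le V hV) (h2 V hV))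
  have h5 := sum_card_children_sub_two hF hN2
  have h6 := sum_children hF hN2 (fun c => pot c)
  have h7 : ∑ c ∈ nodes F, pot c = ∑ V ∈ F, pot V := by
    symm
    apply sum_subset
    · intro V hV
      exact mem_nodes.mpr (Or.inl hV)
    · intro c hc hcF
      rcases mem_nodes.mp hc with h | h
      · exact absurd h hcF
      · simp [pot, h]
  rw [sum_insert (univ_notMem hF)] at h5 h6
  rw [sum_add_distrib] at h4
  omega

/-- The alternating sum vanishes against every class of complementary dimension. -/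
theorem vanish_of_mem {deg : ChowRing α →ₗ[ℚ] ℚ} {lam : ℕ → ChowRing α}
    (hlam : IsHodge deg lam) {g : ℕ} (hN : Fintype.card α = 2 * g + 1) (hg : 0 < g)
    {y : ChowRing α} (hy : y ∈ stSpan α (g - 1)) :
    ∑ m ∈ range (g + 1), (-2 : ℚ) ^ (g - m) * deg (lam (g - m) * (psi α ^ m * y)) = 0 := by
  unfold stSpan at hy
  induction hy using Submodule.span_induction with
  | mem y hy =>
    obtain ⟨F, hF, hk, rfl⟩ := hy
    rw [key_formula hlam (by omega) ⟨g, hN⟩ g F hF (by omega)]
    by_contra hne
    have := card_of_ne_zero hF hN hg hne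
    omega
  | zero => simp
  | add x y _ _ hx hy =>
    have : ∑ m ∈ range (g + 1), (-2 : ℚ) ^ (g - m) * deg (lam (g - m) * (psi α ^ m * (x + y)))
        = ∑ m ∈ range (g + 1), (-2 : ℚ) ^ (g - m) * deg (lam (g - m) * (psi α ^ m * x))
        + ∑ m ∈ range (g + 1), (-2 : ℚ) ^ (g - m) * deg (lam (g - m) * (psi α ^ m * y)) := by
      rw [← sum_add_distrib]
      apply sum_congr rfl
      intro m _
      rw [mul_add, mul_add, map_add, mul_add]
    rw [this, hx, hy, add_zero]
  | smul c x _ hx =>
    have : ∑ m ∈ range (g + 1), (-2 : ℚ) ^ (g - m) * deg (lam (g - m) * (psi α ^ m * (c • x)))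
        = c * ∑ m ∈ range (g + 1), (-2 : ℚ) ^ (g - m) * deg (lam (g - m) * (psi α ^ m * x)) := by
      rw [mul_sum]
      apply sum_congr rfl
      intro m _
      rw [mul_smul_comm, mul_smul_comm, map_smul, smul_eq_mul]
      ring
    rw [this, hx, mul_zero]

/-- Homogeneous classes of degree `k`. -/
def IsHomog (k : ℕ) (y : ChowRing α) : Prop :=
  ∃ p : MvPolynomial (Finset α) ℚ, p.IsHomogeneous k ∧
    Ideal.Quotient.mk (Ideal.span (relations α)) p = y

theorem IsHomog.mul {k l : ℕ} {x y : ChowRing α} (hx : IsHomog k x) (hy : IsHomog l y) :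
    IsHomog (k + l) (x * y) := by
  obtain ⟨p, hp, rfl⟩ := hx
  obtain ⟨q, hq, rfl⟩ := hy
  exact ⟨p * q, hp.mul hq, by rw [map_mul]⟩

theorem isHomog_one : IsHomog 0 (1 : ChowRing α) :=
  ⟨1, MvPolynomial.isHomogeneous_one _ _, map_one _⟩

theorem isHomog_bd (S : Finset α) : IsHomog 1 (bd S) :=
  ⟨MvPolynomial.X S, MvPolynomial.isHomogeneous_X _ _, rfl⟩

theorem isHomog_psi : IsHomog 1 (psi α) :=
  ⟨-MvPolynomial.X univ, (MvPolynomial.isHomogeneous_X _ _).neg, by rw [map_neg]; rfl⟩

theorem IsHomog.pow {k : ℕ} {x : ChowRing α} (hx : IsHomog k x) (n : ℕ) :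
    IsHomog (n * k) (x ^ n) := by
  induction n with
  | zero => simpa using isHomog_one
  | succ n ih =>
    rw [pow_succ, Nat.succ_mul]
    exact ih.mul hx

theorem isHomog_prod {n : ℕ} (l : Fin n → ℕ) {lam : ℕ → ChowRing α}
    (h : ∀ k, IsHomog k (lam k)) : IsHomog (∑ t, l t) (∏ t, lam (l t)) := by
  classical
  have : ∀ s : Finset (Fin n), IsHomog (∑ t ∈ s, l t) (∏ t ∈ s, lam (l t)) := by
    intro s
    induction s using Finset.induction_on with
    | empty => simpa using isHomog_one
    | insert a s ha ih =>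
      rw [sum_insert ha, prod_insert ha]
      exact (h _).mul ih
  exact this univ

/-- Alternating vanishing, universal form. -/
theorem alternating_vanishing {deg : ChowRing α →ₗ[ℚ] ℚ} {lam : ℕ → ChowRing α}
    (hlam : IsHodge deg lam) {g : ℕ} (hN : Fintype.card α = 2 * g + 1) (hg : 0 < g)
    {n : ℕ} (l : Fin n → ℕ) (hl : ∑ t, l t ≤ g - 1) :
    ∑ i ∈ range (g + 1), (-2 : ℚ) ^ i *
      deg (psi α ^ (2 * g - 1 - ((∑ t, l t) + i)) * ((∏ t, lam (l t)) * lam i)) = 0 := by
  have hy : psi α ^ (g - 1 - ∑ t, l t) * ∏ t, lam (l t) ∈ stSpan α (g - 1) := by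
    have h1 : IsHomog ((g - 1 - ∑ t, l t) * 1 + ∑ t, l t)
        (psi α ^ (g - 1 - ∑ t, l t) * ∏ t, lam (l t)) :=
      (isHomog_psi.pow _).mul (isHomog_prod l hlam.homog)
    obtain ⟨p, hp, hpe⟩ := h1
    have h2 : (g - 1 - ∑ t, l t) * 1 + ∑ t, l t = g - 1 := by omega
    rw [h2] at hp
    rw [← hpe]
    exact mk_mem_stSpan (by omega) hp
  have h := vanish_of_mem hlam hN hg hy
  rw [← sum_range_reflect] at h
  rw [← h]
  apply sum_congr rfl
  intro i hi
  rw [mem_range] at hi
  have e1 : g - (g + 1 - 1 - i) = i := by omega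
  have e2 : g + 1 - 1 - i = g - i := by omega
  have e3 : 2 * g - 1 - ((∑ t, l t) + i) = (g - i) + (g - 1 - ∑ t, l t) := by omega
  rw [e1, e2, e3, pow_add]
  congr 2
  ring

end Pool.Agent.helper17
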