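import Pool.Agent.helper17.HallRado
import Pool.Agent.helper17.KeelVanish

/-!
Existence of the degree map and of the Hodge classes.
-/

open Finset MvPolynomial

set_option linter.unusedSectionVars false

namespace Pool.Agent.helper17

variable {α : Type*} [DecidableEq α] [Fintype α]

theorem bI_sing : bI (sing α) = Ideal.span (relations α) := by
  unfold bI
  congr 1
  ext p
  constructor
  · rintro ((⟨T, hT, rfl⟩ | ⟨S, T, hT, rfl⟩) | ⟨A, hA, B, hB, a, ha, b, hb, hne, rfl⟩)
    · rw [valid_sing] at hT
      exact Or.inl (Or.inl ⟨T, by omega, rfl⟩)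
    · refine Or.inl (Or.inr ⟨S, T, ?_, ?_, ?_, rfl⟩)
      · rw [nonempty_iff_ne_empty]
        intro h0
        exact hT (Or.inr (Or.inr (disjoint_iff_inter_eq_empty.mpr h0)))
      · exact fun h => hT (Or.inl h)
      · exact fun h => hT (Or.inr (Or.inl h))
    · refine Or.inr ⟨a, b, ?_, rfl⟩
      rintro rfl
      exact disjoint_left.mp (isBlocks_sing.disj A hA B hB hne) ha hb
  · rintro ((⟨S, hS, rfl⟩ | ⟨S, T, h1, h2, h3, rfl⟩) | ⟨a, b, hab, rfl⟩)
    · refine Or.inl (Or.inl ⟨S, ?_, rfl⟩)
      rw [valid_sing]
      omega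
    · refine Or.inl (Or.inr ⟨S, T, ?_, rfl⟩)
      rintro (h | h | h)
      · exact h2 h
      · exact h3 h
      · rw [disjoint_iff_inter_eq_empty] at h
        rw [h] at h1
        exact not_nonempty_empty h1
    · refine Or.inr ⟨{a}, ?_, {b}, ?_, a, mem_singleton_self a, b, mem_singleton_self b, ?_, rfl⟩
      · rw [mem_sing, card_singleton]
      · rw [mem_sing, card_singleton]
      · intro h
        exact hab (singleton_injective h)

/-- The degree map on the Chow ring. -/
noncomputable def degC (h2 : 2 ≤ Fintype.card α) : ChowRing α →ₗ[ℚ] ℚ :=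
  (Submodule.liftQ ((Ideal.span (relations α)).restrictScalars ℚ) (degP α) (by
    intro p hp
    rw [Submodule.restrictScalars_mem, ← bI_sing] at hp
    exact (isDeg_degP h2).kill p hp)) ∘ₗ
    (Submodule.Quotient.restrictScalarsEquiv ℚ (Ideal.span (relations α))).symm.toLinearMap

theorem degC_mk (h2 : 2 ≤ Fintype.card α) (p : MvPolynomial (Finset α) ℚ) :
    degC h2 (Ideal.Quotient.mk (Ideal.span (relations α)) p) = degP α p := rfl

/-- The Hodge classes. -/
noncomputable def lamC (α : Type*) [DecidableEq α] [Fintype α] (k : ℕ) : ChowRing α :=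
  Ideal.Quotient.mk (Ideal.span (relations α)) (homogeneousComponent k (cls (sing α)))

theorem mk_prod_X (F : Finset (Finset α)) :
    Ideal.Quotient.mk (Ideal.span (relations α)) (∏ S ∈ F, X S) = strat F := by
  rw [map_prod]; rfl

theorem degP_homog (h2 : 2 ≤ Fintype.card α) {p : MvPolynomial (Finset α) ℚ} {k : ℕ}
    (hp : p.IsHomogeneous k) (hk : k + 2 ≠ Fintype.card α) : degP α p = 0 :=
  (isDeg_degP h2).homog k p hp (by rwa [card_sing])

/-- Only one homogeneous component of the class contributes. -/
theorem degP_mul_component (h2 : 2 ≤ Fintype.card α) {y : MvPolynomial (Finset α) ℚ} {a k : ℕ}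
    (hy : y.IsHomogeneous a) (hk : a + k + 2 = Fintype.card α) (z : MvPolynomial (Finset α) ℚ) :
    degP α (y * z) = degP α (y * homogeneousComponent k z) := by
  conv_lhs => rw [← sum_homogeneousComponent z, mul_sum, map_sum]
  have h0 : ∀ i, i ≠ k → degP α (y * homogeneousComponent i z) = 0 := by
    intro i hi
    exact degP_homog h2 (hy.mul (homogeneousComponent_isHomogeneous i z)) (by omega)
  by_cases hk' : k ∈ range (z.totalDegree + 1)
  · rw [sum_eq_single k (fun i _ hi => h0 i hi) (fun h => absurd hk' h)]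
  · rw [sum_eq_zero (fun i hi => h0 i (by rintro rfl; exact hk' hi))]
    rw [homogeneousComponent_eq_zero k z (by rw [mem_range] at hk'; omega), mul_zero, map_zero]

theorem isHomogeneous_prod_X (F : Finset (Finset α)) :
    (∏ S ∈ F, X S : MvPolynomial (Finset α) ℚ).IsHomogeneous F.card := by
  have := IsHomogeneous.prod F (fun S => (X S : MvPolynomial (Finset α) ℚ)) (fun _ => 1)
    (fun S _ => isHomogeneous_X _ _)
  rwa [sum_const, smul_eq_mul, mul_one] at this

theorem nestedL_of_nested {F : Finset (Finset α)} (hF : Nested F) : NestedL (sing α) F :=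
  ⟨fun S hS => valid_sing.mpr (hF.two_le S hS), fun S hS => by rw [U_sing]; exact hF.ne_univ S hS,
    fun S hS T hT => hF.compat S hS T hT⟩

theorem childL_sing (F : Finset (Finset α)) (V : Finset α) :
    childL (sing α) F V = children F V := by
  ext C
  rw [mem_childL, mem_children, mem_sing]

theorem prod_wv_eq (F : Finset (Finset α)) :
    ∏ V ∈ insert (U (sing α)) F, wv (childL (sing α) F V) = hodgeDegree F := by
  unfold hodgeDegree wv
  rw [U_sing]
  apply prod_congr rfl
  intro V _
  rw [childL_sing]

theorem degP_strat_cls (h2 : 2 ≤ Fintype.card α) {F : Finset (Finset α)} (hF : Nested F) :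
    degP α ((∏ S ∈ F, X S) * cls (sing α)) = hodgeDegree F := by
  have := D_strat_cls F.card F rfl (sing α) isBlocks_sing (by rwa [card_sing])
    (nestedL_of_nested hF) 1 (degP α) (isDeg_degP h2)
  rw [this, one_mul, prod_wv_eq]

theorem constantCoeff_cls (L : Finset (Finset α)) : constantCoeff (cls L) = 1 := by
  unfold cls Phi Fac
  rw [map_prod]
  apply prod_eq_one
  intro T _
  rw [map_prod]
  apply prod_eq_one
  intro j _
  simp

theorem isDegree_degC (h2 : 2 ≤ Fintype.card α) : IsDegree (degC h2) := by
  refine ⟨?_, ?_⟩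
  · intro k p hp hk
    rw [degC_mk]
    exact degP_homog h2 hp hk
  · intro F hF hc
    rw [← mk_prod_X, degC_mk]
    have h1 := degP_strat_cls h2 hF
    rw [degP_mul_component h2 (isHomogeneous_prod_X F) (k := 0) (by omega),
      homogeneousComponent_zero] at h1
    have h3 : coeff 0 (cls (sing α)) = 1 := constantCoeff_cls (sing α)
    rw [h3, map_one, mul_one] at h1
    rw [h1]
    -- all vertices have two children
    have h4 := sum_card_children_sub_two hF h2
    unfold hodgeDegree
    apply prod_eq_one
    intro V hV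
    have h5 : (children F V).card - 2 = 0 := by
      have h6 : ∑ V ∈ insert univ F, ((children F V).card - 2) = 0 := by omega
      exact (sum_eq_zero_iff.mp h6) V hV
    have h7 := two_le_vertex hF h2 hV
    have h8 : 2 ≤ (children F V).card := two_le_card_children h7
    rw [if_pos (by omega)]

theorem isHodge_lamC (h2 : 2 ≤ Fintype.card α) : IsHodge (degC h2) (lamC α) := by
  refine ⟨?_, ?_⟩
  · intro k
    exact ⟨_, homogeneousComponent_isHomogeneous k _, rfl⟩
  · intro k F hF hc
    rw [← mk_prod_X, lamC, ← map_mul, degC_mk, mul_comm,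
      ← degP_mul_component h2 (isHomogeneous_prod_X F) hc]
    exact degP_strat_cls h2 hF

/-- Existence. -/
theorem exists_isHodge (h2 : 2 ≤ Fintype.card α) :
    ∃ (deg : ChowRing α →ₗ[ℚ] ℚ) (lam : ℕ → ChowRing α), IsDegree deg ∧ IsHodge deg lam :=
  ⟨degC h2, lamC α, isDegree_degC h2, isHodge_lamC h2⟩

end Pool.Agent.helper17
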