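import Pool.Agent.helper23.HB.Stmts

/-! Module D5: choice of the speed. -/

open MeasureTheory ProbabilityTheory Set Filter Topology
open scoped ENNReal NNReal
namespace Pool.Agent.helper17.HB
open Pool.Agent.helper23.HB

theorem mD5 : St_D5 := by
  intro β c s hβ hc hs hsc
  -- the speed
  obtain ⟨a, ha, had⟩ : ∃ a : ℝ, 0 < a ∧ 0 < β - (a - c) ^ 2 / 2 - s * a := by
    rcases lt_trichotomy β (c ^ 2 / 2) with h | h | h
    · have h1 : 0 < c ^ 2 - 2 * β := by linarith
      have h2 := hsc h.le
      have h3 : 0 < √(c ^ 2 - 2 * β) := Real.sqrt_pos.2 h1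
      have h4 := Real.sq_sqrt h1.le
      refine ⟨√(c ^ 2 - 2 * β), h3, ?_⟩
      set a := √(c ^ 2 - 2 * β) with ha
      have e : β - (a - c) ^ 2 / 2 - s * a = a * (c - a - s) := by
        have : β = (c ^ 2 - a ^ 2) / 2 := by rw [h4]; ring
        rw [this]; ring
      rw [e]
      exact mul_pos h3 (by linarith)
    · have h2 := hsc h.le
      have h3 : √(c ^ 2 - 2 * β) = 0 := by
        rw [show c ^ 2 - 2 * β = 0 by rw [h]; ring, Real.sqrt_zero]
      rw [h3, sub_zero] at h2
      refine ⟨c - s, by linarith, ?_⟩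
      have e : β - (c - s - c) ^ 2 / 2 - s * (c - s) = (c - s) ^ 2 / 2 := by rw [h]; ring
      rw [e]
      have : 0 < c - s := by linarith
      positivity
    · have h1 : 0 < β - c ^ 2 / 2 := by linarith
      refine ⟨min c ((β - c ^ 2 / 2) / (2 * s)), lt_min hc (by positivity), ?_⟩
      set a := min c ((β - c ^ 2 / 2) / (2 * s)) with ha
      have ha0 : 0 < a := lt_min hc (by positivity)
      have ha1 : a ≤ c := min_le_left _ _
      have ha2 : a ≤ (β - c ^ 2 / 2) / (2 * s) := min_le_right _ _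
      rw [le_div_iff₀ (by positivity)] at ha2
      have h3 : (a - c) ^ 2 ≤ c ^ 2 := by nlinarith
      nlinarith
  set δ := β - (a - c) ^ 2 / 2 - s * a with hδ
  have habs : 0 ≤ |a - c| := abs_nonneg _
  have hD : 0 < 3 * s + |a - c| + 2 := by positivity
  refine ⟨a, min (a / 2) (min 1 (δ / (3 * s + |a - c| + 2))), ?_, ?_, ?_⟩
  · exact lt_min (by positivity) (lt_min one_pos (by positivity))
  · exact lt_of_le_of_lt (min_le_left _ _) (by linarith)
  · set η := min (a / 2) (min 1 (δ / (3 * s + |a - c| + 2))) with hη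
    have hη0 : 0 < η := lt_min (by positivity) (lt_min one_pos (by positivity))
    have hη1 : η ≤ 1 := (min_le_right _ _).trans (min_le_left _ _)
    have hη2 : η ≤ δ / (3 * s + |a - c| + 2) := (min_le_right _ _).trans (min_le_right _ _)
    rw [le_div_iff₀ hD] at hη2
    have hsq : |a - c| ^ 2 = (a - c) ^ 2 := sq_abs _
    have e : β - ((|a - c| + η) ^ 2 / 2 + η) - s * (a + 3 * η)
        = δ - (η * (3 * s + |a - c| + 2) - η * (1 - η / 2)) := by
      rw [hδ, ← hsq]; ring
    have : 0 < η * (1 - η / 2) := by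
      apply mul_pos hη0; linarith
    linarith

end Pool.Agent.helper17.HB
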