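import Pool.Agent.helper23.HB.Stmts

/-! Modules WT and H4: mean weights. -/

open MeasureTheory ProbabilityTheory Set Filter Topology
open scoped ENNReal NNReal
namespace Pool.Agent.helper17.HB
open Pool.Agent.helper23.HB

variable {Ω : Type} [MeasurableSpace Ω] {P : Measure Ω}

theorem life_measurable {β : ℝ} {T : Ω → Lab → ℝ} (hT : Life β P T) : Measurable T :=
  measurable_pi_lambda _ hT.meas

/-- one subtree -/
theorem BR_one (hBR : St_BR) [IsProbabilityMeasure P] {β : ℝ} {T : Ω → Lab → ℝ} (hβ : 0 < β)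
    (hT : Life β P T) (w : Lab) (x : Bool) (φ : ℝ × ℝ → ℝ≥0∞) (hφ : Measurable φ) :
    ∫⁻ ω, φ (birth (T ω) w, T ω w) * Ms β (sh (x :: w) (T ω)) ∂P =
      (∫⁻ ω, φ (birth (T ω) w, T ω w) ∂P) * ∫⁻ ω, Ms β (T ω) ∂P := by
  have h := hBR Ω P β T hβ hT w x φ (fun z => Ms β z.1) (fun _ => 1) hφ
    ((measurable_Ms β).comp measurable_fst) measurable_const
  simp only [mul_one, lintegral_one, measure_univ] at h
  rw [h, lintegral_mul_const]
  exact hφ.comp (((measurable_birth w).comp (life_measurable hT)).prodMk (hT.meas w))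

/-- both subtrees -/
theorem BR_two (hBR : St_BR) [IsProbabilityMeasure P] {β : ℝ} {T : Ω → Lab → ℝ} (hβ : 0 < β)
    (hT : Life β P T) (w : Lab) (φ : ℝ × ℝ → ℝ≥0∞) (hφ : Measurable φ) :
    ∫⁻ ω, φ (birth (T ω) w, T ω w) * Ms β (sh (false :: w) (T ω)) *
        Ms β (sh (true :: w) (T ω)) ∂P =
      (∫⁻ ω, φ (birth (T ω) w, T ω w) ∂P) * (∫⁻ ω, Ms β (T ω) ∂P) * ∫⁻ ω, Ms β (T ω) ∂P := by
  have h := hBR Ω P β T hβ hT w false φ (fun z => Ms β z.1) (fun z => Ms β z.1) hφ
    ((measurable_Ms β).comp measurable_fst) ((measurable_Ms β).comp measurable_fst)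
  simp only [Bool.not_false] at h
  have hm : Measurable (fun ω => φ (birth (T ω) w, T ω w)) :=
    hφ.comp (((measurable_birth w).comp (life_measurable hT)).prodMk (hT.meas w))
  rw [h, lintegral_mul_const _ (hm.mul_const _), lintegral_mul_const _ hm]

theorem mWT (hBR : St_BR) (hCNT : St_CNT) (hMART : St_MART) : St_WT := by
  intro Ω _ P _ β T hβ hT
  have hM := (hMART Ω P β T hβ hT).1
  have hTm := life_measurable hT
  set E : ℝ≥0∞ := ∫⁻ ω, Ms β (T ω) ∂P with hE
  refine ⟨1 + E + E, ?_, ?_⟩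
  · exact ENNReal.add_ne_top.2 ⟨ENNReal.add_ne_top.2 ⟨ENNReal.one_ne_top, hM⟩, hM⟩
  intro m hm
  have hφ : Measurable (fun z : ℝ × ℝ => ind (z.1 ≤ m ∧ m < z.1 + z.2)) := by
    refine measurable_ind (s := {z : ℝ × ℝ | z.1 ≤ m ∧ m < z.1 + z.2}) ?_
    exact (measurableSet_le measurable_fst measurable_const).inter
      (measurableSet_lt measurable_const (measurable_fst.add measurable_snd))
  have hind : ∀ u : Lab, Measurable (fun ω => ind (u ∈ Alive (T ω) m)) := fun u =>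
    (measurable_ind (measurableSet_Alive_left u m)).comp hTm
  have hMs : ∀ (x : Bool) (u : Lab), Measurable (fun ω => Ms β (sh (x :: u) (T ω))) := fun x u =>
    (measurable_Ms β).comp ((measurable_sh _).comp hTm)
  have h1 : ∀ u : Lab, ∫⁻ ω, ind (u ∈ Alive (T ω) m) * wt β (T ω) u ∂P
      = (∫⁻ ω, ind (u ∈ Alive (T ω) m) ∂P) * (1 + E + E) := by
    intro u
    have e : ∀ ω, ind (u ∈ Alive (T ω) m) * wt β (T ω) u
        = ind (u ∈ Alive (T ω) m) + ind (u ∈ Alive (T ω) m) * Ms β (sh (false :: u) (T ω))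
          + ind (u ∈ Alive (T ω) m) * Ms β (sh (true :: u) (T ω)) := by
      intro ω; rw [wt]; ring
    simp_rw [e]
    have hm1 : Measurable (fun ω => ind (u ∈ Alive (T ω) m)
        + ind (u ∈ Alive (T ω) m) * Ms β (sh (false :: u) (T ω))) :=
      (hind u).add ((hind u).mul (hMs false u))
    rw [lintegral_add_left hm1, lintegral_add_left (hind u)]
    have e2 : ∀ x : Bool, ∫⁻ ω, ind (u ∈ Alive (T ω) m) * Ms β (sh (x :: u) (T ω)) ∂P
        = (∫⁻ ω, ind (u ∈ Alive (T ω) m) ∂P) * E := fun x =>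
      BR_one hBR hβ hT u x _ hφ
    rw [e2, e2]
    ring
  simp_rw [h1]
  rw [ENNReal.tsum_mul_right]
  have h2 : ∑' u : Lab, ∫⁻ ω, ind (u ∈ Alive (T ω) m) ∂P = ENNReal.ofReal (Real.exp (β * m)) := by
    rw [← (hCNT Ω P β T hβ hT).1 m hm, ← lintegral_tsum fun u => (hind u).aemeasurable]
    rfl
  rw [h2, mul_comm]

theorem mH4 (hBR : St_BR) (hDTH : St_DTH) (hMART : St_MART) : St_H4 := by
  intro Ω _ P _ β T hβ hT κ hκ
  have hM := (hMART Ω P β T hβ hT).1
  have hTm := life_measurable hT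
  set E : ℝ≥0∞ := ∫⁻ ω, Ms β (T ω) ∂P with hE
  have hφ : Measurable (fun z : ℝ × ℝ => ENNReal.ofReal (Real.exp ((κ - 2 * β) * (z.1 + z.2)))) := by
    fun_prop
  have hMs : ∀ (x : Bool) (u : Lab), Measurable (fun ω => Ms β (sh (x :: u) (T ω))) := fun x u =>
    (measurable_Ms β).comp ((measurable_sh _).comp hTm)
  have hex : ∀ u : Lab, Measurable
      (fun ω => ENNReal.ofReal (Real.exp ((κ - 2 * β) * death (T ω) u))) := by
    intro u
    have := (measurable_death u).comp hTm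
    have h2 : Measurable (fun x : ℝ => ENNReal.ofReal (Real.exp ((κ - 2 * β) * x))) := by fun_prop
    exact h2.comp this
  have h1 : ∫⁻ ω, Hst β κ (T ω) ∂P
      = ∑' w : Lab, (∫⁻ ω, ENNReal.ofReal (Real.exp ((κ - 2 * β) * death (T ω) w)) ∂P) * E * E := by
    unfold Hst
    have hm1 : ∀ w : Lab, AEMeasurable (fun ω =>
        ENNReal.ofReal (Real.exp ((κ - 2 * β) * death (T ω) w)) * Ms β (sh (false :: w) (T ω)) *
          Ms β (sh (true :: w) (T ω))) P := fun w =>
      (((hex w).mul (hMs false w)).mul (hMs true w)).aemeasurable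
    rw [lintegral_tsum hm1]
    refine tsum_congr fun w => ?_
    exact BR_two hBR hβ hT w _ hφ
  rw [h1, ENNReal.tsum_mul_right, ENNReal.tsum_mul_right]
  have h2 := hDTH Ω P β T hβ hT (fun r => ENNReal.ofReal (Real.exp ((κ - 2 * β) * r)))
    (by fun_prop)
  rw [h2]
  have h3 : ∫⁻ r in Ioi (0 : ℝ), ENNReal.ofReal (Real.exp ((κ - 2 * β) * r)) *
      ENNReal.ofReal (β * Real.exp (β * r)) < ∞ := by
    have e : ∀ r : ℝ, ENNReal.ofReal (Real.exp ((κ - 2 * β) * r)) *
        ENNReal.ofReal (β * Real.exp (β * r)) = ENNReal.ofReal (β * Real.exp ((κ - β) * r)) := by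
      intro r
      rw [← ENNReal.ofReal_mul (Real.exp_pos _).le]
      congr 1
      rw [mul_left_comm, ← Real.exp_add]
      ring_nf
    simp_rw [e]
    have hi : IntegrableOn (fun r : ℝ => β * Real.exp ((κ - β) * r)) (Ioi 0) :=
      (integrableOn_exp_mul_Ioi (by linarith) 0).const_mul β
    exact hi.lintegral_lt_top
  exact ENNReal.mul_ne_top (ENNReal.mul_ne_top h3.ne hM) hM

end Pool.Agent.helper17.HB
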