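import Pool.Agent.helper17.BlockHodge

/-!
The degree functional, through a Hall-Rado condition.
-/

open Finset MvPolynomial

set_option linter.unusedSectionVars false

namespace Pool.Agent.helper17

variable {α : Type*} [DecidableEq α] [Fintype α]

/-- Number of members (with multiplicity) contained in `P`. -/
def cnt (m : Finset α →₀ ℕ) (P : Finset α) : ℕ := ∑ T ∈ univ.filter (fun T : Finset α => T ⊆ P), m T

theorem cnt_add (m m' : Finset α →₀ ℕ) (P : Finset α) : cnt (m + m') P = cnt m P + cnt m' P := by
  unfold cnt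
  rw [← sum_add_distrib]
  rfl

theorem cnt_single (S P : Finset α) : cnt (Finsupp.single S 1) P = if S ⊆ P then 1 else 0 := by
  unfold cnt
  by_cases h : S ⊆ P
  · rw [if_pos h, sum_eq_single S]
    · simp
    · intro T _ hT
      rw [Finsupp.single_apply, if_neg hT.symm]
    · intro hS
      exact (hS (mem_filter.mpr ⟨mem_univ _, h⟩)).elim
  · rw [if_neg h]
    apply sum_eq_zero
    intro T hT
    rw [Finsupp.single_apply, if_neg]
    rintro rfl
    exact h (mem_filter.mp hT).2

theorem cnt_super (m : Finset α →₀ ℕ) (P Q : Finset α) :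
    cnt m P + cnt m Q ≤ cnt m (P ∩ Q) + cnt m (P ∪ Q) := by
  unfold cnt
  have h1 : univ.filter (fun T : Finset α => T ⊆ P ∩ Q)
      = univ.filter (fun T : Finset α => T ⊆ P) ∩ univ.filter (fun T : Finset α => T ⊆ Q) := by
    ext T
    simp only [mem_filter, mem_univ, true_and, mem_inter, subset_inter_iff]
  have h2 : univ.filter (fun T : Finset α => T ⊆ P) ∪ univ.filter (fun T : Finset α => T ⊆ Q)
      ⊆ univ.filter (fun T : Finset α => T ⊆ P ∪ Q) := by
    intro T
    simp only [mem_filter, mem_univ, true_and, mem_union]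
    rintro (h | h)
    · exact h.trans subset_union_left
    · exact h.trans subset_union_right
  rw [h1]
  have h3 := sum_union_inter (s₁ := univ.filter (fun T : Finset α => T ⊆ P))
    (s₂ := univ.filter (fun T : Finset α => T ⊆ Q)) (f := fun T => m T)
  have h4 := sum_le_sum_of_subset (f := fun T => m T) h2
  omega

/-- Hall-Rado condition. -/
def Hall (m : Finset α →₀ ℕ) : Prop := ∀ P : Finset α, cnt m P = 0 ∨ cnt m P + 2 ≤ P.card

instance (m : Finset α →₀ ℕ) : Decidable (Hall m) := by unfold Hall; infer_instance

theorem Hall.mono {m m' : Finset α →₀ ℕ} (h : Hall m) (hle : ∀ P, cnt m' P ≤ cnt m P) :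
    Hall m' := by
  intro P
  have h1 := h P
  have h2 := hle P
  omega

section

variable {S T : Finset α} (hST : ¬ Compat S T) (m : Finset α →₀ ℕ)
include hST

theorem hall_of_both
    (h1 : Hall (m + Finsupp.single (S ∪ T) 1 + Finsupp.single T 1))
    (h2 : Hall (m + Finsupp.single S 1 + Finsupp.single (S ∪ T) 1)) :
    Hall (m + Finsupp.single S 1 + Finsupp.single T 1) := by
  intro P
  have h1 := h1 P
  have h2 := h2 P
  rw [cnt_add, cnt_add, cnt_single, cnt_single] at h1 h2 ⊢
  by_cases hS : S ⊆ P
  · by_cases hT : T ⊆ P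
    · rw [if_pos (union_subset hS hT), if_pos hT] at h1
      rw [if_pos hS, if_pos hT]
      exact h1
    · have : ¬ S ∪ T ⊆ P := fun h => hT (subset_union_right.trans h)
      rw [if_pos hS, if_neg this] at h2
      rw [if_pos hS, if_neg hT]
      exact h2
  · have : ¬ S ∪ T ⊆ P := fun h => hS (subset_union_left.trans h)
    rw [if_neg this] at h1
    rw [if_neg hS]
    exact h1

theorem hall_or (h : Hall (m + Finsupp.single (S ∪ T) 1 + Finsupp.single (S ∪ T) 1)) :
    Hall (m + Finsupp.single (S ∪ T) 1 + Finsupp.single T 1) ∨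
    Hall (m + Finsupp.single S 1 + Finsupp.single (S ∪ T) 1) := by
  by_contra hcon
  rw [not_or] at hcon
  obtain ⟨h1, h2⟩ := hcon
  unfold Hall at h1 h2
  push Not at h1 h2
  obtain ⟨P, hP0, hP⟩ := h1
  obtain ⟨Q, hQ0, hQ⟩ := h2
  have dP := h P
  have dQ := h Q
  have dI := h (P ∩ Q)
  have dU := h (P ∪ Q)
  simp only [cnt_add, cnt_single] at hP0 hP hQ0 hQ dP dQ dI dU
  have hSTne : (S ∩ T).Nonempty := by
    rw [nonempty_iff_ne_empty]
    intro h0
    exact hST (Or.inr (Or.inr (disjoint_iff_inter_eq_empty.mpr h0)))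
  -- analysis of `P`
  have hVP : ¬ S ∪ T ⊆ P := by
    intro hV
    have hT : T ⊆ P := subset_union_right.trans hV
    rw [if_pos hV, if_pos hT] at hP
    rw [if_pos hV] at dP
    omega
  have hTP : T ⊆ P := by
    by_contra hT
    rw [if_neg hVP, if_neg hT] at hP0 hP
    rw [if_neg hVP] at dP
    omega
  have hSP : ¬ S ⊆ P := fun hS => hVP (union_subset hS hTP)
  -- analysis of `Q`
  have hVQ : ¬ S ∪ T ⊆ Q := by
    intro hV
    have hS : S ⊆ Q := subset_union_left.trans hV
    rw [if_pos hV, if_pos hS] at hQ
    rw [if_pos hV] at dQ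
    omega
  have hSQ : S ⊆ Q := by
    by_contra hS
    rw [if_neg hVQ, if_neg hS] at hQ0 hQ
    rw [if_neg hVQ] at dQ
    omega
  rw [if_neg hVP, if_pos hTP] at hP
  rw [if_pos hSQ, if_neg hVQ] at hQ
  have hVU : S ∪ T ⊆ P ∪ Q := union_subset (hSQ.trans subset_union_right)
    (hTP.trans subset_union_left)
  have hVI : ¬ S ∪ T ⊆ P ∩ Q := fun h => hSP (subset_union_left.trans (h.trans inter_subset_left))
  rw [if_pos hVU] at dU
  rw [if_neg hVI] at dI
  have hI1 : 1 ≤ (P ∩ Q).card := by
    apply card_pos.mpr
    obtain ⟨x, hx⟩ := hSTne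
    rw [mem_inter] at hx
    exact ⟨x, mem_inter.mpr ⟨hTP hx.2, hSQ hx.1⟩⟩
  have hcards := card_union_add_card_inter P Q
  have hsup := cnt_super m P Q
  omega

end

/-- Value of the functional on a monomial. -/
noncomputable def hrVal (m : Finset α →₀ ℕ) : ℚ :=
  if m.degree + 2 = Fintype.card α ∧ Hall m then 1 else 0

/-- The Hall-Rado functional. -/
noncomputable def hrD (α : Type*) [DecidableEq α] [Fintype α] :
    MvPolynomial (Finset α) ℚ →ₗ[ℚ] ℚ :=
  (basisMonomials (Finset α) ℚ).constr ℚ hrVal

theorem hrD_monomial (m : Finset α →₀ ℕ) : hrD α (monomial m 1) = hrVal m := by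
  have := (basisMonomials (Finset α) ℚ).constr_basis ℚ hrVal m
  rwa [coe_basisMonomials] at this

theorem hrVal_identity {S T : Finset α} (hST : ¬ Compat S T) (m : Finset α →₀ ℕ) :
    hrVal (m + Finsupp.single (S ∪ T) 1 + Finsupp.single (S ∪ T) 1)
      - hrVal (m + Finsupp.single (S ∪ T) 1 + Finsupp.single T 1)
      - hrVal (m + Finsupp.single S 1 + Finsupp.single (S ∪ T) 1)
      + hrVal (m + Finsupp.single S 1 + Finsupp.single T 1) = 0 := by
  unfold hrVal
  simp only [map_add, Finsupp.degree_single]
  by_cases hd : m.degree + 1 + 1 + 2 = Fintype.card α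
  · simp only [hd, true_and]
    have hab : Hall (m + Finsupp.single S 1 + Finsupp.single T 1) →
        Hall (m + Finsupp.single (S ∪ T) 1 + Finsupp.single T 1) := by
      intro h
      apply h.mono
      intro P
      rw [cnt_add, cnt_add, cnt_add, cnt_add, cnt_single, cnt_single, cnt_single]
      by_cases h1 : S ∪ T ⊆ P
      · rw [if_pos h1, if_pos (subset_union_left.trans h1)]
      · rw [if_neg h1]; omega
    have hac : Hall (m + Finsupp.single S 1 + Finsupp.single T 1) →
        Hall (m + Finsupp.single S 1 + Finsupp.single (S ∪ T) 1) := by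
      intro h
      apply h.mono
      intro P
      rw [cnt_add, cnt_add, cnt_add, cnt_add, cnt_single, cnt_single, cnt_single]
      by_cases h1 : S ∪ T ⊆ P
      · rw [if_pos h1, if_pos (subset_union_right.trans h1)]
      · rw [if_neg h1]; omega
    have hbd : Hall (m + Finsupp.single (S ∪ T) 1 + Finsupp.single T 1) →
        Hall (m + Finsupp.single (S ∪ T) 1 + Finsupp.single (S ∪ T) 1) := by
      intro h
      apply h.mono
      intro P
      rw [cnt_add, cnt_add, cnt_add, cnt_add, cnt_single, cnt_single]
      by_cases h1 : S ∪ T ⊆ P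
      · rw [if_pos h1, if_pos (subset_union_right.trans h1)]
      · rw [if_neg h1]; omega
    have hcd : Hall (m + Finsupp.single S 1 + Finsupp.single (S ∪ T) 1) →
        Hall (m + Finsupp.single (S ∪ T) 1 + Finsupp.single (S ∪ T) 1) := by
      intro h
      apply h.mono
      intro P
      rw [cnt_add, cnt_add, cnt_add, cnt_add, cnt_single, cnt_single]
      by_cases h1 : S ∪ T ⊆ P
      · rw [if_pos h1, if_pos (subset_union_left.trans h1)]
      · rw [if_neg h1]; omega
    have hbc := hall_of_both hST m
    have hor := hall_or hST m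
    by_cases ha : Hall (m + Finsupp.single S 1 + Finsupp.single T 1)
    · rw [if_pos ha, if_pos (hab ha), if_pos (hac ha), if_pos (hbd (hab ha))]
      norm_num
    · rw [if_neg ha]
      by_cases hb : Hall (m + Finsupp.single (S ∪ T) 1 + Finsupp.single T 1)
      · have hc : ¬ Hall (m + Finsupp.single S 1 + Finsupp.single (S ∪ T) 1) :=
          fun hc => ha (hbc hb hc)
        rw [if_pos hb, if_neg hc, if_pos (hbd hb)]
        norm_num
      · by_cases hc : Hall (m + Finsupp.single S 1 + Finsupp.single (S ∪ T) 1)
        · rw [if_neg hb, if_pos hc, if_pos (hcd hc)]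
          norm_num
        · have hd' : ¬ Hall (m + Finsupp.single (S ∪ T) 1 + Finsupp.single (S ∪ T) 1) := by
            intro h
            rcases hor h with h | h
            · exact hb h
            · exact hc h
          rw [if_neg hb, if_neg hc, if_neg hd']
          norm_num
  · simp only [hd, false_and, if_false]
    norm_num

/-- Polynomials all of whose multiples are killed. -/
noncomputable def hrI (α : Type*) [DecidableEq α] [Fintype α] :
    Ideal (MvPolynomial (Finset α) ℚ) where
  carrier := {q | ∀ r, hrD α (q * r) = 0}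
  add_mem' := by
    intro a b ha hb r
    rw [add_mul, map_add, ha r, hb r, add_zero]
  zero_mem' := by
    intro r
    rw [zero_mul, map_zero]
  smul_mem' := by
    intro c x hx r
    rw [smul_eq_mul, mul_comm c x, mul_assoc]
    exact hx _

theorem mem_hrI_of_monomial {q : MvPolynomial (Finset α) ℚ}
    (h : ∀ m : Finset α →₀ ℕ, hrD α (q * monomial m 1) = 0) : q ∈ hrI α := by
  intro r
  induction r using MvPolynomial.induction_on' with
  | monomial u a =>
    have : (monomial u a : MvPolynomial (Finset α) ℚ) = a • monomial u 1 := by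
      rw [smul_monomial, smul_eq_mul, mul_one]
    rw [this, mul_smul_comm, map_smul, h u, smul_zero]
  | add p q hp hq => rw [mul_add, map_add, hp, hq, add_zero]

theorem mono_mul_X (m : Finset α →₀ ℕ) (S T : Finset α) :
    (X S * X T * monomial m 1 : MvPolynomial (Finset α) ℚ)
      = monomial (m + Finsupp.single S 1 + Finsupp.single T 1) 1 := by
  unfold X
  rw [monomial_mul, monomial_mul, one_mul, one_mul]
  congr 1
  rw [add_comm, ← add_assoc]

theorem cross_mem_hrI {S T : Finset α} (hST : ¬ Compat S T) :
    ((X (S ∪ T) - X S) * (X (S ∪ T) - X T) : MvPolynomial (Finset α) ℚ) ∈ hrI α := by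
  apply mem_hrI_of_monomial
  intro m
  have e : ((X (S ∪ T) - X S) * (X (S ∪ T) - X T) * monomial m 1 : MvPolynomial (Finset α) ℚ)
      = X (S ∪ T) * X (S ∪ T) * monomial m 1 - X (S ∪ T) * X T * monomial m 1
        - X S * X (S ∪ T) * monomial m 1 + X S * X T * monomial m 1 := by ring
  rw [e, mono_mul_X, mono_mul_X, mono_mul_X, mono_mul_X, map_add, map_sub, map_sub, hrD_monomial,
    hrD_monomial, hrD_monomial, hrD_monomial]
  exact hrVal_identity hST m

theorem pair_mem_hrI {a b : α} (hab : a ≠ b) :
    (X ({a, b} : Finset α) : MvPolynomial (Finset α) ℚ) ∈ hrI α := by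
  apply mem_hrI_of_monomial
  intro m
  have e : (X ({a, b} : Finset α) * monomial m 1 : MvPolynomial (Finset α) ℚ)
      = monomial (Finsupp.single {a, b} 1 + m) 1 := by
    unfold X
    rw [monomial_mul, one_mul]
  rw [e, hrD_monomial]
  unfold hrVal
  rw [if_neg]
  rintro ⟨_, h⟩
  have h1 := h {a, b}
  rw [cnt_add, cnt_single, if_pos (Subset.refl _), card_pair hab] at h1
  omega

/-- Expression of the boundary variables through the simplicial variables. -/
noncomputable def xh (T : Finset α) : MvPolynomial (Finset α) ℚ :=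
  - X T - ∑ T' ∈ (univ.filter (fun T' : Finset α => T ⊂ T')).attach, xh T'.1
termination_by Fintype.card α - T.card
decreasing_by
  have h1 := card_lt_card (mem_filter.mp T'.2).2
  have h2 := card_le_univ (T' : Finset α)
  omega

theorem xh_eq (T : Finset α) :
    xh T + ∑ T' ∈ univ.filter (fun T' : Finset α => T ⊂ T'), xh T' = - X T := by
  rw [xh, sum_attach (univ.filter (fun T' : Finset α => T ⊂ T')) (fun T' => xh T')]
  ring

theorem xh_sum (T : Finset α) :
    ∑ T' ∈ univ.filter (fun T' : Finset α => T ⊆ T'), xh T' = - X T := by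
  have h : univ.filter (fun T' : Finset α => T ⊆ T')
      = insert T (univ.filter (fun T' : Finset α => T ⊂ T')) := by
    ext T'
    simp only [mem_filter, mem_univ, true_and, mem_insert]
    constructor
    · intro h
      rcases eq_or_ssubset_of_subset h with h | h
      · exact Or.inl h.symm
      · exact Or.inr h
    · rintro (h | h)
      · rw [h]
      · exact h.subset
  rw [h, sum_insert (by simp), xh_eq]

theorem xh_sum_diff (S T : Finset α) :
    ∑ A ∈ univ.filter (fun A : Finset α => S ⊆ A ∧ ¬ T ⊆ A), xh A = X (S ∪ T) - X S := by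
  have h1 := xh_sum S
  have h2 := xh_sum (S ∪ T)
  have e : univ.filter (fun A : Finset α => S ⊆ A)
      = (univ.filter (fun A : Finset α => S ⊆ A ∧ ¬ T ⊆ A)) ∪
        (univ.filter (fun A : Finset α => S ∪ T ⊆ A)) := by
    ext A
    simp only [mem_filter, mem_univ, true_and, mem_union, union_subset_iff]
    tauto
  rw [e, sum_union, h2] at h1
  · linear_combination h1
  · rw [disjoint_left]
    intro A hA1 hA2
    rw [mem_filter] at hA1 hA2
    exact hA1.2.2 (subset_union_right.trans hA2.2)

theorem isHomogeneous_xh : ∀ (n : ℕ) (T : Finset α), Fintype.card α - T.card = n →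
    (xh T).IsHomogeneous 1 := by
  intro n
  induction n using Nat.strong_induction_on with
  | _ n ih =>
    intro T hT
    have h1 : xh T = - X T - ∑ T' ∈ univ.filter (fun T' : Finset α => T ⊂ T'), xh T' := by
      rw [← xh_eq T]; ring
    rw [h1]
    apply IsHomogeneous.sub
    · exact (isHomogeneous_X _ _).neg
    · apply IsHomogeneous.sum
      intro T' hT'
      rw [mem_filter] at hT'
      have h2 := card_lt_card hT'.2
      have h3 := card_le_univ T'
      exact ih (Fintype.card α - T'.card) (by omega) T' rfl

/-- Products of crossing variables are killed. -/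
theorem xh_cross_mem : ∀ (n : ℕ) (S T : Finset α), 2 * Fintype.card α - (S.card + T.card) = n →
    ¬ Compat S T → xh S * xh T ∈ hrI α := by
  intro n
  induction n using Nat.strong_induction_on with
  | _ n ih =>
    intro S T hn hST
    have h1 := cross_mem_hrI hST
    have h2 : (X (S ∪ T) - X T : MvPolynomial (Finset α) ℚ)
        = ∑ B ∈ univ.filter (fun B : Finset α => T ⊆ B ∧ ¬ S ⊆ B), xh B := by
      rw [xh_sum_diff, union_comm]
    rw [h2, ← xh_sum_diff S T, sum_mul_sum, ← sum_product'] at h1
    have hmem : (S, T) ∈ (univ.filter (fun A : Finset α => S ⊆ A ∧ ¬ T ⊆ A)) ×ˢ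
        (univ.filter (fun B : Finset α => T ⊆ B ∧ ¬ S ⊆ B)) := by
      rw [mem_product, mem_filter, mem_filter]
      exact ⟨⟨mem_univ _, Subset.refl _, fun h => hST (Or.inr (Or.inl h))⟩,
        ⟨mem_univ _, Subset.refl _, fun h => hST (Or.inl h)⟩⟩
    rw [← add_sum_erase _ _ hmem] at h1
    have hSTne : (S ∩ T).Nonempty := by
      rw [nonempty_iff_ne_empty]
      intro h0
      exact hST (Or.inr (Or.inr (disjoint_iff_inter_eq_empty.mpr h0)))
    obtain ⟨x, hx⟩ := hSTne
    rw [mem_inter] at hx
    have h3 : (∑ p ∈ ((univ.filter (fun A : Finset α => S ⊆ A ∧ ¬ T ⊆ A)) ×ˢ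
        (univ.filter (fun B : Finset α => T ⊆ B ∧ ¬ S ⊆ B))).erase (S, T), xh p.1 * xh p.2)
        ∈ hrI α := by
      apply Ideal.sum_mem
      rintro ⟨A, B⟩ hAB
      rw [mem_erase, mem_product, mem_filter, mem_filter] at hAB
      obtain ⟨hne, ⟨-, hSA, hTA⟩, ⟨-, hTB, hSB⟩⟩ := hAB
      simp only at hSA hTA hTB hSB ⊢
      have hcross : ¬ Compat A B := by
        rintro (h | h | h)
        · exact hSB (hSA.trans h)
        · exact hTA (hTB.trans h)
        · exact disjoint_left.mp h (hSA hx.1) (hTB hx.2)
      have hA := card_le_univ A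
      have hB := card_le_univ B
      have hlt : S.card + T.card < A.card + B.card := by
        have h1 := card_le_card hSA
        have h2 := card_le_card hTB
        by_contra hge
        have h3 : S = A := eq_of_subset_of_card_le hSA (by omega)
        have h4 : T = B := eq_of_subset_of_card_le hTB (by omega)
        exact hne (by rw [h3, h4])
      exact ih (2 * Fintype.card α - (A.card + B.card)) (by omega) A B rfl hcross
    have := Ideal.sub_mem _ h1 h3
    convert this using 1
    ring

/-- Substitution. -/
noncomputable def hrPhi (α : Type*) [DecidableEq α] [Fintype α] :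
    MvPolynomial (Finset α) ℚ →ₐ[ℚ] MvPolynomial (Finset α) ℚ :=
  aeval (fun T => if 2 ≤ T.card then xh T else 0)

theorem hrPhi_X (T : Finset α) : hrPhi α (X T) = if 2 ≤ T.card then xh T else 0 := by
  simp [hrPhi]

/-- The degree functional on polynomials. -/
noncomputable def degP (α : Type*) [DecidableEq α] [Fintype α] :
    MvPolynomial (Finset α) ℚ →ₗ[ℚ] ℚ := hrD α ∘ₗ (hrPhi α).toLinearMap

theorem degP_apply (p : MvPolynomial (Finset α) ℚ) : degP α p = hrD α (hrPhi α p) := rfl

/-- Singletons. -/
def sing (α : Type*) [DecidableEq α] [Fintype α] : Finset (Finset α) :=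
  univ.filter (fun A : Finset α => A.card = 1)

theorem mem_sing {A : Finset α} : A ∈ sing α ↔ A.card = 1 := by simp [sing]

theorem isBlocks_sing : IsBlocks (sing α) := by
  refine ⟨?_, ?_⟩
  · intro A hA
    rw [mem_sing] at hA
    apply card_pos.mp
    omega
  · intro A hA B hB hne
    rw [mem_sing, card_eq_one] at hA hB
    obtain ⟨a, rfl⟩ := hA
    obtain ⟨b, rfl⟩ := hB
    rw [disjoint_singleton]
    rintro rfl
    exact hne rfl

theorem U_sing : U (sing α) = univ := by
  ext x
  rw [mem_U]
  constructor
  · intro _; exact mem_univ _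
  · intro _; exact ⟨{x}, by rw [mem_sing, card_singleton], mem_singleton_self x⟩

theorem card_sing : (sing α).card = Fintype.card α := by
  have h : sing α = univ.image (fun a : α => ({a} : Finset α)) := by
    ext A
    rw [mem_sing, card_eq_one, mem_image]
    constructor
    · rintro ⟨a, rfl⟩; exact ⟨a, mem_univ _, rfl⟩
    · rintro ⟨a, _, rfl⟩; exact ⟨a, rfl⟩
  rw [h, card_image_of_injective _ (fun a b h => by simpa using h), card_univ]

theorem valid_sing {T : Finset α} : Valid (sing α) T ↔ 2 ≤ T.card := by
  constructor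
  · rintro ⟨_, _, h3, h4⟩
    rw [mem_sing] at h3
    have := card_pos.mpr h4
    omega
  · intro h
    refine ⟨?_, ?_, ?_, ?_⟩
    · rw [U_sing]; exact subset_univ _
    · intro A hA
      rw [mem_sing, card_eq_one] at hA
      obtain ⟨a, rfl⟩ := hA
      by_cases ha : a ∈ T
      · exact Or.inl (singleton_subset_iff.mpr ha)
      · exact Or.inr (disjoint_singleton_left.mpr ha)
    · rw [mem_sing]; omega
    · apply card_pos.mp; omega

theorem bI_le_hrI : bI (sing α) ≤ (hrI α).comap (hrPhi α) := by
  unfold bI
  rw [Ideal.span_le]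
  rintro q ((⟨T, hT, rfl⟩ | ⟨T₁, T₂, hT, rfl⟩) | ⟨A, hA, B, hB, a, ha, b, hb, hne, rfl⟩)
  · simp only [SetLike.mem_coe, Ideal.mem_comap]
    rw [valid_sing] at hT
    rw [hrPhi_X, if_neg hT]
    exact Ideal.zero_mem _
  · simp only [SetLike.mem_coe, Ideal.mem_comap]
    rw [map_mul, hrPhi_X, hrPhi_X]
    split_ifs
    · exact xh_cross_mem _ T₁ T₂ rfl hT
    · rw [mul_zero]; exact Ideal.zero_mem _
    · rw [zero_mul]; exact Ideal.zero_mem _
    · rw [mul_zero]; exact Ideal.zero_mem _
  · simp only [SetLike.mem_coe, Ideal.mem_comap]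
    have hab : a ≠ b := by
      rintro rfl
      exact disjoint_left.mp (isBlocks_sing.disj A hA B hB hne) ha hb
    have e : univ.filter (fun T : Finset α => a ∈ T ∧ b ∈ T)
        = univ.filter (fun T : Finset α => {a, b} ⊆ T) := by
      ext T
      simp only [mem_filter, mem_univ, true_and, insert_subset_iff, singleton_subset_iff]
    rw [e, map_sum]
    have h1 : ∑ T ∈ univ.filter (fun T : Finset α => {a, b} ⊆ T), hrPhi α (X T)
        = ∑ T ∈ univ.filter (fun T : Finset α => {a, b} ⊆ T), xh T := by
      apply sum_congr rfl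
      intro T hT
      rw [mem_filter] at hT
      rw [hrPhi_X, if_pos]
      rw [← card_pair hab]
      exact card_le_card hT.2
    rw [h1, xh_sum]
    exact (Ideal.neg_mem_iff _).mpr (pair_mem_hrI hab)

theorem isHomogeneous_hrPhi {p : MvPolynomial (Finset α) ℚ} {k : ℕ} (hp : p.IsHomogeneous k) :
    (hrPhi α p).IsHomogeneous k := by
  have h1 : ∀ T : Finset α, (if 2 ≤ T.card then xh T else 0 :
      MvPolynomial (Finset α) ℚ).IsHomogeneous 1 := by
    intro T
    split_ifs
    · exact isHomogeneous_xh _ T rfl
    · exact isHomogeneous_zero _ _ _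
  have := hp.aeval _ h1
  rwa [one_mul] at this

theorem hrD_homog {p : MvPolynomial (Finset α) ℚ} {k : ℕ} (hp : p.IsHomogeneous k)
    (hk : k + 2 ≠ Fintype.card α) : hrD α p = 0 := by
  rw [p.as_sum, map_sum]
  apply sum_eq_zero
  intro m hm
  have hmd : m.degree = k := by
    have := hp (mem_support_iff.mp hm)
    rw [Finsupp.degree_eq_weight_one]
    exact this
  have : (monomial m (coeff m p) : MvPolynomial (Finset α) ℚ) = (coeff m p) • monomial m 1 := by
    rw [smul_monomial, smul_eq_mul, mul_one]
  rw [this, map_smul, hrD_monomial]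
  unfold hrVal
  rw [if_neg, smul_zero]
  rintro ⟨h, _⟩
  omega

/-- The degree functional exists. -/
theorem isDeg_degP (h2 : 2 ≤ Fintype.card α) : IsDeg (sing α) 1 (degP α) := by
  refine ⟨?_, ?_, ?_⟩
  · intro p hp
    have := bI_le_hrI hp
    rw [Ideal.mem_comap] at this
    have h1 := this 1
    rw [mul_one] at h1
    rw [degP_apply]
    exact h1
  · intro k p hp hk
    rw [card_sing] at hk
    rw [degP_apply]
    exact hrD_homog (isHomogeneous_hrPhi hp) hk
  · rw [U_sing, card_sing, degP_apply, map_pow, map_neg, hrPhi_X, if_pos (by rwa [card_univ])]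
    have h1 : -xh (univ : Finset α) = X univ := by
      have h := xh_eq (univ : Finset α)
      have e : univ.filter (fun T' : Finset α => univ ⊂ T') = ∅ := by
        ext T'
        simp only [mem_filter, mem_univ, true_and, notMem_empty, iff_false]
        intro h
        exact h.2 (subset_univ _)
      rw [e, sum_empty, add_zero] at h
      rw [h, neg_neg]
    rw [h1, X_pow_eq_monomial, hrD_monomial]
    unfold hrVal
    rw [if_pos]
    refine ⟨?_, ?_⟩
    · rw [Finsupp.degree_single]; omega
    · intro P
      by_cases hP : P = univ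
      · right
        rw [hP, card_univ]
        have : cnt (Finsupp.single (univ : Finset α) (Fintype.card α - 2)) univ
            = Fintype.card α - 2 := by
          unfold cnt
          rw [sum_eq_single univ]
          · simp
          · intro T _ hT
            rw [Finsupp.single_apply, if_neg hT.symm]
          · intro h
            exact (h (mem_filter.mpr ⟨mem_univ _, Subset.refl _⟩)).elim
        omega
      · left
        unfold cnt
        apply sum_eq_zero
        intro T hT
        rw [Finsupp.single_apply, if_neg]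
        rintro rfl
        exact hP (univ_subset_iff.mp (mem_filter.mp hT).2)

end Pool.Agent.helper17
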