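import Mathlib

/-!
Rooted Keel presentation (De Concini-Procesi form) of the rational Chow ring of the moduli
space of stable rational curves whose markings are one root point and the elements of `α`.
-/

open Finset

set_option linter.unusedSectionVars false

namespace Pool.Agent.helper17

section Defs

variable (α : Type*) [DecidableEq α] [Fintype α]

/-- Relations of the Chow ring. -/
def relations : Set (MvPolynomial (Finset α) ℚ) :=
  {p | ∃ S : Finset α, S.card < 2 ∧ p = MvPolynomial.X S} ∪
  {p | ∃ S T : Finset α, (S ∩ T).Nonempty ∧ ¬ S ⊆ T ∧ ¬ T ⊆ S ∧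
      p = MvPolynomial.X S * MvPolynomial.X T} ∪
  {p | ∃ a b : α, a ≠ b ∧
      p = ∑ S ∈ univ.filter (fun S : Finset α => a ∈ S ∧ b ∈ S), MvPolynomial.X S}

/-- The Chow ring. -/
abbrev ChowRing : Type _ := MvPolynomial (Finset α) ℚ ⧸ Ideal.span (relations α)

end Defs

variable {α : Type*} [DecidableEq α] [Fintype α]

/-- The class attached to a subset. -/
noncomputable def bd (S : Finset α) : ChowRing α :=
  Ideal.Quotient.mk (Ideal.span (relations α)) (MvPolynomial.X S)

/-- The cotangent class at the root. -/
noncomputable def psi (α : Type*) [DecidableEq α] [Fintype α] : ChowRing α := - bd (univ : Finset α)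

theorem bd_small {S : Finset α} (h : S.card < 2) : bd S = 0 := by
  refine Ideal.Quotient.eq_zero_iff_mem.mpr (Ideal.subset_span ?_)
  exact Or.inl (Or.inl ⟨S, h, rfl⟩)

/-- Nested or disjoint. -/
def Compat (S T : Finset α) : Prop := S ⊆ T ∨ T ⊆ S ∨ Disjoint S T

instance (S T : Finset α) : Decidable (Compat S T) := by unfold Compat; infer_instance

theorem Compat.symm {S T : Finset α} (h : Compat S T) : Compat T S := by
  rcases h with h | h | h
  · exact Or.inr (Or.inl h)
  · exact Or.inl h
  · exact Or.inr (Or.inr h.symm)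

theorem bd_cross {S T : Finset α} (h : ¬ Compat S T) : bd S * bd T = 0 := by
  unfold Compat at h
  push Not at h
  obtain ⟨h1, h2, h3⟩ := h
  have h3' : (S ∩ T).Nonempty := by
    rw [Finset.not_disjoint_iff_nonempty_inter] at h3
    exact h3
  unfold bd
  rw [← map_mul]
  refine Ideal.Quotient.eq_zero_iff_mem.mpr (Ideal.subset_span ?_)
  exact Or.inl (Or.inr ⟨S, T, h3', h1, h2, rfl⟩)

theorem bd_lin {a b : α} (h : a ≠ b) :
    ∑ S ∈ univ.filter (fun S : Finset α => a ∈ S ∧ b ∈ S), bd S = 0 := by
  unfold bd
  rw [← map_sum]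
  refine Ideal.Quotient.eq_zero_iff_mem.mpr (Ideal.subset_span ?_)
  exact Or.inr ⟨a, b, h, rfl⟩

theorem psi_eq {a b : α} (h : a ≠ b) :
    psi α = ∑ S ∈ univ.filter (fun S : Finset α => a ∈ S ∧ b ∈ S ∧ S ≠ univ), bd S := by
  have h1 := bd_lin (α := α) h
  have h2 : (univ.filter (fun S : Finset α => a ∈ S ∧ b ∈ S))
      = insert univ (univ.filter (fun S : Finset α => a ∈ S ∧ b ∈ S ∧ S ≠ univ)) := by
    ext S
    simp only [mem_filter, mem_univ, true_and, mem_insert]
    constructor
    · rintro ⟨h1, h2⟩
      by_cases hS : S = univ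
      · exact Or.inl hS
      · exact Or.inr ⟨h1, h2, hS⟩
    · rintro (h1 | ⟨h1, h2, -⟩)
      · subst h1; simp
      · exact ⟨h1, h2⟩
  rw [h2, sum_insert (by simp)] at h1
  unfold psi
  linear_combination (-1 : ChowRing α) * h1

/-- A nested family: dual to a boundary stratum. -/
structure Nested (F : Finset (Finset α)) : Prop where
  two_le : ∀ S ∈ F, 2 ≤ S.card
  ne_univ : ∀ S ∈ F, S ≠ univ
  compat : ∀ S ∈ F, ∀ T ∈ F, S ⊆ T ∨ T ⊆ S ∨ Disjoint S T

/-- The class of a boundary stratum. -/
noncomputable def strat (F : Finset (Finset α)) : ChowRing α := ∏ S ∈ F, bd S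

theorem strat_insert {F : Finset (Finset α)} {T : Finset α} (h : T ∉ F) :
    strat (insert T F) = bd T * strat F := by
  unfold strat; rw [prod_insert h]

theorem bd_mul_strat_of_not_compat {F : Finset (Finset α)} {S T : Finset α} (hS : S ∈ F)
    (h : ¬ Compat T S) : bd T * strat F = 0 := by
  unfold strat
  rw [← mul_prod_erase F (fun S => bd S) hS, ← mul_assoc, bd_cross h, zero_mul]

theorem bd_mul_strat_of_not_nested {F : Finset (Finset α)} (hF : Nested F) {T : Finset α}
    (hTu : T ≠ univ) (h : ¬ Nested (insert T F)) : bd T * strat F = 0 := by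
  by_cases hT2 : T.card < 2
  · rw [bd_small hT2, zero_mul]
  · by_contra hne
    apply h
    have key : ∀ S ∈ F, Compat T S := by
      intro S hS
      by_contra hc
      exact hne (bd_mul_strat_of_not_compat hS hc)
    refine ⟨?_, ?_, ?_⟩
    · intro S hS
      rcases mem_insert.mp hS with rfl | hS
      · omega
      · exact hF.two_le S hS
    · intro S hS
      rcases mem_insert.mp hS with rfl | hS
      · exact hTu
      · exact hF.ne_univ S hS
    · intro S hS U hU
      rcases mem_insert.mp hS with hS1 | hS1
      · rcases mem_insert.mp hU with hU1 | hU1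
        · exact Or.inl (hS1.trans hU1.symm).subset
        · rw [hS1]; exact key U hU1
      · rcases mem_insert.mp hU with hU1 | hU1
        · rw [hU1]; exact (key S hS1).symm
        · exact hF.compat S hS1 U hU1

theorem Nested.of_insert {F : Finset (Finset α)} {T : Finset α} (h : Nested (insert T F)) :
    Nested F :=
  ⟨fun S hS => h.two_le S (mem_insert_of_mem hS), fun S hS => h.ne_univ S (mem_insert_of_mem hS),
   fun S hS U hU => h.compat S (mem_insert_of_mem hS) U (mem_insert_of_mem hU)⟩

/-! ### Children -/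

/-- The children of a vertex `V` of the rooted tree of a nested family. -/
def children (F : Finset (Finset α)) (V : Finset α) : Finset (Finset α) :=
  univ.filter (fun C : Finset α => (C ∈ F ∨ C.card = 1) ∧ C ⊂ V ∧ ∀ T ∈ F, C ⊂ T → ¬ T ⊂ V)

theorem mem_children {F : Finset (Finset α)} {V C : Finset α} :
    C ∈ children F V ↔ (C ∈ F ∨ C.card = 1) ∧ C ⊂ V ∧ ∀ T ∈ F, C ⊂ T → ¬ T ⊂ V := by
  simp [children]

theorem card_pos_of_block {F : Finset (Finset α)} (hF : Nested F) {C : Finset α}
    (h : C ∈ F ∨ C.card = 1) : 0 < C.card := by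
  rcases h with h | h
  · have := hF.two_le C h; omega
  · omega

theorem block_compat {F : Finset (Finset α)} (hF : Nested F) {C D : Finset α}
    (hC : C ∈ F ∨ C.card = 1) (hD : D ∈ F ∨ D.card = 1) : C ⊆ D ∨ D ⊆ C ∨ Disjoint C D := by
  rcases hC with hC | hC
  · rcases hD with hD | hD
    · exact hF.compat C hC D hD
    · obtain ⟨d, rfl⟩ := card_eq_one.mp hD
      by_cases h : d ∈ C
      · right; left; simpa using h
      · right; right; simpa using h
  · obtain ⟨c, rfl⟩ := card_eq_one.mp hC
    by_cases h : c ∈ D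
    · left; simpa using h
    · right; right; simpa using h

theorem children_disjoint {F : Finset (Finset α)} (hF : Nested F) {V C D : Finset α}
    (hC : C ∈ children F V) (hD : D ∈ children F V) (hne : C ≠ D) : Disjoint C D := by
  rw [mem_children] at hC hD
  rcases block_compat hF hC.1 hD.1 with h | h | h
  · exfalso
    have hss : C ⊂ D := h.ssubset_of_ne hne
    rcases hD.1 with hDF | hD1
    · exact hC.2.2 D hDF hss hD.2.1
    · have := card_lt_card hss
      have := card_pos_of_block hF hC.1
      omega
  · exfalso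
    have hss : D ⊂ C := h.ssubset_of_ne hne.symm
    rcases hC.1 with hCF | hC1
    · exact hD.2.2 C hCF hss hC.2.1
    · have := card_lt_card hss
      have := card_pos_of_block hF hD.1
      omega
  · exact h

theorem exists_child {F : Finset (Finset α)} {V : Finset α} (hV : 2 ≤ V.card) {a : α}
    (ha : a ∈ V) : ∃ C ∈ children F V, a ∈ C := by
  let s : Finset (Finset α) :=
    univ.filter (fun C : Finset α => (C ∈ F ∨ C.card = 1) ∧ C ⊂ V ∧ a ∈ C)
  have hs : s.Nonempty := by
    refine ⟨{a}, ?_⟩
    simp only [s, mem_filter, mem_univ, true_and, card_singleton, or_true, mem_singleton, and_true]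
    refine ssubset_of_subset_of_ne (by simpa using ha) ?_
    rintro rfl
    simp at hV
  obtain ⟨C, hCs, hCmax⟩ := exists_max_image s Finset.card hs
  simp only [s, mem_filter, mem_univ, true_and] at hCs
  refine ⟨C, ?_, hCs.2.2⟩
  rw [mem_children]
  refine ⟨hCs.1, hCs.2.1, ?_⟩
  intro T hT hCT hTV
  have hTs : T ∈ s := by
    simp only [s, mem_filter, mem_univ, true_and]
    exact ⟨Or.inl hT, hTV, hCT.subset hCs.2.2⟩
  have := hCmax T hTs
  have := card_lt_card hCT
  omega

theorem two_le_card_children {F : Finset (Finset α)} {V : Finset α}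
    (hV : 2 ≤ V.card) : 2 ≤ (children F V).card := by
  have hne : V.Nonempty := card_pos.mp (by omega)
  obtain ⟨a, ha⟩ := hne
  obtain ⟨C, hC, haC⟩ := exists_child (F := F) hV ha
  have hCV : C ⊂ V := (mem_children.mp hC).2.1
  obtain ⟨b, hbV, hbC⟩ := exists_of_ssubset hCV
  obtain ⟨D, hD, hbD⟩ := exists_child (F := F) hV hbV
  have hne : C ≠ D := by
    rintro rfl; exact hbC hbD
  have : ({C, D} : Finset (Finset α)) ⊆ children F V := by
    intro x hx
    simp only [mem_insert, mem_singleton] at hx
    rcases hx with rfl | rfl <;> assumption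
  calc 2 = ({C, D} : Finset (Finset α)).card := by rw [card_pair hne]
    _ ≤ _ := card_le_card this

end Pool.Agent.helper17
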