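import Pool.Agent.helper17.KeelBasic

open Finset

set_option linter.unusedSectionVars false

namespace Pool.Agent.helper17

variable {α : Type*} [DecidableEq α] [Fintype α]

/-! ### The partition of a vertex into its children -/

theorem biUnion_children {F : Finset (Finset α)} {V : Finset α} (hV : 2 ≤ V.card) :
    (children F V).biUnion id = V := by
  ext a
  simp only [mem_biUnion, id_eq]
  constructor
  · rintro ⟨C, hC, ha⟩
    exact (mem_children.mp hC).2.1.subset ha
  · intro ha
    exact exists_child hV ha

theorem sum_card_children {F : Finset (Finset α)} (hF : Nested F) {V : Finset α}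
    (hV : 2 ≤ V.card) : ∑ C ∈ children F V, C.card = V.card := by
  conv_rhs => rw [← biUnion_children (F := F) hV]
  rw [card_biUnion]
  · rfl
  · intro C hC D hD hne
    exact children_disjoint hF hC hD hne

theorem child_nonempty {F : Finset (Finset α)} (hF : Nested F) {V C : Finset α}
    (hC : C ∈ children F V) : C.Nonempty :=
  card_pos.mp (card_pos_of_block hF (mem_children.mp hC).1)

/-- Nodes of the tree different from the root: members of the family and singletons. -/
def nodes (F : Finset (Finset α)) : Finset (Finset α) :=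
  univ.filter (fun C : Finset α => C ∈ F ∨ C.card = 1)

theorem mem_nodes {F : Finset (Finset α)} {C : Finset α} :
    C ∈ nodes F ↔ C ∈ F ∨ C.card = 1 := by simp [nodes]

theorem exists_unique_parent {F : Finset (Finset α)} (hF : Nested F) (hN : 2 ≤ Fintype.card α)
    {C : Finset α} (hC : C ∈ nodes F) :
    ∃ V ∈ insert univ F, C ∈ children F V ∧ ∀ W ∈ insert univ F, C ∈ children F W → W = V := by
  have hC' := mem_nodes.mp hC
  have hCne : C ≠ univ := by
    rcases hC' with h | h
    · exact hF.ne_univ C h
    · rintro rfl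
      rw [card_univ] at h; omega
  have hCpos := card_pos_of_block hF hC'
  let s : Finset (Finset α) := (insert univ F).filter (fun V => C ⊂ V)
  have hs : s.Nonempty := by
    refine ⟨univ, ?_⟩
    simp only [s, mem_filter, mem_insert, true_or, true_and]
    exact (subset_univ C).ssubset_of_ne hCne
  obtain ⟨V, hVs, hVmin⟩ := exists_min_image s Finset.card hs
  simp only [s, mem_filter] at hVs
  have compat' : ∀ W ∈ insert univ F, ∀ U ∈ insert univ F, C ⊂ W → C ⊂ U → W ⊆ U ∨ U ⊆ W := by
    intro W hW U hU hCW hCU
    rcases mem_insert.mp hW with rfl | hW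
    · right; exact subset_univ _
    · rcases mem_insert.mp hU with rfl | hU
      · left; exact subset_univ _
      · rcases hF.compat W hW U hU with h | h | h
        · left; exact h
        · right; exact h
        · exfalso
          obtain ⟨c, hc⟩ := card_pos.mp hCpos
          exact (disjoint_left.mp h) (hCW.subset hc) (hCU.subset hc)
  have hchild : C ∈ children F V := by
    rw [mem_children]
    refine ⟨hC', hVs.2, ?_⟩
    intro T hT hCT hTV
    have hTs : T ∈ s := by
      simp only [s, mem_filter]
      exact ⟨mem_insert_of_mem hT, hCT⟩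
    have := hVmin T hTs
    have := card_lt_card hTV
    omega
  refine ⟨V, hVs.1, hchild, ?_⟩
  intro W hW hCW
  have hCW' := mem_children.mp hCW
  have hchild' := mem_children.mp hchild
  rcases compat' W hW V hVs.1 hCW'.2.1 hVs.2 with h | h
  · by_contra hne
    have hss : W ⊂ V := h.ssubset_of_ne hne
    rcases mem_insert.mp hW with rfl | hWF
    · exact absurd (subset_univ V) (fun h2 => hss.2 h2)
    · exact hchild'.2.2 W hWF hCW'.2.1 hss
  · by_contra hne
    have hss : V ⊂ W := h.ssubset_of_ne (fun h => hne h.symm)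
    rcases mem_insert.mp hVs.1 with hVu | hVF
    · rw [hVu] at hss
      exact absurd (subset_univ W) (fun h2 => hss.2 h2)
    · exact hCW'.2.2 V hVF hVs.2 hss

theorem sum_children {M : Type*} [AddCommMonoid M] {F : Finset (Finset α)} (hF : Nested F)
    (hN : 2 ≤ Fintype.card α) (h : Finset α → M) :
    ∑ V ∈ insert univ F, ∑ C ∈ children F V, h C = ∑ C ∈ nodes F, h C := by
  have h1 : ∀ V ∈ insert univ F, ∑ C ∈ children F V, h C
      = ∑ C ∈ nodes F, if C ∈ children F V then h C else 0 := by
    intro V _
    rw [← sum_filter]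
    apply sum_congr _ (fun _ _ => rfl)
    ext C
    simp only [mem_filter, mem_nodes]
    constructor
    · intro hC; exact ⟨(mem_children.mp hC).1, hC⟩
    · intro hC; exact hC.2
  rw [sum_congr rfl h1, sum_comm]
  apply sum_congr rfl
  intro C hC
  obtain ⟨V, hV, hCV, huniq⟩ := exists_unique_parent hF hN hC
  rw [sum_eq_single V]
  · rw [if_pos hCV]
  · intro W hW hne
    rw [if_neg]
    intro hCW
    exact hne (huniq W hW hCW)
  · intro h; exact absurd hV h

theorem card_nodes {F : Finset (Finset α)} (hF : Nested F) :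
    (nodes F).card = F.card + Fintype.card α := by
  have : nodes F = F ∪ (univ.filter (fun C : Finset α => C.card = 1)) := by
    ext C; simp [mem_nodes]
  rw [this, card_union_of_disjoint]
  · congr 1
    have h2 : (univ.filter (fun C : Finset α => C.card = 1)) = powersetCard 1 (univ : Finset α) := by
      ext C; simp [mem_powersetCard]
    rw [h2, card_powersetCard]
    simp
  · rw [disjoint_left]
    intro C hC hC1
    have := hF.two_le C hC
    simp at hC1
    omega

theorem two_le_vertex {F : Finset (Finset α)} (hF : Nested F) (hN : 2 ≤ Fintype.card α)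
    {V : Finset α} (hV : V ∈ insert univ F) : 2 ≤ V.card := by
  rcases mem_insert.mp hV with rfl | hV
  · rwa [card_univ]
  · exact hF.two_le V hV

/-- The number of children minus two, summed over all vertices, is the dimension. -/
theorem sum_card_children_sub_two {F : Finset (Finset α)} (hF : Nested F)
    (hN : 2 ≤ Fintype.card α) :
    ∑ V ∈ insert univ F, ((children F V).card - 2) + F.card + 2 = Fintype.card α := by
  have h1 : ∑ V ∈ insert univ F, (children F V).card = F.card + Fintype.card α := by
    have := sum_children hF hN (fun _ => 1)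
    simp only [sum_const, smul_eq_mul, mul_one] at this
    rw [this, card_nodes hF]
  have hu : (univ : Finset α) ∉ F := fun h => hF.ne_univ _ h rfl
  have h2 : ∑ V ∈ insert univ F, (children F V).card
      = ∑ V ∈ insert univ F, ((children F V).card - 2) + 2 * (F.card + 1) := by
    rw [← card_insert_of_notMem hu, mul_comm, ← smul_eq_mul, ← sum_const, ← sum_add_distrib]
    apply sum_congr rfl
    intro V hV
    have := two_le_card_children (F := F) (two_le_vertex hF hN hV)
    omega
  omega

/-! ### Root children and insertion of a union of root children -/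

section Insert

variable {F : Finset (Finset α)} (hF : Nested F)
include hF

theorem mem_rootChildren {C : Finset α} :
    C ∈ children F univ ↔ (C ∈ F ∨ C.card = 1) ∧ C ≠ univ ∧ ∀ T ∈ F, ¬ C ⊂ T := by
  rw [mem_children]
  constructor
  · rintro ⟨h1, h2, h3⟩
    refine ⟨h1, h2.ne, fun T hT hCT => h3 T hT hCT ((subset_univ T).ssubset_of_ne (hF.ne_univ T hT))⟩
  · rintro ⟨h1, h2, h3⟩
    exact ⟨h1, (subset_univ C).ssubset_of_ne h2, fun T hT hCT _ => h3 T hT hCT⟩

theorem not_subset_of_two_children {a b : α} {c₁ c₂ : Finset α} (hc₁ : c₁ ∈ children F univ)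
    (hc₂ : c₂ ∈ children F univ) (hne : c₁ ≠ c₂) (ha : a ∈ c₁) (hb : b ∈ c₂)
    {V : Finset α} (hV : V ∈ F ∨ V.card = 1) (haV : a ∈ V) : b ∉ V := by
  intro hbV
  have hdis := children_disjoint hF hc₁ hc₂ hne
  have hbc₁ : b ∉ c₁ := fun h => (disjoint_left.mp hdis) h hb
  have hc₁' := (mem_rootChildren hF).mp hc₁
  rcases block_compat hF hV hc₁'.1 with h | h | h
  · exact hbc₁ (h hbV)
  · have hss : c₁ ⊂ V := h.ssubset_of_ne (by rintro rfl; exact hbc₁ hbV)
    rcases hV with hV | hV
    · exact hc₁'.2.2 V hV hss
    · have h1 := card_lt_card hss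
      have h2 : 0 < c₁.card := card_pos.mpr ⟨a, ha⟩
      omega
  · exact (disjoint_left.mp h) haV ha

variable {T : Finset α} (hT : Nested (insert T F)) {a b : α} {c₁ c₂ : Finset α}
  (hc₁ : c₁ ∈ children F univ) (hc₂ : c₂ ∈ children F univ) (hne : c₁ ≠ c₂)
  (ha : a ∈ c₁) (hb : b ∈ c₂) (haT : a ∈ T) (hbT : b ∈ T)
include hT hc₁ hc₂ hne ha hb haT hbT

theorem not_le_of_mem {V : Finset α} (hV : V ∈ F) : ¬ T ⊆ V := fun h =>
  not_subset_of_two_children hF hc₁ hc₂ hne ha hb (Or.inl hV) (h haT) (h hbT)

theorem not_mem_of_two : T ∉ F := fun h =>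
  not_le_of_mem hF hT hc₁ hc₂ hne ha hb haT hbT h (Subset.refl T)

theorem children_insert_of_mem {V : Finset α} (hV : V ∈ F) :
    children (insert T F) V = children F V := by
  have hTV := not_le_of_mem hF hT hc₁ hc₂ hne ha hb haT hbT hV
  ext C
  rw [mem_children, mem_children]
  constructor
  · rintro ⟨h1, h2, h3⟩
    refine ⟨?_, h2, fun S hS => h3 S (mem_insert_of_mem hS)⟩
    rcases h1 with h1 | h1
    · rcases mem_insert.mp h1 with rfl | h1
      · exact absurd h2.subset hTV
      · exact Or.inl h1
    · exact Or.inr h1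
  · rintro ⟨h1, h2, h3⟩
    refine ⟨h1.imp (fun h => mem_insert_of_mem h) id, h2, ?_⟩
    intro S hS hCS hSV
    rcases mem_insert.mp hS with rfl | hS
    · exact hTV hSV.subset
    · exact h3 S hS hCS hSV

theorem children_insert_self :
    children (insert T F) T = (children F univ).filter (fun c => c ⊆ T) := by
  have hTF := not_mem_of_two hF hT hc₁ hc₂ hne ha hb haT hbT
  ext C
  rw [mem_children, mem_filter, mem_rootChildren hF]
  constructor
  · rintro ⟨h1, h2, h3⟩
    have hCT : C ≠ T := h2.ne
    have h1' : C ∈ F ∨ C.card = 1 := by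
      rcases h1 with h1 | h1
      · exact Or.inl (mem_of_mem_insert_of_ne h1 hCT)
      · exact Or.inr h1
    refine ⟨⟨h1', ?_, ?_⟩, h2.subset⟩
    · rintro rfl
      exact h2.2 (subset_univ T)
    · intro S hS hCS
      rcases hT.compat S (mem_insert_of_mem hS) T (mem_insert_self T F) with h | h | h
      · have hss : S ⊂ T := h.ssubset_of_ne (by rintro rfl; exact hTF hS)
        exact h3 S (mem_insert_of_mem hS) hCS hss
      · exact not_le_of_mem hF hT hc₁ hc₂ hne ha hb haT hbT hS h
      · obtain ⟨x, hx⟩ := card_pos.mp (card_pos_of_block hF h1')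
        exact (disjoint_left.mp h) (hCS.subset hx) (h2.subset hx)
  · rintro ⟨⟨h1, h2, h3⟩, h4⟩
    refine ⟨h1.imp (fun h => mem_insert_of_mem h) id, ?_, ?_⟩
    · refine h4.ssubset_of_ne ?_
      rintro rfl
      exact not_subset_of_two_children hF hc₁ hc₂ hne ha hb h1 haT hbT
    · intro S hS hCS hST
      rcases mem_insert.mp hS with rfl | hS
      · exact hST.2 (Subset.refl _)
      · exact h3 S hS hCS

theorem children_insert_univ :
    children (insert T F) univ = insert T ((children F univ).filter (fun c => ¬ c ⊆ T)) := by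
  have hTF := not_mem_of_two hF hT hc₁ hc₂ hne ha hb haT hbT
  ext C
  have hI : C ∈ insert T ((children F univ).filter (fun c => ¬ c ⊆ T)) ↔
      (C = T ∨ (C ∈ children F univ ∧ ¬ C ⊆ T)) := by rw [mem_insert, mem_filter]
  rw [mem_rootChildren hT, hI, mem_rootChildren hF]
  constructor
  · rintro ⟨h1, h2, h3⟩
    by_cases hCT : C = T
    · exact Or.inl hCT
    · right
      have h1' : C ∈ F ∨ C.card = 1 := by
        rcases h1 with h1 | h1
        · exact Or.inl (mem_of_mem_insert_of_ne h1 hCT)
        · exact Or.inr h1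
      refine ⟨⟨h1', h2, fun S hS => h3 S (mem_insert_of_mem hS)⟩, ?_⟩
      intro h
      exact h3 T (mem_insert_self T F) (h.ssubset_of_ne hCT)
  · rintro (rfl | ⟨⟨h1, h2, h3⟩, h4⟩)
    · refine ⟨Or.inl (mem_insert_self _ _), hT.ne_univ _ (mem_insert_self _ _), ?_⟩
      intro S hS hCS
      rcases mem_insert.mp hS with rfl | hS
      · exact hCS.2 (Subset.refl _)
      · exact not_le_of_mem hF hT hc₁ hc₂ hne ha hb haT hbT hS hCS.subset
    · refine ⟨h1.imp (fun h => mem_insert_of_mem h) id, h2, ?_⟩
      intro S hS hCS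
      rcases mem_insert.mp hS with rfl | hS
      · exact h4 hCS.subset
      · exact h3 S hS hCS

theorem rootChild_subset_or_disjoint {c : Finset α} (hc : c ∈ children F univ) :
    c ⊆ T ∨ Disjoint c T := by
  have hc' := (mem_rootChildren hF).mp hc
  have hcb : c ∈ insert T F ∨ c.card = 1 := hc'.1.imp (fun h => mem_insert_of_mem h) id
  rcases block_compat hT hcb (Or.inl (mem_insert_self T F)) with h | h | h
  · exact Or.inl h
  · exact absurd (h hbT) (not_subset_of_two_children hF hc₁ hc₂ hne ha hb hc'.1 (h haT))
  · exact Or.inr h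

theorem eq_biUnion_filter (hN : 2 ≤ Fintype.card α) :
    ((children F univ).filter (fun c => c ⊆ T)).biUnion id = T := by
  ext x
  simp only [mem_biUnion, mem_filter, id_eq]
  constructor
  · rintro ⟨c, ⟨_, hcT⟩, hx⟩
    exact hcT hx
  · intro hx
    obtain ⟨c, hc, hxc⟩ := exists_child (F := F) (V := univ) (by rwa [card_univ]) (mem_univ x)
    refine ⟨c, ⟨hc, ?_⟩, hxc⟩
    rcases rootChild_subset_or_disjoint hF hT hc₁ hc₂ hne ha hb haT hbT hc with h | h
    · exact h
    · exact absurd hx (disjoint_left.mp h hxc)

end Insert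

end Pool.Agent.helper17
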