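import Pool.Agent.helper17.KeelInsert

open Finset

set_option linter.unusedSectionVars false

namespace Pool.Agent.helper17

variable {α : Type*} [DecidableEq α] [Fintype α]

/-- Number of blocks of odd size. -/
def oddCount (P : Finset (Finset α)) : ℕ := (P.filter (fun c => Odd c.card)).card

/-- Weight of a vertex. -/
def vw (P : Finset (Finset α)) : ℚ :=
  if P.card = 2 then 1 else if P.card = 3 ∧ oddCount P = 3 then -1 else 0

/-- Indicator that exactly one block is odd. -/
def rho (P : Finset (Finset α)) : ℚ := if oddCount P = 1 then 1 else 0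

theorem oddCount_le_card (P : Finset (Finset α)) : oddCount P ≤ P.card := card_filter_le _ _

theorem oddCount_mono {C P : Finset (Finset α)} (h : C ⊆ P) : oddCount C ≤ oddCount P :=
  card_le_card (filter_subset_filter _ h)

theorem oddCount_pair {c₁ c₂ : Finset α} (hne : c₁ ≠ c₂) (h1 : ¬ Odd c₁.card)
    (h2 : ¬ Odd c₂.card) : oddCount {c₁, c₂} = 0 := by
  unfold oddCount
  rw [card_eq_zero, filter_eq_empty_iff]
  intro x hx
  simp only [mem_insert, mem_singleton] at hx
  rcases hx with rfl | rfl <;> assumption

theorem oddCount_pair' {c₁ c₂ : Finset α} (hne : c₁ ≠ c₂) (h1 : Odd c₁.card)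
    (h2 : Odd c₂.card) : oddCount {c₁, c₂} = 2 := by
  unfold oddCount
  rw [filter_true_of_mem, card_pair hne]
  intro x hx
  simp only [mem_insert, mem_singleton] at hx
  rcases hx with rfl | rfl <;> assumption

theorem pair_subset {C : Finset (Finset α)} {c₁ c₂ : Finset α} (h1 : c₁ ∈ C) (h2 : c₂ ∈ C) :
    ({c₁, c₂} : Finset (Finset α)) ⊆ C := by
  intro x hx
  simp only [mem_insert, mem_singleton] at hx
  rcases hx with rfl | rfl <;> assumption

theorem eq_pair_of_card {C : Finset (Finset α)} {c₁ c₂ : Finset α} (h1 : c₁ ∈ C) (h2 : c₂ ∈ C)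
    (hne : c₁ ≠ c₂) (hc : C.card = 2) : C = {c₁, c₂} := by
  symm
  apply eq_of_subset_of_card_le (pair_subset h1 h2)
  rw [hc, card_pair hne]

theorem all_odd_of {C : Finset (Finset α)} (h : oddCount C = C.card) {c : Finset α}
    (hc : c ∈ C) : Odd c.card := by
  unfold oddCount at h
  have := (filter_card_eq h) c hc
  exact this

theorem comb_identity (P : Finset (Finset α)) (h2 : 2 ≤ P.card) (hodd : Odd (oddCount P)) :
    ∃ c₁ ∈ P, ∃ c₂ ∈ P, c₁ ≠ c₂ ∧
      vw P + ∑ C ∈ P.powerset.filter (fun C => c₁ ∈ C ∧ c₂ ∈ C ∧ C ≠ P),
        vw C * (if oddCount P - oddCount C + oddCount C % 2 = 1 then 1 else 0) = rho P := by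
  by_cases hE : ∃ c₁ ∈ P, ∃ c₂ ∈ P, c₁ ≠ c₂ ∧ ¬ Odd c₁.card ∧ ¬ Odd c₂.card
  · -- two even blocks
    obtain ⟨c₁, hc₁, c₂, hc₂, hne, ho1, ho2⟩ := hE
    refine ⟨c₁, hc₁, c₂, hc₂, hne, ?_⟩
    have hpos : 0 < oddCount P := hodd.pos
    have hpairP : ({c₁, c₂} : Finset (Finset α)) ≠ P := by
      intro h
      rw [← h, oddCount_pair hne ho1 ho2] at hpos
      exact lt_irrefl _ hpos
    have hcard3 : 3 ≤ P.card := by
      by_contra hlt
      have : P.card = 2 := by omega
      exact hpairP (eq_pair_of_card hc₁ hc₂ hne this).symm
    have hvwP : vw P = 0 := by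
      unfold vw
      rw [if_neg (by omega), if_neg]
      rintro ⟨h3, h3'⟩
      exact ho1 (all_odd_of (h3'.trans h3.symm) hc₁)
    rw [hvwP, zero_add, sum_eq_single ({c₁, c₂} : Finset (Finset α))]
    · rw [oddCount_pair hne ho1 ho2]
      unfold vw rho
      rw [if_pos (card_pair hne)]
      simp
    · intro C hC hCne
      rw [mem_filter, mem_powerset] at hC
      obtain ⟨hCP, hc₁C, hc₂C, -⟩ := hC
      have : vw C = 0 := by
        unfold vw
        rw [if_neg, if_neg]
        · rintro ⟨h3, h3'⟩
          exact ho1 (all_odd_of (h3'.trans h3.symm) hc₁C)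
        · intro h
          exact hCne (eq_pair_of_card hc₁C hc₂C hne h)
      rw [this, zero_mul]
    · intro h
      exfalso
      apply h
      rw [mem_filter, mem_powerset]
      exact ⟨pair_subset hc₁ hc₂, by simp, by simp, hpairP⟩
  · -- at most one even block
    push Not at hE
    have heven : (P.filter (fun c => ¬ Odd c.card)).card ≤ 1 := by
      rw [card_le_one]
      intro x hx y hy
      rw [mem_filter] at hx hy
      by_contra hxy
      exact hy.2 (hE x hx.1 y hy.1 hxy hx.2)
    have htot : oddCount P + (P.filter (fun c => ¬ Odd c.card)).card = P.card :=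
      card_filter_add_card_filter_not _
    obtain ⟨k, hk⟩ := hodd
    by_cases hP2 : P.card = 2
    · -- exactly two blocks
      obtain ⟨c₁, c₂, hne, hPeq⟩ := card_eq_two.mp hP2
      refine ⟨c₁, by rw [hPeq]; simp, c₂, by rw [hPeq]; simp, hne, ?_⟩
      rw [sum_eq_zero]
      · unfold vw rho
        rw [if_pos hP2, if_pos (by omega), add_zero]
      · intro C hC
        rw [mem_filter, mem_powerset] at hC
        obtain ⟨hCP, h1, h2, h3⟩ := hC
        exact absurd (subset_antisymm hCP (by rw [hPeq]; exact pair_subset h1 h2)) h3
    · -- at least three blocks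
      have hO : 1 < (P.filter (fun c => Odd c.card)).card := by
        change 1 < oddCount P
        omega
      obtain ⟨c₁, hc₁, c₂, hc₂, hne⟩ := one_lt_card.mp hO
      rw [mem_filter] at hc₁ hc₂
      refine ⟨c₁, hc₁.1, c₂, hc₂.1, hne, ?_⟩
      have hpair2 : oddCount ({c₁, c₂} : Finset (Finset α)) = 2 := oddCount_pair' hne hc₁.2 hc₂.2
      have hrho : rho P = 0 := by
        unfold rho
        rw [if_neg (by omega)]
      rw [hrho]
      by_cases h3 : oddCount P = 3
      · -- three odd blocks
        set O := P.filter (fun c => Odd c.card) with hOdef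
        have hOcard : O.card = 3 := h3
        have hOodd : oddCount O = 3 := by
          unfold oddCount
          rw [hOdef, filter_filter]
          simp only [and_self]
          exact h3
        have hvwO : vw O = -1 := by
          unfold vw
          rw [if_neg (by omega), if_pos ⟨hOcard, hOodd⟩]
        have hsum : ∑ C ∈ P.powerset.filter (fun C => c₁ ∈ C ∧ c₂ ∈ C ∧ C ≠ P),
            vw C * (if oddCount P - oddCount C + oddCount C % 2 = 1 then (1 : ℚ) else 0)
            = ∑ C ∈ P.powerset.filter (fun C => c₁ ∈ C ∧ c₂ ∈ C ∧ C ≠ P),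
              ((if C = {c₁, c₂} then 1 else 0) + (if C = O then -1 else 0)) := by
          apply sum_congr rfl
          intro C hC
          rw [mem_filter, mem_powerset] at hC
          obtain ⟨hCP, h1C, h2C, hCne⟩ := hC
          by_cases hCp : C = {c₁, c₂}
          · have hCO : C ≠ O := by
              intro h
              have : C.card = 3 := by rw [h, hOcard]
              rw [hCp, card_pair hne] at this
              omega
            rw [if_pos hCp, if_neg hCO, hCp, hpair2, h3]
            unfold vw
            rw [if_pos (card_pair hne)]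
            norm_num
          · by_cases hCO : C = O
            · rw [if_neg hCp, if_pos hCO, hCO, hOodd, hvwO, h3]
              norm_num
            · rw [if_neg hCp, if_neg hCO]
              have : vw C = 0 := by
                unfold vw
                rw [if_neg, if_neg]
                · rintro ⟨h3a, h3b⟩
                  apply hCO
                  apply eq_of_subset_of_card_le
                  · intro x hx
                    rw [hOdef, mem_filter]
                    exact ⟨hCP hx, all_odd_of (h3b.trans h3a.symm) hx⟩
                  · rw [hOcard, h3a]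
                · intro h
                  exact hCp (eq_pair_of_card h1C h2C hne h)
              rw [this, zero_mul, add_zero]
        rw [hsum, sum_add_distrib, sum_ite_eq', sum_ite_eq']
        have hpm : ({c₁, c₂} : Finset (Finset α)) ∈
            P.powerset.filter (fun C => c₁ ∈ C ∧ c₂ ∈ C ∧ C ≠ P) := by
          rw [mem_filter, mem_powerset]
          refine ⟨pair_subset hc₁.1 hc₂.1, by simp, by simp, ?_⟩
          intro h
          exact hP2 (by rw [← h, card_pair hne])
        rw [if_pos hpm]
        by_cases hOP : O = P
        · rw [if_neg]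
          · unfold vw
            rw [if_neg hP2, if_pos]
            · norm_num
            · exact ⟨by rw [← hOP, hOcard], h3⟩
          · rw [mem_filter]
            rintro ⟨-, -, -, h⟩
            exact h hOP
        · rw [if_pos]
          · have : vw P = 0 := by
              unfold vw
              rw [if_neg hP2, if_neg]
              rintro ⟨h, -⟩
              apply hOP
              apply eq_of_subset_of_card_le (filter_subset _ _)
              rw [h, hOcard]
            rw [this]; norm_num
          · rw [mem_filter, mem_powerset]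
            exact ⟨filter_subset _ _, mem_filter.mpr hc₁, mem_filter.mpr hc₂, hOP⟩
      · -- at least five odd blocks
        have h5 : 5 ≤ oddCount P := by omega
        have hvwP : vw P = 0 := by
          unfold vw
          rw [if_neg hP2, if_neg]
          rintro ⟨-, h⟩
          exact h3 h
        rw [hvwP, zero_add]
        apply sum_eq_zero
        intro C hC
        rw [mem_filter, mem_powerset] at hC
        obtain ⟨hCP, h1C, h2C, hCne⟩ := hC
        unfold vw
        by_cases hc2 : C.card = 2
        · have hCp := eq_pair_of_card h1C h2C hne hc2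
          have hz : (if oddCount P - 2 + 2 % 2 = 1 then (1 : ℚ) else 0) = 0 := if_neg (by omega)
          rw [hCp, hpair2, hz, mul_zero]
        · rw [if_neg hc2]
          by_cases hc3 : C.card = 3 ∧ oddCount C = 3
          · have hz : (if oddCount P - 3 + 3 % 2 = 1 then (1 : ℚ) else 0) = 0 := if_neg (by omega)
            rw [hc3.2, hz, mul_zero]
          · rw [if_neg hc3, zero_mul]

end Pool.Agent.helper17
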