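import Pool.Agent.helper17.KeelChildren

open Finset

set_option linter.unusedSectionVars false

namespace Pool.Agent.helper17

variable {α : Type*} [DecidableEq α] [Fintype α]

section Union

variable {F : Finset (Finset α)} (hF : Nested F)
include hF

/-- Every member of the family lies in a unique root child. -/
theorem exists_rootChild_ge {S : Finset α} (hN : 2 ≤ Fintype.card α) (hS : S ∈ F) :
    ∃ c ∈ children F univ, S ⊆ c := by
  obtain ⟨x, hx⟩ := card_pos.mp (by have := hF.two_le S hS; omega : 0 < S.card)
  obtain ⟨c, hc, hxc⟩ := exists_child (F := F) (V := univ) (by rwa [card_univ]) (mem_univ x)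
  refine ⟨c, hc, ?_⟩
  have hc' := (mem_rootChildren hF).mp hc
  rcases block_compat hF (Or.inl hS) hc'.1 with h | h | h
  · exact h
  · rcases h.eq_or_ssubset with h | h
    · exact h.symm.subset
    · exact absurd h (hc'.2.2 S hS)
  · exact absurd hxc (disjoint_left.mp h hx)

variable {C : Finset (Finset α)} (hC : C ⊆ children F univ)
include hC

theorem filter_subset_biUnion : (children F univ).filter (fun c => c ⊆ C.biUnion id) = C := by
  ext c
  rw [mem_filter]
  constructor
  · rintro ⟨hc, hcT⟩
    obtain ⟨x, hx⟩ := child_nonempty hF hc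
    have := hcT hx
    rw [mem_biUnion] at this
    obtain ⟨d, hd, hxd⟩ := this
    by_cases hcd : c = d
    · rwa [hcd]
    · exact absurd hxd (disjoint_left.mp (children_disjoint hF hc (hC hd) hcd) hx)
  · intro hc
    exact ⟨hC hc, fun x hx => mem_biUnion.mpr ⟨c, hc, hx⟩⟩

theorem biUnion_ne_univ (hne : C ≠ children F univ) : C.biUnion id ≠ univ := by
  intro h
  apply hne
  rw [← filter_subset_biUnion hF hC, h]
  ext c
  simp

theorem nested_insert_biUnion (hN : 2 ≤ Fintype.card α) (h2 : 2 ≤ C.card)
    (hne : C ≠ children F univ) : Nested (insert (C.biUnion id) F) := by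
  have key : ∀ S ∈ F, S ⊆ C.biUnion id ∨ Disjoint S (C.biUnion id) := by
    intro S hS
    obtain ⟨c, hc, hSc⟩ := exists_rootChild_ge hF hN hS
    by_cases hcC : c ∈ C
    · left
      intro x hx
      exact mem_biUnion.mpr ⟨c, hcC, hSc hx⟩
    · right
      rw [disjoint_left]
      intro x hx hx2
      rw [mem_biUnion] at hx2
      obtain ⟨d, hd, hxd⟩ := hx2
      have hcd : c ≠ d := by rintro rfl; exact hcC hd
      exact (disjoint_left.mp (children_disjoint hF hc (hC hd) hcd)) (hSc hx) hxd
  refine ⟨?_, ?_, ?_⟩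
  · intro S hS
    rcases mem_insert.mp hS with rfl | hS
    · have hcb : (C.biUnion id).card = ∑ c ∈ C, (id c).card :=
        card_biUnion (fun x hx y hy hxy => children_disjoint hF (hC hx) (hC hy) hxy)
      rw [hcb]
      calc 2 ≤ C.card := h2
        _ = ∑ c ∈ C, 1 := by simp
        _ ≤ ∑ c ∈ C, (id c).card := by
            apply sum_le_sum
            intro c hc
            exact card_pos.mpr (child_nonempty hF (hC hc))
    · exact hF.two_le S hS
  · intro S hS
    rcases mem_insert.mp hS with rfl | hS
    · exact biUnion_ne_univ hF hC hne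
    · exact hF.ne_univ S hS
  · intro S hS U hU
    rcases mem_insert.mp hS with hS1 | hS1
    · rcases mem_insert.mp hU with hU1 | hU1
      · exact Or.inl (hS1.trans hU1.symm).subset
      · rw [hS1]
        rcases key U hU1 with h | h
        · exact Or.inr (Or.inl h)
        · exact Or.inr (Or.inr h.symm)
    · rcases mem_insert.mp hU with hU1 | hU1
      · rw [hU1]
        rcases key S hS1 with h | h
        · exact Or.inl h
        · exact Or.inr (Or.inr h)
      · exact hF.compat S hS1 U hU1

end Union

/-- Sum over insertable subsets as a sum over sets of root children. -/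
theorem sum_insert_eq {M : Type*} [AddCommMonoid M] {F : Finset (Finset α)} (hF : Nested F)
    (hN : 2 ≤ Fintype.card α) {a b : α} {c₁ c₂ : Finset α} (hc₁ : c₁ ∈ children F univ)
    (hc₂ : c₂ ∈ children F univ) (hne : c₁ ≠ c₂) (ha : a ∈ c₁) (hb : b ∈ c₂)
    [DecidablePred fun T : Finset α => a ∈ T ∧ b ∈ T ∧ T ≠ univ]
    [DecidablePred fun T : Finset α => Nested (insert T F)]
    (G : Finset α → M) :
    ∑ T ∈ univ.filter (fun T : Finset α => a ∈ T ∧ b ∈ T ∧ T ≠ univ),
      (if Nested (insert T F) then G T else 0) =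
    ∑ C ∈ (children F univ).powerset.filter (fun C => c₁ ∈ C ∧ c₂ ∈ C ∧ C ≠ children F univ),
      G (C.biUnion id) := by
  rw [← sum_filter]
  symm
  refine sum_bij (fun C _ => C.biUnion id) ?_ ?_ ?_ ?_
  · intro C hC
    rw [mem_filter, mem_powerset] at hC
    obtain ⟨hCP, h1, h2, h3⟩ := hC
    rw [mem_filter, mem_filter]
    have hcard : 2 ≤ C.card := by
      calc 2 = ({c₁, c₂} : Finset (Finset α)).card := by rw [card_pair hne]
        _ ≤ C.card := card_le_card (by
            intro x hx
            simp only [mem_insert, mem_singleton] at hx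
            rcases hx with rfl | rfl <;> assumption)
    exact ⟨⟨mem_univ _, mem_biUnion.mpr ⟨c₁, h1, ha⟩, mem_biUnion.mpr ⟨c₂, h2, hb⟩,
      biUnion_ne_univ hF hCP h3⟩, nested_insert_biUnion hF hCP hN hcard h3⟩
  · intro C hC D hD h
    rw [mem_filter, mem_powerset] at hC hD
    have h' : C.biUnion id = D.biUnion id := h
    rw [← filter_subset_biUnion hF hC.1, ← filter_subset_biUnion hF hD.1, h']
  · intro T hT
    rw [mem_filter, mem_filter] at hT
    obtain ⟨⟨-, haT, hbT, hTu⟩, hTn⟩ := hT
    refine ⟨(children F univ).filter (fun c => c ⊆ T), ?_,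
      eq_biUnion_filter hF hTn hc₁ hc₂ hne ha hb haT hbT hN⟩
    rw [mem_filter, mem_powerset]
    refine ⟨filter_subset _ _, ?_, ?_, ?_⟩
    · rw [mem_filter]
      refine ⟨hc₁, ?_⟩
      rcases rootChild_subset_or_disjoint hF hTn hc₁ hc₂ hne ha hb haT hbT hc₁ with h | h
      · exact h
      · exact absurd haT (disjoint_left.mp h ha)
    · rw [mem_filter]
      refine ⟨hc₂, ?_⟩
      rcases rootChild_subset_or_disjoint hF hTn hc₁ hc₂ hne ha hb haT hbT hc₂ with h | h
      · exact h
      · exact absurd hbT (disjoint_left.mp h hb)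
    · intro h
      apply hTu
      rw [← eq_biUnion_filter hF hTn hc₁ hc₂ hne ha hb haT hbT hN, h]
      exact biUnion_children (F := F) (V := univ) (by rwa [card_univ])
  · intro C _
    rfl

/-- Multiplying a stratum by psi. -/
theorem psi_mul_strat {F : Finset (Finset α)} (hF : Nested F) {a b : α} {c₁ c₂ : Finset α}
    (hc₁ : c₁ ∈ children F univ) (hc₂ : c₂ ∈ children F univ) (hne : c₁ ≠ c₂) (ha : a ∈ c₁)
    (hb : b ∈ c₂) [DecidablePred fun T : Finset α => Nested (insert T F)] :
    psi α * strat F = ∑ T ∈ univ.filter (fun T : Finset α => a ∈ T ∧ b ∈ T ∧ T ≠ univ),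
      (if Nested (insert T F) then strat (insert T F) else 0) := by
  have hab : a ≠ b := by
    rintro rfl
    exact (disjoint_left.mp (children_disjoint hF hc₁ hc₂ hne)) ha hb
  rw [psi_eq hab, sum_mul]
  apply sum_congr rfl
  intro T hT
  rw [mem_filter] at hT
  obtain ⟨-, haT, hbT, hTu⟩ := hT
  split_ifs with h
  · rw [strat_insert (not_mem_of_two hF h hc₁ hc₂ hne ha hb haT hbT)]
  · exact bd_mul_strat_of_not_nested hF hTu h

end Pool.Agent.helper17
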