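import Pool.Agent.helper17.KeelComb

open Finset

set_option linter.unusedSectionVars false

namespace Pool.Agent.helper17

variable {α : Type*} [DecidableEq α] [Fintype α]

/-- A degree map. -/
structure IsDegree (deg : ChowRing α →ₗ[ℚ] ℚ) : Prop where
  homog : ∀ (k : ℕ) (p : MvPolynomial (Finset α) ℚ), p.IsHomogeneous k →
    k + 2 ≠ Fintype.card α → deg (Ideal.Quotient.mk (Ideal.span (relations α)) p) = 0
  point : ∀ F : Finset (Finset α), Nested F → F.card + 2 = Fintype.card α → deg (strat F) = 1

/-- Degree of the total Hodge class on a boundary stratum. -/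
def hodgeDegree (F : Finset (Finset α)) : ℚ :=
  ∏ V ∈ insert univ F,
    if (children F V).card = 2 then 1
    else if (children F V).card = 3 ∧ ∀ C ∈ children F V, Odd C.card then 1 / 2 else 0

/-- Hodge classes. -/
structure IsHodge (deg : ChowRing α →ₗ[ℚ] ℚ) (lam : ℕ → ChowRing α) : Prop where
  homog : ∀ k, ∃ p : MvPolynomial (Finset α) ℚ, p.IsHomogeneous k ∧
    Ideal.Quotient.mk (Ideal.span (relations α)) p = lam k
  degree : ∀ (k : ℕ) (F : Finset (Finset α)), Nested F → F.card + k + 2 = Fintype.card α →
    deg (lam k * strat F) = hodgeDegree F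

theorem neg_two_pow_mul_hodgeDegree {F : Finset (Finset α)} (hF : Nested F)
    (hN : 2 ≤ Fintype.card α) {d : ℕ} (hd : F.card + d + 2 = Fintype.card α) :
    (-2 : ℚ) ^ d * hodgeDegree F = ∏ V ∈ insert univ F, vw (children F V) := by
  have h1 := sum_card_children_sub_two hF hN
  have h2 : d = ∑ V ∈ insert univ F, ((children F V).card - 2) := by omega
  rw [h2, ← prod_pow_eq_pow_sum]
  unfold hodgeDegree
  rw [← prod_mul_distrib]
  apply prod_congr rfl
  intro V hV
  unfold vw
  by_cases hc2 : (children F V).card = 2
  · rw [if_pos hc2, if_pos hc2, hc2]; norm_num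
  · rw [if_neg hc2, if_neg hc2]
    by_cases hc3 : (children F V).card = 3
    · by_cases ho : ∀ C ∈ children F V, Odd C.card
      · have ho3 : oddCount (children F V) = 3 := by
          unfold oddCount
          rw [filter_true_of_mem ho, hc3]
        rw [if_pos ⟨hc3, ho⟩, if_pos ⟨hc3, ho3⟩, hc3]; norm_num
      · have ho3 : ¬ oddCount (children F V) = 3 := by
          intro h
          exact ho (fun C hC => all_odd_of (h.trans hc3.symm) hC)
        rw [if_neg (fun h => ho h.2), if_neg (fun h => ho3 h.2), mul_zero]
    · rw [if_neg (fun h => hc3 h.1), if_neg (fun h => hc3 h.1), mul_zero]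

theorem univ_notMem {F : Finset (Finset α)} (hF : Nested F) : (univ : Finset α) ∉ F :=
  fun h => hF.ne_univ _ h rfl

theorem odd_card_biUnion {F : Finset (Finset α)} (hF : Nested F) {V : Finset α}
    {C : Finset (Finset α)} (hC : C ⊆ children F V) :
    Odd (C.biUnion id).card ↔ Odd (oddCount C) := by
  have hcb : (C.biUnion id).card = ∑ c ∈ C, (id c).card :=
    card_biUnion (fun x hx y hy hxy => children_disjoint hF (hC hx) (hC hy) hxy)
  rw [hcb, odd_sum_iff_odd_card_odd]
  rfl

theorem odd_oddCount_root {F : Finset (Finset α)} (hF : Nested F) (hN : 2 ≤ Fintype.card α)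
    (hodd : Odd (Fintype.card α)) : Odd (oddCount (children F univ)) := by
  rw [← odd_card_biUnion hF (Subset.refl _), biUnion_children (by rwa [card_univ]), card_univ]
  exact hodd

theorem oddCount_sdiff {C P : Finset (Finset α)} (h : C ⊆ P) :
    oddCount (P \ C) = oddCount P - oddCount C := by
  unfold oddCount
  have h1 : (P \ C).filter (fun c => Odd c.card)
      = P.filter (fun c => Odd c.card) \ C.filter (fun c => Odd c.card) := by
    ext x
    simp only [mem_filter, mem_sdiff, not_and]
    tauto
  rw [h1, card_sdiff_of_subset (filter_subset_filter _ h)]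

section Step

variable {F : Finset (Finset α)} (hF : Nested F) (hN : 2 ≤ Fintype.card α)
  {C : Finset (Finset α)} (hCP : C ⊆ children F univ) (h2 : 2 ≤ C.card)
  (hne : C ≠ children F univ)
include hF hN hCP h2 hne

theorem biUnion_insert_data :
    children (insert (C.biUnion id) F) univ = insert (C.biUnion id) (children F univ \ C) ∧
    children (insert (C.biUnion id) F) (C.biUnion id) = C ∧
    (∀ V ∈ F, children (insert (C.biUnion id) F) V = children F V) ∧
    C.biUnion id ∉ F ∧ C.biUnion id ∉ children F univ \ C := by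
  have hT := nested_insert_biUnion hF hCP hN h2 hne
  obtain ⟨c₁, hc₁, c₂, hc₂, hc⟩ := one_lt_card.mp (by omega : 1 < C.card)
  obtain ⟨a, ha⟩ := child_nonempty hF (hCP hc₁)
  obtain ⟨b, hb⟩ := child_nonempty hF (hCP hc₂)
  have haT : a ∈ C.biUnion id := mem_biUnion.mpr ⟨c₁, hc₁, ha⟩
  have hbT : b ∈ C.biUnion id := mem_biUnion.mpr ⟨c₂, hc₂, hb⟩
  have hfil := filter_subset_biUnion hF hCP
  have hfil2 : (children F univ).filter (fun c => ¬ c ⊆ C.biUnion id) = children F univ \ C := by
    conv_rhs => rw [← hfil]
    rw [filter_not]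
  refine ⟨?_, ?_, ?_, ?_, ?_⟩
  · rw [children_insert_univ hF hT (hCP hc₁) (hCP hc₂) hc ha hb haT hbT, hfil2]
  · rw [children_insert_self hF hT (hCP hc₁) (hCP hc₂) hc ha hb haT hbT, hfil]
  · intro V hV
    exact children_insert_of_mem hF hT (hCP hc₁) (hCP hc₂) hc ha hb haT hbT hV
  · exact not_mem_of_two hF hT (hCP hc₁) (hCP hc₂) hc ha hb haT hbT
  · intro h
    rw [mem_sdiff] at h
    exact not_subset_of_two_children hF (hCP hc₁) (hCP hc₂) hc ha hb
      ((mem_rootChildren hF).mp h.1).1 haT hbT

theorem rho_insert :
    rho (children (insert (C.biUnion id) F) univ) =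
      if oddCount (children F univ) - oddCount C + oddCount C % 2 = 1 then 1 else 0 := by
  obtain ⟨h1, -, -, -, h5⟩ := biUnion_insert_data hF hN hCP h2 hne
  rw [h1]
  unfold rho
  have : oddCount (insert (C.biUnion id) (children F univ \ C))
      = oddCount (children F univ) - oddCount C + oddCount C % 2 := by
    rw [← oddCount_sdiff hCP]
    have hpar := odd_card_biUnion hF hCP
    unfold oddCount at hpar ⊢
    rw [filter_insert]
    split_ifs with ho
    · rw [card_insert_of_notMem (fun h => h5 (mem_filter.mp h).1)]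
      have := Nat.odd_iff.mp (hpar.mp ho)
      omega
    · have : ¬ Odd (C.filter (fun c => Odd c.card)).card := fun h => ho (hpar.mpr h)
      rw [Nat.not_odd_iff] at this
      omega
  rw [this]

theorem prod_insert_vw :
    ∏ V ∈ insert (C.biUnion id) F, vw (children (insert (C.biUnion id) F) V)
      = vw C * ∏ V ∈ F, vw (children F V) := by
  obtain ⟨-, h2', h3, h4, -⟩ := biUnion_insert_data hF hN hCP h2 hne
  rw [prod_insert h4, h2']
  congr 1
  apply prod_congr rfl
  intro V hV
  rw [h3 V hV]

end Step

/-- The key formula. -/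
theorem key_formula {deg : ChowRing α →ₗ[ℚ] ℚ} {lam : ℕ → ChowRing α} (hlam : IsHodge deg lam)
    (hN : 2 ≤ Fintype.card α) (hodd : Odd (Fintype.card α)) (d : ℕ) :
    ∀ F : Finset (Finset α), Nested F → F.card + d + 2 = Fintype.card α →
      ∑ m ∈ range (d + 1), (-2 : ℚ) ^ (d - m) * deg (lam (d - m) * (psi α ^ m * strat F))
        = rho (children F univ) * ∏ V ∈ F, vw (children F V) := by
  classical
  induction d with
  | zero =>
    intro F hF hd
    have h1 := neg_two_pow_mul_hodgeDegree hF hN (d := 0) hd
    have h0 := hlam.degree 0 F hF hd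
    rw [zero_add, sum_range_one]
    simp only [Nat.sub_zero, pow_zero, one_mul] at h1 ⊢
    rw [h0, h1, prod_insert (univ_notMem hF)]
    have h2 := sum_card_children_sub_two hF hN
    have h3 : (children F univ).card = 2 := by
      have h4 : ∑ V ∈ insert univ F, ((children F V).card - 2) = 0 := by omega
      have h5 := (sum_eq_zero_iff.mp h4) univ (mem_insert_self _ _)
      have h6 := two_le_card_children (F := F) (V := univ) (by rwa [card_univ])
      omega
    have h4 : oddCount (children F univ) = 1 := by
      have h5 := odd_oddCount_root hF hN hodd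
      have h6 := oddCount_le_card (children F univ)
      obtain ⟨k, hk⟩ := h5
      omega
    congr 1
    unfold vw rho
    rw [if_pos h3, if_pos h4]
  | succ d ih =>
    intro F hF hd
    obtain ⟨c₁, hc₁, c₂, hc₂, hne, hcomb⟩ := comb_identity (children F univ)
      (two_le_card_children (by rwa [card_univ])) (odd_oddCount_root hF hN hodd)
    obtain ⟨a, ha⟩ := child_nonempty hF hc₁
    obtain ⟨b, hb⟩ := child_nonempty hF hc₂
    rw [sum_range_succ']
    have hlast : (-2 : ℚ) ^ (d + 1 - 0) * deg (lam (d + 1 - 0) * (psi α ^ 0 * strat F))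
        = vw (children F univ) * ∏ V ∈ F, vw (children F V) := by
      rw [Nat.sub_zero, pow_zero, one_mul, hlam.degree (d + 1) F hF hd,
        neg_two_pow_mul_hodgeDegree hF hN hd, prod_insert (univ_notMem hF)]
    rw [hlast]
    have hsum : ∑ m ∈ range (d + 1),
        (-2 : ℚ) ^ (d + 1 - (m + 1)) * deg (lam (d + 1 - (m + 1)) * (psi α ^ (m + 1) * strat F))
        = ∑ T ∈ univ.filter (fun T : Finset α => a ∈ T ∧ b ∈ T ∧ T ≠ univ),
          (if Nested (insert T F) then
            rho (children (insert T F) univ) * ∏ V ∈ insert T F, vw (children (insert T F) V)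
          else 0) := by
      have h1 : ∀ m ∈ range (d + 1),
          (-2 : ℚ) ^ (d + 1 - (m + 1)) * deg (lam (d + 1 - (m + 1)) * (psi α ^ (m + 1) * strat F))
          = ∑ T ∈ univ.filter (fun T : Finset α => a ∈ T ∧ b ∈ T ∧ T ≠ univ),
            (-2 : ℚ) ^ (d - m) * deg (lam (d - m) *
              (psi α ^ m * (if Nested (insert T F) then strat (insert T F) else 0))) := by
        intro m _
        have h2 : psi α ^ (m + 1) * strat F = psi α ^ m * (psi α * strat F) := by ring
        rw [h2, psi_mul_strat hF hc₁ hc₂ hne ha hb, mul_sum, mul_sum, map_sum, mul_sum,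
          Nat.add_sub_add_right]
      rw [sum_congr rfl h1, sum_comm]
      apply sum_congr rfl
      intro T hT
      rw [mem_filter] at hT
      split_ifs with hTn
      · have hTF := not_mem_of_two hF hTn hc₁ hc₂ hne ha hb hT.2.1 hT.2.2.1
        refine ih (insert T F) hTn ?_
        rw [card_insert_of_notMem hTF]
        omega
      · simp
    rw [hsum, sum_insert_eq hF hN hc₁ hc₂ hne ha hb]
    have hterm : ∀ C ∈ (children F univ).powerset.filter
        (fun C => c₁ ∈ C ∧ c₂ ∈ C ∧ C ≠ children F univ),
        rho (children (insert (C.biUnion id) F) univ) *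
          ∏ V ∈ insert (C.biUnion id) F, vw (children (insert (C.biUnion id) F) V)
        = (vw C * (if oddCount (children F univ) - oddCount C + oddCount C % 2 = 1
            then 1 else 0)) * ∏ V ∈ F, vw (children F V) := by
      intro C hC
      rw [mem_filter, mem_powerset] at hC
      obtain ⟨hCP, h1, h2, h3⟩ := hC
      have hcard : 2 ≤ C.card := by
        calc 2 = ({c₁, c₂} : Finset (Finset α)).card := by rw [card_pair hne]
          _ ≤ C.card := card_le_card (pair_subset h1 h2)
      rw [rho_insert hF hN hCP hcard h3, prod_insert_vw hF hN hCP hcard h3]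
      ring
    rw [sum_congr rfl hterm, ← sum_mul, ← add_mul, add_comm, hcomb]

end Pool.Agent.helper17
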