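import Pool.Agent.helper17.KeelKey

open Finset

set_option linter.unusedSectionVars false

namespace Pool.Agent.helper17

variable {α : Type*} [DecidableEq α] [Fintype α]

/-- Span of the strata classes of codimension `k`. -/
noncomputable def stSpan (α : Type*) [DecidableEq α] [Fintype α] (k : ℕ) :
    Submodule ℚ (ChowRing α) :=
  Submodule.span ℚ {y | ∃ F : Finset (Finset α), Nested F ∧ F.card = k ∧ y = strat F}

theorem strat_mem_stSpan {F : Finset (Finset α)} (hF : Nested F) {k : ℕ} (hk : F.card = k) :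
    strat F ∈ stSpan α k := Submodule.subset_span ⟨F, hF, hk, rfl⟩

theorem bd_mul_strat_new {F : Finset (Finset α)} (hF : Nested F) {T : Finset α}
    (hTu : T ≠ univ) (hTF : T ∉ F) : bd T * strat F ∈ stSpan α (F.card + 1) := by
  by_cases h : Nested (insert T F)
  · rw [← strat_insert hTF]
    exact strat_mem_stSpan h (card_insert_of_notMem hTF)
  · rw [bd_mul_strat_of_not_nested hF hTu h]
    exact Submodule.zero_mem _

theorem bd_mul_strat_old (hN : 2 ≤ Fintype.card α) {F : Finset (Finset α)} (hF : Nested F)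
    {S : Finset α} (hS : S ∈ F) : bd S * strat F ∈ stSpan α (F.card + 1) := by
  -- two children of `S`
  have hS2 := hF.two_le S hS
  obtain ⟨C, hC, D, hD, hCD⟩ := one_lt_card.mp
    (by have := two_le_card_children (F := F) hS2; omega : 1 < (children F S).card)
  obtain ⟨a, ha⟩ := child_nonempty hF hC
  obtain ⟨b, hb⟩ := child_nonempty hF hD
  have hdis := children_disjoint hF hC hD hCD
  have haS : a ∈ S := (mem_children.mp hC).2.1.subset ha
  have hbS : b ∈ S := (mem_children.mp hD).2.1.subset hb
  have hbC : b ∉ C := fun h => (disjoint_left.mp hdis) h hb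
  -- the parent of `S`
  obtain ⟨V, hV, hSV, -⟩ := exists_unique_parent hF hN (mem_nodes.mpr (Or.inl hS))
  have hSV' := (mem_children.mp hSV).2
  obtain ⟨c, hcV, hcS⟩ := exists_of_ssubset hSV'.1
  have hab : a ≠ b := by rintro rfl; exact hbC ha
  have hac : a ≠ c := by rintro rfl; exact hcS haS
  have hup : ∀ T ∈ F, S ⊂ T → c ∈ T := by
    intro T hT hST
    have hVT : T ⊆ V ∨ V ⊆ T ∨ Disjoint T V := by
      rcases mem_insert.mp hV with rfl | hVF
      · exact Or.inl (subset_univ _)
      · exact hF.compat T hT V hVF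
    rcases hVT with h | h | h
    · rcases h.eq_or_ssubset with h | h
      · rw [h]; exact hcV
      · exact absurd h (hSV'.2 T hT hST)
    · exact h hcV
    · exact absurd (hSV'.1.subset haS) (disjoint_left.mp h (hST.subset haS))
  have hdown : ∀ T ∈ F, T ⊂ S → a ∈ T → b ∉ T := by
    intro T hT hTS haT hbT
    rcases block_compat hF (Or.inl hT) (mem_children.mp hC).1 with h | h | h
    · exact hbC (h hbT)
    · have hss : C ⊂ T := h.ssubset_of_ne (by rintro rfl; exact hbC hbT)
      exact (mem_children.mp hC).2.2 T hT hss hTS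
    · exact (disjoint_left.mp h) haT ha
  -- the relation
  have hrel : ∑ T ∈ univ.filter (fun T : Finset α => (a ∈ T ∧ b ∈ T) ∧ c ∉ T),
      bd T * strat F = 0 := by
    have h1 := bd_lin (α := α) hab
    have h2 := bd_lin (α := α) hac
    have h1' := sum_filter_add_sum_filter_not
      (univ.filter (fun T : Finset α => a ∈ T ∧ b ∈ T)) (fun T => c ∈ T) (fun T => bd T * strat F)
    have h2' := sum_filter_add_sum_filter_not
      (univ.filter (fun T : Finset α => a ∈ T ∧ c ∈ T)) (fun T => b ∈ T) (fun T => bd T * strat F)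
    have e1 : ∑ T ∈ univ.filter (fun T : Finset α => a ∈ T ∧ b ∈ T), bd T * strat F = 0 := by
      rw [← sum_mul, h1, zero_mul]
    have e2 : ∑ T ∈ univ.filter (fun T : Finset α => a ∈ T ∧ c ∈ T), bd T * strat F = 0 := by
      rw [← sum_mul, h2, zero_mul]
    rw [e1] at h1'
    rw [e2] at h2'
    rw [filter_filter, filter_filter] at h1' h2'
    have h3 : ∑ T ∈ univ.filter (fun T : Finset α => (a ∈ T ∧ c ∈ T) ∧ ¬ b ∈ T),
        bd T * strat F = 0 := by
      apply sum_eq_zero
      intro T hT
      rw [mem_filter] at hT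
      apply bd_mul_strat_of_not_compat hS
      rintro (h | h | h)
      · exact hcS (h hT.2.1.2)
      · exact hT.2.2 (h hbS)
      · exact (disjoint_left.mp h) hT.2.1.1 haS
    have h4 : univ.filter (fun T : Finset α => (a ∈ T ∧ b ∈ T) ∧ c ∈ T)
        = univ.filter (fun T : Finset α => (a ∈ T ∧ c ∈ T) ∧ b ∈ T) := by
      ext T; simp only [mem_filter, mem_univ, true_and]; tauto
    rw [h3, add_zero] at h2'
    rw [h4, h2', zero_add] at h1'
    exact h1'
  have hSmem : S ∈ univ.filter (fun T : Finset α => (a ∈ T ∧ b ∈ T) ∧ c ∉ T) := by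
    rw [mem_filter]; exact ⟨mem_univ _, ⟨haS, hbS⟩, hcS⟩
  rw [← add_sum_erase _ _ hSmem] at hrel
  rw [eq_neg_of_add_eq_zero_left hrel]
  apply Submodule.neg_mem
  apply Submodule.sum_mem
  intro T hT
  rw [mem_erase, mem_filter] at hT
  obtain ⟨hTS, -, ⟨haT, hbT⟩, hcT⟩ := hT
  apply bd_mul_strat_new hF
  · rintro rfl; exact hcT (mem_univ _)
  · intro hTF
    rcases hF.compat T hTF S hS with h | h | h
    · exact hdown T hTF (h.ssubset_of_ne hTS) haT hbT
    · exact hcT (hup T hTF (h.ssubset_of_ne (fun h => hTS h.symm)))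
    · exact (disjoint_left.mp h) haT haS

theorem bd_mul_strat_mem (hN : 2 ≤ Fintype.card α) {F : Finset (Finset α)} (hF : Nested F)
    (S : Finset α) : bd S * strat F ∈ stSpan α (F.card + 1) := by
  classical
  by_cases hSu : S = univ
  · subst hSu
    have hcard := two_le_card_children (F := F) (V := (univ : Finset α)) (by rwa [card_univ])
    obtain ⟨c₁, hc₁, c₂, hc₂, hne⟩ := one_lt_card.mp (by omega : 1 < (children F univ).card)
    obtain ⟨a, ha⟩ := child_nonempty hF hc₁
    obtain ⟨b, hb⟩ := child_nonempty hF hc₂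
    have h1 := psi_mul_strat hF hc₁ hc₂ hne ha hb
    have h2 : bd (univ : Finset α) * strat F = - (psi α * strat F) := by
      unfold psi; ring
    rw [h2, h1]
    apply Submodule.neg_mem
    apply Submodule.sum_mem
    intro T hT
    rw [mem_filter] at hT
    split_ifs with hTn
    · have hTF := not_mem_of_two hF hTn hc₁ hc₂ hne ha hb hT.2.1 hT.2.2.1
      exact strat_mem_stSpan hTn (card_insert_of_notMem hTF)
    · exact Submodule.zero_mem _
  · by_cases hSF : S ∈ F
    · exact bd_mul_strat_old hN hF hSF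
    · exact bd_mul_strat_new hF hSu hSF

theorem bd_mul_mem (hN : 2 ≤ Fintype.card α) (S : Finset α) {k : ℕ} {y : ChowRing α}
    (hy : y ∈ stSpan α k) : bd S * y ∈ stSpan α (k + 1) := by
  unfold stSpan at hy
  induction hy using Submodule.span_induction with
  | mem y hy =>
    obtain ⟨F, hF, hk, rfl⟩ := hy
    rw [← hk]
    exact bd_mul_strat_mem hN hF S
  | zero => rw [mul_zero]; exact Submodule.zero_mem _
  | add x y _ _ hx hy => rw [mul_add]; exact Submodule.add_mem _ hx hy
  | smul c x _ hx => rw [mul_smul_comm]; exact Submodule.smul_mem _ _ hx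

theorem nested_empty : Nested (∅ : Finset (Finset α)) :=
  ⟨by simp, by simp, by simp⟩

theorem one_mem_stSpan : (1 : ChowRing α) ∈ stSpan α 0 := by
  have := strat_mem_stSpan (α := α) nested_empty (k := 0) rfl
  simpa [strat] using this

theorem bd_pow_mul_mem (hN : 2 ≤ Fintype.card α) (S : Finset α) (e : ℕ) {k : ℕ}
    {y : ChowRing α} (hy : y ∈ stSpan α k) : bd S ^ e * y ∈ stSpan α (k + e) := by
  induction e with
  | zero => simpa using hy
  | succ e ih =>
    rw [pow_succ', mul_assoc, ← add_assoc]
    exact bd_mul_mem hN S ih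

theorem prod_bd_pow_mem (hN : 2 ≤ Fintype.card α) (m : Finset α → ℕ)
    (A : Finset (Finset α)) : ∏ S ∈ A, bd S ^ m S ∈ stSpan α (∑ S ∈ A, m S) := by
  induction A using Finset.induction_on with
  | empty => simpa using one_mem_stSpan
  | insert S A hS ih =>
    rw [prod_insert hS, sum_insert hS, add_comm]
    exact bd_pow_mul_mem hN S (m S) ih

theorem mk_mem_stSpan (hN : 2 ≤ Fintype.card α) {k : ℕ} {p : MvPolynomial (Finset α) ℚ}
    (hp : p.IsHomogeneous k) :
    Ideal.Quotient.mk (Ideal.span (relations α)) p ∈ stSpan α k := by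
  rw [p.as_sum, map_sum]
  apply Submodule.sum_mem
  intro m hm
  rw [MvPolynomial.mem_support_iff] at hm
  have hdeg : m.degree = k := by
    have h := hp hm
    have h' : Finsupp.weight (fun _ : Finset α => (1 : ℕ)) m = k := h
    rwa [← Finsupp.degree_eq_weight_one] at h'
  have h0 : MvPolynomial.monomial m (MvPolynomial.coeff m p)
      = (MvPolynomial.coeff m p) • MvPolynomial.monomial m (1 : ℚ) := by
    rw [MvPolynomial.smul_monomial, smul_eq_mul, mul_one]
  rw [h0]
  change Ideal.Quotient.mkₐ ℚ (Ideal.span (relations α))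
    ((MvPolynomial.coeff m p) • MvPolynomial.monomial m (1 : ℚ)) ∈ _
  rw [map_smul]
  apply Submodule.smul_mem
  rw [MvPolynomial.monomial_eq, MvPolynomial.C_1, one_mul, Finsupp.prod, map_prod]
  have h2 := prod_bd_pow_mem hN (fun S => m S) m.support
  rw [← hdeg]
  refine (congrArg (fun z => z ∈ _) ?_).mp h2
  apply prod_congr rfl
  intro S _
  rw [map_pow]
  rfl

end Pool.Agent.helper17
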